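import Pool.Agent.Run7.h360.CF.Final

/-!
# Two numbers with a joint measure
-/

set_option autoImplicit false

namespace Pool.Agent.Run7.h360.CF

open Finset Polynomial Pool.Agent.R356 Pool.Agent.R473.JC

lemma aeval_sum (P : ℤ[X]) (D : ℕ) (hP : P.natDegree ≤ D) (x : ℝ) :
    (aeval x P : ℝ) = ∑ j : Fin (D + 1), ((P.coeff j : ℤ) : ℝ) * x ^ (j : ℕ) := by
  rw [aeval_eq_sum_range' (by omega : P.natDegree < D + 1), Finset.sum_range]
  refine Finset.sum_congr rfl fun j _ => ?_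
  rw [zsmul_eq_mul]

/-- translation by the integral part -/
lemma translate (u : ℝ) (D : ℕ) (P : ℤ[X]) (hP : P ≠ 0) (hPD : P.natDegree ≤ D) (H : ℝ)
    (hH : ∀ k, |((P.coeff k : ℤ) : ℝ)| ≤ H) : ∃ Q : ℤ[X], Q ≠ 0 ∧ Q.natDegree ≤ D ∧
      (∀ k, |((Q.coeff k : ℤ) : ℝ)| ≤ (D + 1) * H * (|u| + 3) ^ D) ∧ (aeval u Q : ℝ) = aeval (Int.fract u) P := by
  obtain ⟨Q, h0, hd, hc, hv⟩ := shifted_poly u D (fun j => P.coeff j) (by
    intro h0
    apply hP
    ext j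
    rcases Nat.lt_or_ge j (D + 1) with h1 | h1
    · exact congrFun h0 ⟨j, h1⟩
    · rw [coeff_eq_zero_of_natDegree_lt (by omega), coeff_zero]) H (fun j => hH j) 1 le_rfl 0 (by norm_num)
  refine ⟨Q, h0, hd, fun k => (hc k).trans (le_of_eq (by push_cast; ring)), ?_⟩
  rw [hv, aeval_sum P D hPD]
  simp

lemma jointR_fract {u v : ℝ} (h : JointR u v) : JointR (Int.fract u) (Int.fract v) := by
  intro D
  obtain ⟨κ, C, hκ, hC, hj⟩ := h D
  obtain ⟨W, hW⟩ : ∃ W : ℝ, W = (D + 1) * (|u| + |v| + 3) ^ D := ⟨_, rfl⟩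
  have hu := abs_nonneg u
  have hv := abs_nonneg v
  have hW0 : 0 < W := by rw [hW]; positivity
  refine ⟨κ, C * W ^ (-κ), hκ, by positivity, fun P Q hP hQ hPD hQD H hPH hQH => ?_⟩
  have hH1 := one_le_of_coeff P hP H hPH
  have hH0 : 0 < H := by linarith
  obtain ⟨P', hP', hPd, hPc, hPv⟩ := translate u D P hP hPD H hPH
  obtain ⟨Q', hQ', hQd, hQc, hQv⟩ := translate v D Q hQ hQD H hQH
  have h1 := hj P' Q' hP' hQ' hPd hQd (W * H) (fun k => (hPc k).trans (by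
    rw [hW]
    calc (D + 1) * H * (|u| + 3) ^ D ≤ (D + 1) * H * (|u| + |v| + 3) ^ D :=
          mul_le_mul_of_nonneg_left (pow_le_pow_left₀ (by linarith) (by linarith) _) (by positivity)
      _ = _ := by ring)) (fun k => (hQc k).trans (by
    rw [hW]
    calc (D + 1) * H * (|v| + 3) ^ D ≤ (D + 1) * H * (|u| + |v| + 3) ^ D :=
          mul_le_mul_of_nonneg_left (pow_le_pow_left₀ (by linarith) (by linarith) _) (by positivity)
      _ = _ := by ring))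
  rw [hPv, hQv, Real.mul_rpow hW0.le hH0.le, ← mul_assoc] at h1
  exact h1

/-- **Two numbers with a joint measure.** -/
theorem simple_two (u v : ℝ) (huv : JointR u v) (r : ℕ) : ∃ A : ℝ, 1 ≤ A ∧
    ∀ (K K' : ℕ) (N N' X : ℝ), 0 ≤ N → 0 ≤ N' → Simple r K N X u → Simple r K' N' X v →
      X ≤ A ^ (K + K' + 1) * (N + N' + 1) :=
  simple_pair u v (jointR_fract huv) r

/-- algebraic numbers are simple -/
lemma simple_of_alg (y : ℝ) (r : ℕ) (h : ∃ P : ℤ[X], P ≠ 0 ∧ P.natDegree ≤ r ∧ aeval y P = 0) :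
    ∃ N : ℝ, 0 ≤ N ∧ ∀ (K : ℕ) (X : ℝ), Simple r K N X y := by
  obtain ⟨P, h0, hd, hP⟩ := h
  obtain ⟨f, hf⟩ : ∃ f : ℤ[X], f = P.comp (X + C ⌊y⌋) := ⟨_, rfl⟩
  have hf0 : f ≠ 0 := by
    intro h1
    rw [hf] at h1
    rcases comp_eq_zero_iff.1 h1 with h2 | h2
    · exact h0 h2
    · have h3 := h2.2
      have h4 : (X + C ⌊y⌋ : ℤ[X]).natDegree = 1 := natDegree_X_add_C _
      rw [h3, natDegree_C] at h4
      omega
  have hfd : f.natDegree ≤ r := by
    rw [hf, natDegree_comp, natDegree_X_add_C, mul_one]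
    exact hd
  have hfv : (aeval (Int.fract y) f : ℝ) = 0 := by
    rw [hf, aeval_comp, map_add, aeval_X, aeval_C]
    have : Int.fract y + (algebraMap ℤ ℝ) ⌊y⌋ = y := Int.fract_add_floor y
    rw [this, hP]
  obtain ⟨M, hM⟩ : ∃ M : ℝ, ∀ i, |((f.coeff i : ℤ) : ℝ)| ≤ M := by
    refine ⟨∑ i ∈ Finset.range (f.natDegree + 1), |((f.coeff i : ℤ) : ℝ)|, fun i => ?_⟩
    rcases Nat.lt_or_ge i (f.natDegree + 1) with h1 | h1
    · exact Finset.single_le_sum (f := fun i => |((f.coeff i : ℤ) : ℝ)|) (fun _ _ => abs_nonneg _)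
        (Finset.mem_range.2 h1)
    · rw [coeff_eq_zero_of_natDegree_lt (by omega), Int.cast_zero, abs_zero]
      exact Finset.sum_nonneg fun _ _ => abs_nonneg _
  have hM0 : 0 ≤ M := (abs_nonneg _).trans (hM 0)
  refine ⟨Real.log (M + 1), Real.log_nonneg (by linarith), fun K X => Or.inr (Or.inr ⟨f, hf0, hfd, fun i => ?_, ?_⟩)⟩
  · rw [Real.exp_log (by linarith)]
    linarith [hM i]
  · rw [hfv, abs_zero]
    exact (Real.exp_pos _).le

/-- **Finite families.** -/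
theorem simple_family {ι : Type} [Finite ι] (y : ι → ℝ) (hy : ∀ i j, i ≠ j → JointR (y i) (y j)) (r : ℕ) :
    ∃ A : ℝ, 1 ≤ A ∧ ∀ i j, i ≠ j → ∀ (K K' : ℕ) (N N' X : ℝ), 0 ≤ N → 0 ≤ N' →
      Simple r K N X (y i) → Simple r K' N' X (y j) → X ≤ A ^ (K + K' + 1) * (N + N' + 1) := by
  classical
  haveI := Fintype.ofFinite ι
  have h1 : ∀ p : ι × ι, ∃ A : ℝ, 1 ≤ A ∧ (p.1 ≠ p.2 → ∀ (K K' : ℕ) (N N' X : ℝ), 0 ≤ N → 0 ≤ N' →
      Simple r K N X (y p.1) → Simple r K' N' X (y p.2) → X ≤ A ^ (K + K' + 1) * (N + N' + 1)) := by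
    intro p
    by_cases hp : p.1 = p.2
    · exact ⟨1, le_rfl, fun h => absurd hp h⟩
    · obtain ⟨A, hA, h⟩ := simple_two (y p.1) (y p.2) (hy _ _ hp) r
      exact ⟨A, hA, fun _ => h⟩
  choose A hA h using h1
  have hA0 : ∀ p, 0 ≤ A p := fun p => by linarith [hA p]
  refine ⟨1 + ∑ p, A p, ?_, ?_⟩
  · have := Finset.sum_nonneg fun p (_ : p ∈ (Finset.univ : Finset (ι × ι))) => hA0 p
    linarith
  · intro i j hij K K' N N' X hN hN' hs hs'
    refine (h (i, j) hij K K' N N' X hN hN' hs hs').trans ?_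
    refine mul_le_mul_of_nonneg_right (pow_le_pow_left₀ (hA0 _) ?_ _) (by linarith)
    have := Finset.single_le_sum (fun p (_ : p ∈ (Finset.univ : Finset (ι × ι))) => hA0 p)
      (Finset.mem_univ (i, j))
    linarith

end Pool.Agent.Run7.h360.CF
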