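import Pool.Agent.Run7.h360.CF.Mob

/-!
# Powers with dependent exponents
-/

set_option autoImplicit false

namespace Pool.Agent.Run7.h360.CF

open Finset Polynomial Pool.Agent.R356 Pool.Agent.N743.SS Pool.Agent.R473.JC Pool.Agent.TH456.TM
  Pool.Agent.Run7.h168.Lin Pool.Agent.Run7.h168.Mult

/-- a nonzero integral power in the field -/
lemma not_trans_of_zpow (S : Set ℝ) (x : ℝ) (hx : x ≠ 0) (n : ℤ) (hn : n ≠ 0)
    (h : x ^ n ∈ IntermediateField.adjoin ℚ S) : ¬ Transcendental (IntermediateField.adjoin ℚ S) x := by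
  intro ht
  apply ht
  have h1 : x ^ n.natAbs ∈ IntermediateField.adjoin ℚ S := by
    rcases Int.natAbs_eq n with h2 | h2
    · rw [h2, zpow_natCast] at h; exact h
    · rw [h2, zpow_neg, zpow_natCast] at h
      have := inv_mem h
      rwa [inv_inv] at this
  have h2 : IsAlgebraic (IntermediateField.adjoin ℚ S) (x ^ n.natAbs) := by
    have := isAlgebraic_algebraMap (R := IntermediateField.adjoin ℚ S) (A := ℝ) ⟨_, h1⟩
    exact this
  exact h2.of_pow (Int.natAbs_pos.2 hn)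

lemma zpow_prod_mem {κ : Type} (S : Set ℝ) (J : Finset κ) (w : κ → ℝ) (c : κ → ℤ) (h : ∀ i ∈ J, w i ∈ S) :
    ∏ i ∈ J, w i ^ c i ∈ IntermediateField.adjoin ℚ S :=
  prod_mem fun i hi => zpow_mem (IntermediateField.subset_adjoin ℚ S (h i hi)) _

lemma rpow_sum_int {κ : Type} (J : Finset κ) (x : ℝ) (hx : 0 < x) (β : κ → ℝ) (c : κ → ℤ) (n : ℤ)
    (h : ∑ i ∈ J, (c i : ℝ) * β i = n) : ∏ i ∈ J, (x ^ β i) ^ c i = x ^ n := by
  have h1 : ∀ i, (x ^ β i) ^ c i = x ^ ((c i : ℝ) * β i) := by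
    intro i
    rw [← Real.rpow_intCast, ← Real.rpow_mul hx.le, mul_comm]
  simp only [h1]
  rw [← Real.rpow_sum_of_pos hx, h, Real.rpow_intCast]

/-- **Powers.** -/
theorem simple_powers {κ : Type} [Fintype κ] [DecidableEq κ] (x : ℝ) (hx : MeasT (x : ℂ)) (hx0 : 0 < x) (β : κ → ℝ)
    (r : ℕ) : ∃ A : ℝ, 1 ≤ A ∧
    ∀ (H : ℝ) (J : Finset κ) (y : κ → ℝ) (K : κ → ℕ) (N : κ → ℝ) (X : ℝ), 1 ≤ H →
      (∀ i ∈ J, Image H (x ^ β i) (y i) ∧ 0 ≤ N i ∧ Simple r (K i) (N i) X (y i)) →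
      A ^ (∑ i ∈ J, K i + 1) * (∑ i ∈ J, N i + Real.log H + 1) < X →
      ∀ (c : κ → ℤ) (n : ℤ), ∑ i ∈ J, (c i : ℝ) * β i = n → n = 0 := by
  obtain ⟨A, hA, h⟩ := simple_field x hx (fun i => x ^ β i) r
  refine ⟨A, hA, fun H J y K N X hH hs hX c n hc => ?_⟩
  by_contra hn
  refine not_trans_of_zpow _ x hx0.ne' n hn ?_ (h H J y K N X hH hs hX)
  rw [← rpow_sum_int J x hx0 β c n hc]
  exact zpow_prod_mem _ J _ c fun i hi => ⟨i, hi, rfl⟩

/-- the integers of absolute value at most `D` -/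
abbrev Box (D : ℕ) := Fin (2 * D + 1)

/-- the integer in the box -/
def Box.val {D : ℕ} (i : Box D) : ℤ := (i : ℕ) - D

lemma exists_box (D : ℕ) (i : ℤ) (h : |i| ≤ D) : ∃ a : Box D, a.val = i := by
  rw [abs_le] at h
  refine ⟨⟨(i + D).toNat, by omega⟩, ?_⟩
  show (((i + D).toNat : ℕ) : ℤ) - D = i
  omega

/-- **Monomials in two numbers.** Simple monomials of bounded degree are on a line, at every scale. -/
theorem simple_line (x : ℝ) (hx : MeasT (x : ℂ)) (z : ℝ) (hz : z ≠ 0) (D r : ℕ) : ∃ A : ℝ, 1 ≤ A ∧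
    ∀ (i j k l : ℤ), |i| ≤ D → |j| ≤ D → |k| ≤ D → |l| ≤ D → i * l - j * k ≠ 0 →
      ∀ (H y y' : ℝ) (K K' : ℕ) (N N' X : ℝ), 1 ≤ H → Image H (x ^ i * z ^ j) y → Image H (x ^ k * z ^ l) y' →
        0 ≤ N → 0 ≤ N' → Simple r K N X y → Simple r K' N' X y' →
        X ≤ A ^ (K + K' + 1) * (N + N' + Real.log H + 1) := by
  classical
  have hx0 : x ≠ 0 := by
    rintro rfl
    have h1 := transcendental_of_measT hx
    exact h1 isAlgebraic_zero
  obtain ⟨A, hA, h⟩ := simple_field x hx (fun p : Box D × Box D => x ^ p.1.val * z ^ p.2.val) r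
  refine ⟨A, hA, fun i j k l hi hj hk hl hdet H y y' K K' N N' X hH hy hy' hN hN' hs hs' => ?_⟩
  obtain ⟨a, rfl⟩ := exists_box D i hi
  obtain ⟨b, rfl⟩ := exists_box D j hj
  obtain ⟨c, rfl⟩ := exists_box D k hk
  obtain ⟨d, rfl⟩ := exists_box D l hl
  have hne : (a, b) ≠ (c, d) := by
    intro h1
    rw [Prod.mk.injEq] at h1
    obtain ⟨rfl, rfl⟩ := h1
    apply hdet
    ring
  by_contra hX
  rw [not_le] at hX
  have e1 : ∑ i ∈ ({(a, b), (c, d)} : Finset (Box D × Box D)), (if i = (a, b) then K else K') = K + K' := by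
    rw [Finset.sum_pair hne, if_pos rfl, if_neg hne.symm]
  have e2 : ∑ i ∈ ({(a, b), (c, d)} : Finset (Box D × Box D)), (if i = (a, b) then N else N') = N + N' := by
    rw [Finset.sum_pair hne, if_pos rfl, if_neg hne.symm]
  have h2 := h H {(a, b), (c, d)} (fun i => if i = (a, b) then y else y') (fun i => if i = (a, b) then K else K')
    (fun i => if i = (a, b) then N else N') X hH (by
      intro p hp
      rw [Finset.mem_insert, Finset.mem_singleton] at hp
      rcases hp with rfl | rfl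
      · simp only [if_true]
        exact ⟨hy, hN, hs⟩
      · simp only [hne.symm, if_false]
        exact ⟨hy', hN', hs'⟩) (by rw [e1, e2]; exact hX)
  refine not_trans_of_zpow _ x hx0 _ hdet ?_ h2
  have e3 : x ^ (a.val * d.val - b.val * c.val) =
      (x ^ a.val * z ^ b.val) ^ d.val * ((x ^ c.val * z ^ d.val) ^ b.val)⁻¹ := by
    rw [mul_zpow, mul_zpow, mul_inv, ← zpow_mul, ← zpow_mul, ← zpow_mul, ← zpow_mul, zpow_sub₀ hx0, mul_comm d.val b.val,
      mul_comm b.val c.val]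
    have h3 : z ^ (b.val * d.val) ≠ 0 := zpow_ne_zero _ hz
    field_simp
  rw [e3]
  refine mul_mem (zpow_mem (IntermediateField.subset_adjoin ℚ _ ?_) _)
    (inv_mem (zpow_mem (IntermediateField.subset_adjoin ℚ _ ?_) _))
  · exact ⟨(a, b), by simp, rfl⟩
  · exact ⟨(c, d), by simp, rfl⟩

/-- if one monomial is algebraic then the monomials with other directions are complicated -/
theorem simple_line_alg (x : ℝ) (hx : MeasT (x : ℂ)) (z : ℝ) (hz : z ≠ 0) (D r : ℕ) (k l : ℤ)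
    (hk : |k| ≤ D) (hl : |l| ≤ D) (halg : ∃ P : ℤ[X], P ≠ 0 ∧ P.natDegree ≤ r ∧ aeval (x ^ k * z ^ l) P = 0) :
    ∃ A : ℝ, 1 ≤ A ∧ ∀ i j : ℤ, |i| ≤ D → |j| ≤ D → i * l - j * k ≠ 0 →
      ∀ (H y : ℝ) (K : ℕ) (N X : ℝ), 1 ≤ H → Image H (x ^ i * z ^ j) y → 0 ≤ N → Simple r K N X y →
        X ≤ A ^ (K + 1) * (N + Real.log H + 1) := by
  obtain ⟨A, hA, h⟩ := simple_line x hx z hz D r
  obtain ⟨M, hM0, hM⟩ := simple_of_alg _ r halg
  obtain ⟨w, hw⟩ : ∃ w : ℝ, w = x ^ k * z ^ l := ⟨_, rfl⟩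
  obtain ⟨W, hW⟩ : ∃ W : ℝ, W = Real.log (|w| + 1) := ⟨_, rfl⟩
  have hw0 := abs_nonneg w
  have hW0 : 0 ≤ W := by rw [hW]; exact Real.log_nonneg (by linarith)
  refine ⟨A * (M + W + 1), by nlinarith, fun i j hi hj hd H y K N X hH hy hN hs => ?_⟩
  have hH' : H ≤ H * (|w| + 1) := by nlinarith
  have h1 : |w| + 1 ≤ H * (|w| + 1) := by nlinarith
  have himg : Image (H * (|w| + 1)) (x ^ i * z ^ j) y := by
    obtain ⟨h2, a, b, c, d, h3, h4, h5, h6, h7, h8⟩ := hy
    exact ⟨h2.trans hH', a, b, c, d, h3, h4.trans hH', h5.trans hH', h6.trans hH', h7.trans hH', h8⟩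
  have himg' : Image (H * (|w| + 1)) (x ^ k * z ^ l) (x ^ k * z ^ l) := by
    rw [← hw]
    refine ⟨by linarith, 1, 0, 0, 1, by norm_num, ?_, ?_, ?_, ?_, ?_⟩
    · push_cast; rw [abs_one]; linarith
    · push_cast; rw [abs_zero]; linarith
    · push_cast; rw [abs_zero]; linarith
    · push_cast; rw [abs_one]; linarith
    · push_cast; ring
  have h9 := h i j k l hi hj hk hl hd _ y _ K 0 N M X (hH.trans hH') himg himg' hN hM0 hs (hM 0 X)
  refine h9.trans ?_
  have hlog : Real.log (H * (|w| + 1)) = Real.log H + W := by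
    rw [hW, Real.log_mul (by linarith) (by linarith)]
  have hlH : 0 ≤ Real.log H := Real.log_nonneg hH
  rw [hlog, add_zero, mul_pow]
  have h2 : M + W + 1 ≤ (M + W + 1) ^ (K + 1) := le_self_pow₀ (by linarith) (by omega)
  rw [mul_assoc]
  refine mul_le_mul_of_nonneg_left ?_ (by positivity)
  have h3 : N + M + (Real.log H + W) + 1 ≤ (M + W + 1) * (N + Real.log H + 1) := by nlinarith
  exact h3.trans (mul_le_mul_of_nonneg_right h2 (by linarith))

/-- a uniform constant for finitely many tuples with a joint measure -/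
lemma simple_unif {κ ι : Type} [Fintype κ] [Fintype ι] (w : ι → κ → ℝ) (p : ι → Prop) (hw : ∀ a, p a → JointM (w a))
    (r : ℕ) : ∃ A : ℝ, 1 ≤ A ∧ ∀ a, p a → ∀ (H : ℝ) (y : κ → ℝ), 1 ≤ H → (∀ i, Image H (w a i) (y i)) →
      ∀ (K : κ → ℕ) (N : κ → ℝ) (X : ℝ), (∀ i, 0 ≤ N i) → (∀ i, Simple r (K i) (N i) X (y i)) →
      X ≤ A ^ (∑ i, K i + 1) * (∑ i, N i + Real.log H + 1) := by
  classical
  have h1 : ∀ a, ∃ A : ℝ, 1 ≤ A ∧ (p a → ∀ (H : ℝ) (y : κ → ℝ), 1 ≤ H → (∀ i, Image H (w a i) (y i)) →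
      ∀ (K : κ → ℕ) (N : κ → ℝ) (X : ℝ), (∀ i, 0 ≤ N i) → (∀ i, Simple r (K i) (N i) X (y i)) →
      X ≤ A ^ (∑ i, K i + 1) * (∑ i, N i + Real.log H + 1)) := by
    intro a
    by_cases ha : p a
    · obtain ⟨A, hA, h⟩ := simple_mob (w a) (hw a ha) r
      exact ⟨A, hA, fun _ => h⟩
    · exact ⟨1, le_rfl, fun h => absurd h ha⟩
  choose A hA h using h1
  have hA0 : ∀ a, 0 ≤ A a := fun a => by linarith [hA a]
  refine ⟨1 + ∑ a, A a, ?_, ?_⟩
  · have := Finset.sum_nonneg fun a (_ : a ∈ (Finset.univ : Finset ι)) => hA0 a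
    linarith
  · intro a ha H y hH hy K N X hN hs
    refine (h a ha H y hH hy K N X hN hs).trans ?_
    have hN0 : 0 ≤ ∑ i, N i := Finset.sum_nonneg fun i _ => hN i
    have hlH : 0 ≤ Real.log H := Real.log_nonneg hH
    refine mul_le_mul_of_nonneg_right (pow_le_pow_left₀ (hA0 _) ?_ _) (by linarith)
    have := Finset.single_le_sum (fun a (_ : a ∈ (Finset.univ : Finset ι)) => hA0 a) (Finset.mem_univ a)
    linarith

/-- **Monomials in several numbers.** -/
theorem simple_matrix (x : ℝ) (hx : MeasT (x : ℂ)) (n : ℕ) (z : Fin n → ℝ) (hz : ∀ j, z j ≠ 0) (D r : ℕ) :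
    ∃ A : ℝ, 1 ≤ A ∧ ∀ a : Matrix (Fin (n + 1)) (Fin (n + 1)) ℤ, (∀ i j, |a i j| ≤ D) → a.det ≠ 0 →
      ∀ (H : ℝ) (y : Fin (n + 1) → ℝ), 1 ≤ H →
      (∀ i, Image H (x ^ a i 0 * ∏ j : Fin n, z j ^ a i j.succ) (y i)) →
      ∀ (K : Fin (n + 1) → ℕ) (N : Fin (n + 1) → ℝ) (X : ℝ), (∀ i, 0 ≤ N i) →
      (∀ i, Simple r (K i) (N i) X (y i)) →
      X ≤ A ^ (∑ i, K i + 1) * (∑ i, N i + Real.log H + 1) := by
  classical
  have hx0 : x ≠ 0 := by
    rintro rfl
    have h1 := transcendental_of_measT hx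
    exact h1 isAlgebraic_zero
  obtain ⟨v, hv⟩ : ∃ v : Fin (n + 1) → ℝ, v = Fin.cons x z := ⟨_, rfl⟩
  have hv0 : ∀ j, v j ≠ 0 := by
    intro j
    rw [hv]
    refine Fin.cases ?_ (fun j => ?_) j
    · rw [Fin.cons_zero]; exact hx0
    · rw [Fin.cons_succ]; exact hz j
  obtain ⟨A, hA, h⟩ := simple_unif (κ := Fin (n + 1)) (ι := Fin (n + 1) → Fin (n + 1) → Box D)
    (fun a i => ∏ j, v j ^ (a i j).val)
    (fun a => (Matrix.of fun i j => (a i j).val : Matrix (Fin (n + 1)) (Fin (n + 1)) ℤ).det ≠ 0) (by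
      intro a ha
      obtain ⟨M, hM⟩ : ∃ M : Matrix (Fin (n + 1)) (Fin (n + 1)) ℤ, M = Matrix.of fun i j => (a i j).val := ⟨_, rfl⟩
      rw [← hM] at ha
      have hMij : ∀ i j, (a i j).val = M i j := fun i j => by rw [hM]; rfl
      simp only [hMij]
      refine jointM_of_field x hx _ ?_
      have h1 : ¬ Transcendental (IntermediateField.adjoin ℚ (Set.range fun i => ∏ j, v j ^ M i j)) x := by
        refine not_trans_of_zpow _ x hx0 M.det ha ?_
        have h2 : x ^ M.det = ∏ i, (∏ j, v j ^ M i j) ^ (M.adjugate 0 i) := by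
          have h3 : ∀ i, (∏ j, v j ^ M i j) ^ (M.adjugate 0 i) = ∏ j, v j ^ (M.adjugate 0 i * M i j) := by
            intro i
            rw [← Finset.prod_zpow]
            exact Finset.prod_congr rfl fun j _ => by rw [← zpow_mul, mul_comm]
          simp only [h3]
          rw [Finset.prod_comm]
          have h4 : ∀ j, ∏ i, v j ^ (M.adjugate 0 i * M i j) = v j ^ (∑ i, M.adjugate 0 i * M i j) := by
            intro j
            have : ∀ s : Finset (Fin (n + 1)), ∏ i ∈ s, v j ^ (M.adjugate 0 i * M i j) =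
                v j ^ (∑ i ∈ s, M.adjugate 0 i * M i j) := by
              intro s
              induction s using Finset.induction_on with
              | empty => simp
              | insert a s ha ih => rw [Finset.sum_insert ha, Finset.prod_insert ha, zpow_add₀ (hv0 j), ih]
            exact this _
          simp only [h4]
          have h5 : ∀ j, ∑ i, M.adjugate 0 i * M i j = if (0 : Fin (n + 1)) = j then M.det else 0 := by
            intro j
            have h6 := congrFun (congrFun M.adjugate_mul 0) j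
            rw [Matrix.mul_apply] at h6
            rw [h6, Matrix.smul_apply, Matrix.one_apply, smul_eq_mul, mul_ite, mul_one, mul_zero]
          simp only [h5]
          rw [Finset.prod_eq_single 0]
          · rw [if_pos rfl, hv, Fin.cons_zero]
          · intro j _ hj
            rw [if_neg hj.symm, zpow_zero]
          · intro h; exact absurd (Finset.mem_univ _) h
        rw [h2]
        exact zpow_prod_mem _ _ _ _ fun i _ => ⟨i, rfl⟩
      unfold Transcendental at h1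
      exact not_not.1 h1) r
  refine ⟨A, hA, fun a haD hdet H y hH hy K N X hN hs => ?_⟩
  choose b hb using fun i j => exists_box D (a i j) (haD i j)
  have hM : (Matrix.of fun i j => (b i j).val : Matrix (Fin (n + 1)) (Fin (n + 1)) ℤ) = a := by
    ext i j
    exact hb i j
  refine h b (by rw [hM]; exact hdet) H y hH (fun i => ?_) K N X hN hs
  have h2 := hy i
  have h3 : ∏ j, v j ^ (b i j).val = x ^ a i 0 * ∏ j : Fin n, z j ^ a i j.succ := by
    simp only [hb]
    rw [Fin.prod_univ_succ, hv, Fin.cons_zero]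
    simp only [Fin.cons_succ]
  rw [h3]
  exact h2

/-- Simple numbers stay simple when the price and the number of breaks are raised. -/
lemma Simple.mono {r K K' : ℕ} {N N' X y : ℝ} (h : Simple r K N X y) (hK : K ≤ K') (hN : N ≤ N') :
    Simple r K' N' X y := by
  rcases h with ⟨T, hT, h⟩ | ⟨b, k, L, hb, hk, hX, T, hT, h⟩ | ⟨P, h0, hd, hc, hv⟩
  · refine Or.inl ⟨T, hT.trans hK, fun u v huv hv ht => ?_⟩
    obtain ⟨r, s, hrs, h1, h2⟩ := h u v huv hv ht
    exact ⟨r, s, hrs, h1.trans (mul_le_mul_of_nonneg_right (Real.exp_le_exp.2 hN)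
      (zero_le_one.trans (one_le_den y u))), h2⟩
  · exact Or.inr (Or.inl ⟨b, k, L, hb, hk.trans hN, hX, T, hT.trans hK, h⟩)
  · exact Or.inr (Or.inr ⟨P, h0, hd, fun i => (hc i).trans (Real.exp_le_exp.2 hN), hv⟩)

end Pool.Agent.Run7.h360.CF
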