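import Pool.Agent.Run7.h360.CF.Span

/-!
# Simple values of polynomials in `x` and in arbitrary real numbers
-/

set_option autoImplicit false

namespace Pool.Agent.Run7.h360.CF

open Finset Pool.Agent.TH456.TM

/-- the exponents -/
noncomputable def ex {m D : ℕ} (s : Fin m → Fin (D + 1)) : Fin m →₀ ℕ :=
  Finsupp.equivFunOnFinite.symm fun i => (s i : ℕ)

lemma ex_apply {m D : ℕ} (s : Fin m → Fin (D + 1)) (i : Fin m) : ex s i = (s i : ℕ) := rfl

lemma ex_inj {m D : ℕ} : Function.Injective (ex : (Fin m → Fin (D + 1)) → Fin m →₀ ℕ) := by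
  intro s t h
  funext i
  exact Fin.ext (by rw [← ex_apply s, ← ex_apply t, h])

lemma le_of_support {m D : ℕ} {R : Type} [CommSemiring R] (P : MvPolynomial (Fin m) R) (hP : P.totalDegree ≤ D)
    (s : Fin m →₀ ℕ) (hs : P.coeff s ≠ 0) (i : Fin m) : s i ≤ D := by
  have h1 := MvPolynomial.le_totalDegree (MvPolynomial.mem_support_iff.2 hs)
  have h2 : s i ≤ s.sum fun _ e => e := by
    by_cases hi : i ∈ s.support
    · exact Finset.single_le_sum (f := fun i => s i) (fun _ _ => Nat.zero_le _) hi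
    · rw [Finsupp.notMem_support_iff] at hi
      rw [hi]; exact Nat.zero_le _
  omega

lemma aeval_box {m D : ℕ} (P : MvPolynomial (Fin m) ℤ) (hP : P.totalDegree ≤ D) (v : Fin m → ℝ) :
    (MvPolynomial.aeval v P : ℝ) = ∑ s : Fin m → Fin (D + 1), ((P.coeff (ex s) : ℤ) : ℝ) * ∏ i, v i ^ (s i : ℕ) := by
  classical
  rw [MvPolynomial.aeval_def, MvPolynomial.eval₂_eq']
  have h1 : P.support ⊆ Finset.univ.image (ex : (Fin m → Fin (D + 1)) → Fin m →₀ ℕ) := by
    intro s hs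
    rw [Finset.mem_image]
    refine ⟨fun i => ⟨s i, ?_⟩, Finset.mem_univ _, ?_⟩
    · have := le_of_support P hP s (MvPolynomial.mem_support_iff.1 hs) i
      omega
    · ext i
      rfl
  rw [Finset.sum_subset h1 fun s _ hs => ?_, Finset.sum_image fun s _ t _ h => ex_inj h]
  · exact Finset.sum_congr rfl fun s _ => rfl
  · rw [MvPolynomial.notMem_support_iff] at hs
    rw [hs, map_zero, zero_mul]

/-- the mixed monomials -/
abbrev Mix (n D : ℕ) := {p : Fin (D + 1) × (Fin n → Fin (D + 1)) // ¬ p.2 = 0}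

lemma sum_split {n D : ℕ} (f : (Fin (n + 1) → Fin (D + 1)) → ℝ) :
    ∑ s, f s = f 0 + ∑ k : Fin D, f (Fin.cons k.succ 0) + ∑ p : Mix n D, f (Fin.cons p.1.1 p.1.2) := by
  classical
  have h1 : ∑ s, f s = ∑ p : Fin (D + 1) × (Fin n → Fin (D + 1)), f (Fin.cons p.1 p.2) :=
    (Fintype.sum_equiv (Fin.consEquiv fun _ : Fin (n + 1) => Fin (D + 1)) _ _ fun p => rfl).symm
  rw [h1, ← Fintype.sum_subtype_add_sum_subtype (fun p : Fin (D + 1) × (Fin n → Fin (D + 1)) => p.2 = 0)]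
  congr 1
  have h2 : ∑ p : {p : Fin (D + 1) × (Fin n → Fin (D + 1)) // p.2 = 0}, f (Fin.cons p.1.1 p.1.2) =
      ∑ a : Fin (D + 1), f (Fin.cons a 0) := by
    refine Fintype.sum_equiv ⟨fun p => p.1.1, fun a => ⟨(a, 0), rfl⟩, fun p => ?_, fun a => rfl⟩ _ _ fun p => ?_
    · obtain ⟨⟨a, q⟩, hq⟩ := p
      simp only at hq
      subst hq
      rfl
    · show f (Fin.cons p.1.1 p.1.2) = f (Fin.cons p.1.1 0)
      rw [p.2]
  rw [h2, Fin.sum_univ_succ]
  congr 2
  funext i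
  refine Fin.cases ?_ (fun i => ?_) i
  · rfl
  · rfl

variable {n D : ℕ}

/-- the coordinates of a polynomial -/
noncomputable def co {R : Type} [CommSemiring R] {n' : ℕ} (e : Fin n' ≃ Mix n D) (P : MvPolynomial (Fin (n + 1)) R) :
    Fin D ⊕ Fin n' → R :=
  Sum.elim (fun k => P.coeff (ex (Fin.cons k.succ 0 : Fin (n + 1) → Fin (D + 1))))
    (fun j => P.coeff (ex (Fin.cons (e j).1.1 (e j).1.2 : Fin (n + 1) → Fin (D + 1))))

/-- the coordinates as a linear map -/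
noncomputable def coL {n' : ℕ} (e : Fin n' ≃ Mix n D) : MvPolynomial (Fin (n + 1)) ℚ →ₗ[ℚ] (Fin D ⊕ Fin n' → ℚ) where
  toFun := co e
  map_add' P Q := by
    ext i
    rcases i with i | i
    · exact MvPolynomial.coeff_add _ _ _
    · exact MvPolynomial.coeff_add _ _ _
  map_smul' c P := by
    ext i
    rcases i with i | i
    · exact MvPolynomial.coeff_smul _ _ _
    · exact MvPolynomial.coeff_smul _ _ _

lemma co_map {n' : ℕ} (e : Fin n' ≃ Mix n D) (P : MvPolynomial (Fin (n + 1)) ℤ) :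
    co e (MvPolynomial.map (Int.castRingHom ℚ) P) = qv (co e P) := by
  ext i
  rcases i with i | i
  · exact MvPolynomial.coeff_map _ _ _
  · exact MvPolynomial.coeff_map _ _ _

/-- **Simple values of polynomials.** -/
theorem simple_poly (x : ℝ) (hx : MeasT (x : ℂ)) (n D r : ℕ) : ∃ A : ℝ, 1 ≤ A ∧
    ∀ (t : Fin n → ℝ) (H : ℝ) (K : ℕ) (N X : ℝ), 1 ≤ H → 0 ≤ N → A ^ (K + 1) * (N + Real.log H + 1) < X →
      ∀ Q ∈ Submodule.span ℚ (MvPolynomial.map (Int.castRingHom ℚ) '' {P : MvPolynomial (Fin (n + 1)) ℤ |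
          P.totalDegree ≤ D ∧ (∀ s, |((P.coeff s : ℤ) : ℝ)| ≤ H) ∧ ∃ c m : ℤ, 1 ≤ m ∧ (m : ℝ) ≤ H ∧
          Simple r K N X ((MvPolynomial.aeval (Fin.cons x t : Fin (n + 1) → ℝ) P + c) / m)}),
        (∀ s, Q.coeff s ≠ 0 → ∀ j : Fin n, s j.succ = 0) → ∀ s, s ≠ 0 → Q.coeff s = 0 := by
  classical
  obtain ⟨n', hn'⟩ : ∃ n' : ℕ, n' = Fintype.card (Mix n D) := ⟨_, rfl⟩
  let e : Fin n' ≃ Mix n D := (Fintype.equivFinOfCardEq hn'.symm).symm
  obtain ⟨A, hA, h⟩ := simple_span x hx D n' r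
  refine ⟨A, hA, ?_⟩
  intro t H K N X hH hN hX Q hQ hQt
  obtain ⟨S, hS⟩ : ∃ S : Set (MvPolynomial (Fin (n + 1)) ℤ), S = {P : MvPolynomial (Fin (n + 1)) ℤ |
          P.totalDegree ≤ D ∧ (∀ s, |((P.coeff s : ℤ) : ℝ)| ≤ H) ∧ ∃ c m : ℤ, 1 ≤ m ∧ (m : ℝ) ≤ H ∧
          Simple r K N X ((MvPolynomial.aeval (Fin.cons x t : Fin (n + 1) → ℝ) P + c) / m)} := ⟨_, rfl⟩
  rw [← hS] at hQ
  have hdeg : Q.totalDegree ≤ D := by
    have h1 : Submodule.span ℚ (MvPolynomial.map (Int.castRingHom ℚ) '' S) ≤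
        MvPolynomial.restrictTotalDegree (Fin (n + 1)) ℚ D := by
      rw [Submodule.span_le]
      rintro _ ⟨P, hP, rfl⟩
      rw [hS] at hP
      rw [SetLike.mem_coe, MvPolynomial.mem_restrictTotalDegree]
      refine le_trans ?_ hP.1
      refine Finset.sup_mono fun d hd => ?_
      rw [MvPolynomial.mem_support_iff] at hd ⊢
      intro h0
      apply hd
      rw [MvPolynomial.coeff_map, h0, map_zero]
    exact (MvPolynomial.mem_restrictTotalDegree _ _ _).1 (h1 hQ)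
  have h0 := h (fun j => x ^ ((e j).1.1 : ℕ) * ∏ i : Fin n, t i ^ ((e j).1.2 i : ℕ)) H K N X hH hN hX (co e Q) (by
    have h1 : coL e Q ∈ (Submodule.span ℚ (MvPolynomial.map (Int.castRingHom ℚ) '' S)).map (coL e) :=
      Submodule.mem_map_of_mem hQ
    rw [Submodule.map_span] at h1
    refine Submodule.span_mono ?_ h1
    rintro _ ⟨_, ⟨P, hP, rfl⟩, rfl⟩
    rw [hS] at hP
    obtain ⟨hP1, hP2, c, m, hm1, hm2, hs⟩ := hP
    refine ⟨co e P, ⟨fun i => ?_, P.coeff 0 + c, m, hm1, hm2, ?_⟩, (co_map e P).symm⟩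
    · rcases i with i | i
      · exact hP2 _
      · exact hP2 _
    · have h2 : (MvPolynomial.aeval (Fin.cons x t : Fin (n + 1) → ℝ) P : ℝ) =
          (P.coeff 0 : ℤ) + ∑ k : Fin D, ((co e P (Sum.inl k) : ℤ) : ℝ) * x ^ ((k : ℕ) + 1) +
          ∑ j : Fin n', ((co e P (Sum.inr j) : ℤ) : ℝ) * (x ^ ((e j).1.1 : ℕ) * ∏ i : Fin n, t i ^ ((e j).1.2 i : ℕ)) := by
        rw [aeval_box P hP1, sum_split]
        congr 1
        · congr 1
          · have e1 : ex (0 : Fin (n + 1) → Fin (D + 1)) = 0 := by ext i; rfl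
            rw [e1]
            simp
          · refine Finset.sum_congr rfl fun k _ => ?_
            rw [Fin.prod_univ_succ]
            simp only [Fin.cons_zero, Fin.cons_succ, Fin.val_succ]
            show _ = ((P.coeff (ex (Fin.cons k.succ 0 : Fin (n + 1) → Fin (D + 1))) : ℤ) : ℝ) * _
            simp
        · have h3 : ∀ j : Fin n', ((co e P (Sum.inr j) : ℤ) : ℝ) *
              (x ^ ((e j).1.1 : ℕ) * ∏ i : Fin n, t i ^ ((e j).1.2 i : ℕ)) =
              (fun p : Mix n D => ((P.coeff (ex (Fin.cons p.1.1 p.1.2 : Fin (n + 1) → Fin (D + 1))) : ℤ) : ℝ) *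
                (x ^ (p.1.1 : ℕ) * ∏ i : Fin n, t i ^ (p.1.2 i : ℕ))) (e j) := fun j => rfl
          rw [Finset.sum_congr rfl fun j _ => h3 j, Equiv.sum_comp e (fun p : Mix n D =>
            ((P.coeff (ex (Fin.cons p.1.1 p.1.2 : Fin (n + 1) → Fin (D + 1))) : ℤ) : ℝ) *
                (x ^ (p.1.1 : ℕ) * ∏ i : Fin n, t i ^ (p.1.2 i : ℕ)))]
          refine Finset.sum_congr rfl fun p _ => ?_
          rw [Fin.prod_univ_succ]
          simp only [Fin.cons_zero, Fin.cons_succ]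
      have h4 : (∑ k : Fin D, ((co e P (Sum.inl k) : ℤ) : ℝ) * x ^ ((k : ℕ) + 1) +
          ∑ j : Fin n', ((co e P (Sum.inr j) : ℤ) : ℝ) * (x ^ ((e j).1.1 : ℕ) * ∏ i : Fin n, t i ^ ((e j).1.2 i : ℕ)) +
          ((P.coeff 0 + c : ℤ) : ℝ)) = MvPolynomial.aeval (Fin.cons x t : Fin (n + 1) → ℝ) P + c := by
        rw [h2]
        push_cast
        ring
      rw [h4]
      exact hs) (by
    intro j
    by_contra hne
    have h1 := hQt (ex (Fin.cons (e j).1.1 (e j).1.2 : Fin (n + 1) → Fin (D + 1))) hne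
    apply (e j).2
    funext i
    have h2 := h1 i
    rw [ex_apply, Fin.cons_succ] at h2
    exact Fin.ext h2)
  intro s hs
  by_contra hne
  have hs' := hQt s hne
  have hsD := le_of_support Q hdeg s hne 0
  have hs0 : s 0 ≠ 0 := by
    intro h1
    apply hs
    ext i
    refine Fin.cases ?_ (fun i => ?_) i
    · exact h1
    · exact hs' i
  have h1 := congrFun h0 (Sum.inl ⟨s 0 - 1, by omega⟩)
  apply hne
  have h2 : s = ex (Fin.cons (⟨s 0 - 1, by omega⟩ : Fin D).succ 0 : Fin (n + 1) → Fin (D + 1)) := by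
    ext i
    refine Fin.cases ?_ (fun i => ?_) i
    · rw [ex_apply, Fin.cons_zero, Fin.val_succ]
      show s 0 = s 0 - 1 + 1
      omega
    · rw [ex_apply, Fin.cons_succ]
      exact hs' i
  rw [h2]
  exact h1

end Pool.Agent.Run7.h360.CF
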