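import Pool.Agent.Run7.h360.CF.Rel

/-!
# Monomials in `x` and in an arbitrary number `z`, uniformly in `z`
-/

set_option autoImplicit false

namespace Pool.Agent.Run7.h360.CF

open Finset Polynomial Pool.Agent.R356 Pool.Agent.N743.SS Pool.Agent.R473.JC Pool.Agent.TH456.TM
  Pool.Agent.Run7.h168.Lin Pool.Agent.Run7.h168.Mult Pool.Agent.Run7.h168.Uni

lemma abs_zpow_le (z H : ℝ) (hH : 1 ≤ H) (h1 : 1 ≤ H * |z|) (h2 : |z| ≤ H) (D : ℕ) (j : ℤ) (hj : |j| ≤ D) :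
    |z ^ j| ≤ H ^ D := by
  have hH0 : 0 < H := by linarith
  have hz : 0 < |z| := by
    by_contra h
    have : |z| = 0 := le_antisymm (not_lt.1 h) (abs_nonneg _)
    rw [this, mul_zero] at h1
    linarith
  rw [abs_zpow]
  rcases le_total 0 j with hj0 | hj0
  · obtain ⟨n, rfl⟩ := Int.eq_ofNat_of_zero_le hj0
    rw [abs_of_nonneg hj0] at hj
    have hn : n ≤ D := by exact_mod_cast hj
    rw [zpow_natCast]
    exact (pow_le_pow_left₀ (abs_nonneg _) h2 n).trans (pow_le_pow_right₀ hH hn)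
  · obtain ⟨n, hn⟩ := Int.eq_ofNat_of_zero_le (neg_nonneg.2 hj0)
    have hj' : j = -(n : ℤ) := by omega
    have hnD : n ≤ D := by rw [abs_of_nonpos hj0, hn] at hj; exact_mod_cast hj
    rw [hj', zpow_neg, zpow_natCast, ← inv_pow]
    have h3 : |z|⁻¹ ≤ H := by
      rw [inv_le_comm₀ hz hH0, inv_eq_one_div, div_le_iff₀ hH0]
      linarith
    exact (pow_le_pow_left₀ (by positivity) h3 n).trans (pow_le_pow_right₀ hH hnD)

/-- the relation `u^p v^q = x^n u^p' v^q'` -/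
lemma binom_rel (x u v : ℝ) (E : ℕ) (p q p' q' n : Fin (E + 1)) (hn : (n : ℕ) ≠ 0)
    (h : u ^ (p : ℕ) * v ^ (q : ℕ) = x ^ (n : ℕ) * (u ^ (p' : ℕ) * v ^ (q' : ℕ))) (H : ℝ)
    (hH : 1 ≤ H * |u ^ (p' : ℕ) * v ^ (q' : ℕ)|) :
    ∃ c : (Fin 2 → Fin (E + 1)) → Fin (E + 1) → ℤ, (∀ s k, |(c s k : ℝ)| ≤ 2) ∧
      ∑ s, (∑ k, (c s k : ℝ) * x ^ (k : ℕ)) * ∏ i, (![u, v] i) ^ (s i : ℕ) = 0 ∧
      ∃ k, 1 ≤ H * |∑ s, (c s k : ℝ) * ∏ i, (![u, v] i) ^ (s i : ℕ)| := by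
  classical
  obtain ⟨s₁, hs₁⟩ : ∃ s₁ : Fin 2 → Fin (E + 1), s₁ = ![p, q] := ⟨_, rfl⟩
  obtain ⟨s₂, hs₂⟩ : ∃ s₂ : Fin 2 → Fin (E + 1), s₂ = ![p', q'] := ⟨_, rfl⟩
  have hn0 : n ≠ 0 := fun h => hn (by rw [h]; rfl)
  have hp1 : ∏ i, (![u, v] i) ^ (s₁ i : ℕ) = u ^ (p : ℕ) * v ^ (q : ℕ) := by
    rw [hs₁, Fin.prod_univ_two]; rfl
  have hp2 : ∏ i, (![u, v] i) ^ (s₂ i : ℕ) = u ^ (p' : ℕ) * v ^ (q' : ℕ) := by
    rw [hs₂, Fin.prod_univ_two]; rfl
  refine ⟨fun s k => (if s = s₁ ∧ k = 0 then 1 else 0) - (if s = s₂ ∧ k = n then 1 else 0), fun s k => ?_, ?_, n, ?_⟩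
  · push_cast
    split_ifs <;> norm_num
  · push_cast
    have h1 : ∀ s : Fin 2 → Fin (E + 1), ∑ k : Fin (E + 1), (((if s = s₁ ∧ k = 0 then (1 : ℝ) else 0) -
        (if s = s₂ ∧ k = n then (1 : ℝ) else 0)) * x ^ (k : ℕ)) =
        (if s = s₁ then 1 else 0) - (if s = s₂ then x ^ (n : ℕ) else 0) := by
      intro s
      simp only [sub_mul, Finset.sum_sub_distrib]
      congr 1
      · by_cases h : s = s₁
        · simp [h]
        · simp [h]
      · by_cases h : s = s₂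
        · simp [h]
        · simp [h]
    simp only [h1]
    simp only [sub_mul, Finset.sum_sub_distrib, ite_mul, zero_mul, one_mul]
    rw [Finset.sum_ite_eq' Finset.univ s₁, Finset.sum_ite_eq' Finset.univ s₂, if_pos (Finset.mem_univ _),
      if_pos (Finset.mem_univ _), hp1, hp2, h]
    ring
  · have h2 : ∑ s : Fin 2 → Fin (E + 1), (((if s = s₁ ∧ n = 0 then (1 : ℤ) else 0) -
        (if s = s₂ ∧ n = n then 1 else 0) : ℤ) : ℝ) * ∏ i, (![u, v] i) ^ (s i : ℕ) =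
        -(u ^ (p' : ℕ) * v ^ (q' : ℕ)) := by
      rw [← hp2]
      push_cast
      simp only [hn0, and_false, if_false, and_true, zero_sub, neg_mul, ite_mul, one_mul, zero_mul,
        Finset.sum_neg_distrib]
      rw [Finset.sum_ite_eq' Finset.univ s₂, if_pos (Finset.mem_univ _)]
    rw [h2, abs_neg]
    exact hH

lemma toNat_sub (a : ℤ) : ((a.toNat : ℕ) : ℤ) - ((-a).toNat : ℕ) = a := by omega

/-- **Monomials, uniformly in `z`.** -/
theorem simple_line_unif (x : ℝ) (hx : MeasT (x : ℂ)) (D r : ℕ) : ∃ A : ℝ, 1 ≤ A ∧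
    ∀ (z H : ℝ), 1 ≤ H → 1 ≤ H * |z| → |z| ≤ H →
    ∀ (i j k l : ℤ), |i| ≤ D → |j| ≤ D → |k| ≤ D → |l| ≤ D → i * l - j * k ≠ 0 →
      ∀ (y y' : ℝ) (K K' : ℕ) (N N' X : ℝ), Image H (x ^ i * z ^ j) y → Image H (x ^ k * z ^ l) y' →
        0 ≤ N → 0 ≤ N' → Simple r K N X y → Simple r K' N' X y' →
        X ≤ A ^ (K + K' + 1) * (N + N' + Real.log H + 1) := by
  classical
  have hx0 : x ≠ 0 := by
    rintro rfl
    have h1 := transcendental_of_measT hx
    exact h1 isAlgebraic_zero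
  obtain ⟨E, hE⟩ : ∃ E : ℕ, E = 2 * D * D + D := ⟨_, rfl⟩
  obtain ⟨A, hA, h⟩ := simple_rel x hx 2 E r
  obtain ⟨W, hW⟩ : ∃ W : ℝ, W = max |x| |x|⁻¹ := ⟨_, rfl⟩
  have hW1 : 1 ≤ W := by
    rw [hW]
    rcases le_total 1 |x| with h1 | h1
    · exact h1.trans (le_max_left _ _)
    · exact ((one_le_inv₀ (abs_pos.2 hx0)).2 h1).trans (le_max_right _ _)
  have hWx : |x| ≤ W := by rw [hW]; exact le_max_left _ _
  have hWx' : 1 ≤ W * |x| := by
    have h1 : |x|⁻¹ ≤ W := by rw [hW]; exact le_max_right _ _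
    calc 1 = |x|⁻¹ * |x| := (inv_mul_cancel₀ (abs_pos.2 hx0).ne').symm
      _ ≤ W * |x| := mul_le_mul_of_nonneg_right h1 (abs_nonneg _)
  -- the height
  obtain ⟨G, hG⟩ : ∃ G : ℝ, G = 1 + Real.log 2 + (2 * D * E + 1 : ℕ) * (Real.log W + 1) := ⟨_, rfl⟩
  have hlW : 0 ≤ Real.log W := Real.log_nonneg hW1
  have hl2 : 0 ≤ Real.log 2 := Real.log_nonneg (by norm_num)
  have hG1 : 1 ≤ G := by rw [hG]; have : 0 ≤ ((2 * D * E + 1 : ℕ) : ℝ) * (Real.log W + 1) := by positivity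
                         linarith
  refine ⟨G * A, one_le_mul_of_one_le_of_one_le hG1 hA, ?_⟩
  intro z H hH hz1 hz2 i j k l hi hj hk hl hdet y y' K K' N N' X hy hy' hN hN' hs hs'
  have hH0 : 0 < H := by linarith
  have hz0 : z ≠ 0 := by
    rintro rfl
    rw [abs_zero, mul_zero] at hz1
    linarith
  obtain ⟨V, hV⟩ : ∃ V : ℝ, V = W * H := ⟨_, rfl⟩
  have hV1 : 1 ≤ V := by rw [hV]; exact one_le_mul_of_one_le_of_one_le hW1 hH
  have hHV : H ≤ V := by rw [hV]; exact le_mul_of_one_le_left hH0.le hW1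
  have hmon : ∀ i j : ℤ, |i| ≤ D → |j| ≤ D → |x ^ i * z ^ j| ≤ V ^ D := by
    intro i j hi hj
    rw [abs_mul, hV, mul_pow]
    exact mul_le_mul (abs_zpow_le x W hW1 hWx' hWx D i hi) (abs_zpow_le z H hH hz1 hz2 D j hj) (abs_nonneg _)
      (by positivity)
  obtain ⟨u, hu⟩ : ∃ u : ℝ, u = x ^ i * z ^ j := ⟨_, rfl⟩
  obtain ⟨v, hv⟩ : ∃ v : ℝ, v = x ^ k * z ^ l := ⟨_, rfl⟩
  have hu0 : u ≠ 0 := by rw [hu]; exact mul_ne_zero (zpow_ne_zero _ hx0) (zpow_ne_zero _ hz0)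
  have hv0 : v ≠ 0 := by rw [hv]; exact mul_ne_zero (zpow_ne_zero _ hx0) (zpow_ne_zero _ hz0)
  have huV : |u| ≤ V ^ D := by rw [hu]; exact hmon i j hi hj
  have hvV : |v| ≤ V ^ D := by rw [hv]; exact hmon k l hk hl
  have huV' : 1 ≤ V ^ D * |u| := by
    have h1 : |u⁻¹| ≤ V ^ D := by
      have e1 : u⁻¹ = x ^ (-i) * z ^ (-j) := by rw [hu, mul_inv, zpow_neg, zpow_neg]
      rw [e1]
      exact hmon _ _ (by rwa [abs_neg]) (by rwa [abs_neg])
    rw [abs_inv] at h1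
    calc 1 = |u|⁻¹ * |u| := (inv_mul_cancel₀ (abs_pos.2 hu0).ne').symm
      _ ≤ _ := mul_le_mul_of_nonneg_right h1 (abs_nonneg _)
  have hvV' : 1 ≤ V ^ D * |v| := by
    have h1 : |v⁻¹| ≤ V ^ D := by
      have e1 : v⁻¹ = x ^ (-k) * z ^ (-l) := by rw [hv, mul_inv, zpow_neg, zpow_neg]
      rw [e1]
      exact hmon _ _ (by rwa [abs_neg]) (by rwa [abs_neg])
    rw [abs_inv] at h1
    calc 1 = |v|⁻¹ * |v| := (inv_mul_cancel₀ (abs_pos.2 hv0).ne').symm
      _ ≤ _ := mul_le_mul_of_nonneg_right h1 (abs_nonneg _)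
  -- the relation
  obtain ⟨σ, hσ⟩ : ∃ σ : ℤ, (σ = 1 ∨ σ = -1) ∧ 0 < σ * (i * l - j * k) := by
    rcases lt_or_gt_of_ne hdet with h1 | h1
    · exact ⟨-1, Or.inr rfl, by linarith⟩
    · exact ⟨1, Or.inl rfl, by linarith⟩
  obtain ⟨α, hα⟩ : ∃ α : ℤ, α = σ * l := ⟨_, rfl⟩
  obtain ⟨β, hβ⟩ : ∃ β : ℤ, β = -(σ * j) := ⟨_, rfl⟩
  obtain ⟨n, hn⟩ : ∃ n : ℕ, (n : ℤ) = σ * (i * l - j * k) := ⟨(σ * (i * l - j * k)).toNat, by omega⟩
  have hσ1 : |σ| = 1 := by rcases hσ.1 with rfl | rfl <;> simp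
  have hαD : |α| ≤ D := by rw [hα, abs_mul, hσ1, one_mul]; exact hl
  have hβD : |β| ≤ D := by rw [hβ, abs_neg, abs_mul, hσ1, one_mul]; exact hj
  have hnE : n ≤ E := by
    have h1 : (n : ℤ) ≤ 2 * D * D := by
      rw [hn]
      calc σ * (i * l - j * k) ≤ |σ * (i * l - j * k)| := le_abs_self _
        _ = |i * l - j * k| := by rw [abs_mul, hσ1, one_mul]
        _ ≤ |i * l| + |j * k| := abs_sub _ _
        _ ≤ D * D + D * D := by
          rw [abs_mul, abs_mul]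
          exact add_le_add (mul_le_mul hi hl (abs_nonneg _) (by positivity))
            (mul_le_mul hj hk (abs_nonneg _) (by positivity))
        _ = 2 * D * D := by ring
    have h2 : n ≤ 2 * D * D := by exact_mod_cast h1
    omega
  have hval : u ^ α * v ^ β = x ^ n := by
    have e1 : x ^ n = x ^ ((n : ℕ) : ℤ) := (zpow_natCast x n).symm
    rw [e1, hn, hu, hv, mul_zpow, mul_zpow, ← zpow_mul, ← zpow_mul, ← zpow_mul, ← zpow_mul, hα, hβ]
    have e2 : σ * (i * l - j * k) = i * (σ * l) + k * (-(σ * j)) := by ring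
    rw [e2, zpow_add₀ hx0]
    have e3 : z ^ (j * (σ * l)) * z ^ (l * (-(σ * j))) = 1 := by
      rw [← zpow_add₀ hz0]
      have : j * (σ * l) + l * (-(σ * j)) = 0 := by ring
      rw [this, zpow_zero]
    calc x ^ (i * (σ * l)) * z ^ (j * (σ * l)) * (x ^ (k * (-(σ * j))) * z ^ (l * (-(σ * j))))
        = x ^ (i * (σ * l)) * x ^ (k * (-(σ * j))) * (z ^ (j * (σ * l)) * z ^ (l * (-(σ * j)))) := by ring
      _ = _ := by rw [e3, mul_one]
  have hsplit : ∀ (t : ℝ) (ht : t ≠ 0) (a : ℤ), t ^ a = t ^ (a.toNat) / t ^ ((-a).toNat) := by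
    intro t ht a
    conv_lhs => rw [← toNat_sub a]
    rw [zpow_sub₀ ht, zpow_natCast, zpow_natCast]
  have hrel : u ^ α.toNat * v ^ β.toNat = x ^ n * (u ^ (-α).toNat * v ^ (-β).toNat) := by
    rw [hsplit u hu0 α, hsplit v hv0 β] at hval
    have h1 : u ^ (-α).toNat ≠ 0 := pow_ne_zero _ hu0
    have h2 : v ^ (-β).toNat ≠ 0 := pow_ne_zero _ hv0
    field_simp at hval
    rw [hval]
    ring
  have hDE : D ≤ E := by rw [hE]; omega
  have hαE : α.toNat < E + 1 ∧ (-α).toNat < E + 1 := by rw [abs_le] at hαD; omega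
  have hβE : β.toNat < E + 1 ∧ (-β).toNat < E + 1 := by rw [abs_le] at hβD; omega
  obtain ⟨H', hH'⟩ : ∃ H' : ℝ, H' = 2 * V ^ (2 * D * E + 1) := ⟨_, rfl⟩
  have hVp : 1 ≤ V ^ (2 * D * E + 1) := one_le_pow₀ hV1
  have hH'1 : 1 ≤ H' := by rw [hH']; linarith
  have hVD : 1 ≤ V ^ D := one_le_pow₀ hV1
  have hlow : 1 ≤ H' * |u ^ (-α).toNat * v ^ (-β).toNat| := by
    have h1 : ∀ (t : ℝ) (ht : 1 ≤ V ^ D * |t|) (a : ℕ), a < E + 1 → 1 ≤ V ^ (D * E) * |t| ^ a := by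
      intro t ht a ha
      have h2 : 1 ≤ (V ^ D * |t|) ^ a := one_le_pow₀ ht
      rw [mul_pow, ← pow_mul] at h2
      refine h2.trans (mul_le_mul_of_nonneg_right (pow_le_pow_right₀ hV1 ?_) (by positivity))
      exact Nat.mul_le_mul_left D (by omega)
    have h2 := h1 u huV' _ hαE.2
    have h3 := h1 v hvV' _ hβE.2
    rw [abs_mul, abs_pow, abs_pow]
    have h4 : V ^ (D * E) * V ^ (D * E) ≤ H' := by
      rw [← pow_add, hH']
      have : V ^ (D * E + D * E) ≤ V ^ (2 * D * E + 1) := pow_le_pow_right₀ hV1 (by nlinarith)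
      linarith
    calc (1 : ℝ) ≤ (V ^ (D * E) * |u| ^ (-α).toNat) * (V ^ (D * E) * |v| ^ (-β).toNat) :=
          one_le_mul_of_one_le_of_one_le h2 h3
      _ = (V ^ (D * E) * V ^ (D * E)) * (|u| ^ (-α).toNat * |v| ^ (-β).toNat) := by ring
      _ ≤ H' * (|u| ^ (-α).toNat * |v| ^ (-β).toNat) := mul_le_mul_of_nonneg_right h4 (by positivity)
  have hn0 : n ≠ 0 := by
    rintro rfl
    have := hσ.2
    rw [← hn] at this
    simp at this
  obtain ⟨c, hc1, hc2, hc3⟩ := binom_rel x u v E ⟨α.toNat, hαE.1⟩ ⟨β.toNat, hβE.1⟩ ⟨(-α).toNat, hαE.2⟩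
    ⟨(-β).toNat, hβE.2⟩ ⟨n, by omega⟩ hn0 hrel H' hlow
  have hVDH : V ^ D ≤ H' := by
    rw [hH']
    rcases Nat.eq_zero_or_pos D with hD0 | hD0
    · subst hD0
      simp only [pow_zero]
      linarith
    · have h1 : D ≤ 2 * D * E + 1 := by
        have : 1 ≤ E := by omega
        nlinarith
      have := pow_le_pow_right₀ hV1 h1
      linarith
  have hHH' : H ≤ H' := by
    rw [hH']
    have : V ≤ V ^ (2 * D * E + 1) := le_self_pow₀ hV1 (by omega)
    linarith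
  have himg : ∀ w y : ℝ, Image H w y → Image H' w y := by
    rintro w y ⟨h2, a, b, c, d, h3, h4, h5, h6, h7, h8⟩
    exact ⟨h2.trans hHH', a, b, c, d, h3, h4.trans hHH', h5.trans hHH', h6.trans hHH', h7.trans hHH', h8⟩
  have hfin := h c ![u, v] H' hH'1 (fun s k => (hc1 s k).trans (by rw [hH']; linarith))
    (by
      intro i
      fin_cases i
      · exact huV.trans hVDH
      · exact hvV.trans hVDH) hc2 hc3 ![y, y'] (by
      intro i
      fin_cases i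
      · show Image H' u y
        rw [hu]; exact himg _ _ hy
      · show Image H' v y'
        rw [hv]; exact himg _ _ hy') ![K, K'] ![N, N'] X (by
      intro i
      fin_cases i
      · exact hN
      · exact hN') (by
      intro i
      fin_cases i
      · exact hs
      · exact hs')
  simp only [Fin.sum_univ_two, Matrix.cons_val_zero, Matrix.cons_val_one] at hfin
  refine hfin.trans ?_
  have hlH : 0 ≤ Real.log H := Real.log_nonneg hH
  have hlog : Real.log H' = Real.log 2 + (2 * D * E + 1 : ℕ) * (Real.log W + Real.log H) := by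
    rw [hH', Real.log_mul (by norm_num) (by positivity), Real.log_pow, hV, Real.log_mul (by positivity) hH0.ne']
  have h5 : N + N' + Real.log H' + 1 ≤ G * (N + N' + Real.log H + 1) := by
    rw [hlog, hG]
    have hT : (0 : ℝ) ≤ ((2 * D * E + 1 : ℕ) : ℝ) := Nat.cast_nonneg _
    have e1 : 0 ≤ Real.log 2 * (N + N' + Real.log H) := by positivity
    have e2 : 0 ≤ ((2 * D * E + 1 : ℕ) : ℝ) * Real.log W * (N + N' + Real.log H) := by positivity
    have e3 : 0 ≤ ((2 * D * E + 1 : ℕ) : ℝ) * (N + N' + 1) := by positivity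
    nlinarith
  have h6 : G * A ^ (K + K' + 1) ≤ (G * A) ^ (K + K' + 1) := by
    rw [mul_pow]
    exact mul_le_mul_of_nonneg_right (le_self_pow₀ hG1 (by omega)) (by positivity)
  calc A ^ (K + K' + 1) * (N + N' + Real.log H' + 1)
      ≤ A ^ (K + K' + 1) * (G * (N + N' + Real.log H + 1)) :=
        mul_le_mul_of_nonneg_left h5 (by positivity)
    _ = G * A ^ (K + K' + 1) * (N + N' + Real.log H + 1) := by ring
    _ ≤ _ := mul_le_mul_of_nonneg_right h6 (by linarith)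

/-- rational numbers are simple -/
lemma simple_of_rat (p q : ℤ) (hq : 1 ≤ q) (H : ℝ) (hqH : (q : ℝ) ≤ H) (r : ℕ) (hr : 1 ≤ r) (K : ℕ) (Y : ℝ) :
    Simple r K (Real.log H) Y ((p : ℝ) / q) := by
  have hq1 : (1 : ℝ) ≤ q := by exact_mod_cast hq
  have hq0 : (q : ℝ) ≠ 0 := by linarith
  have hH0 : 0 < H := by linarith
  obtain ⟨m, hm⟩ : ∃ m : ℤ, m = p - q * ⌊(p : ℝ) / q⌋ := ⟨_, rfl⟩
  have hfr : (q : ℝ) * Int.fract ((p : ℝ) / q) = m := by
    have h1 : Int.fract ((p : ℝ) / q) = (p : ℝ) / q - ⌊(p : ℝ) / q⌋ := rfl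
    rw [h1, hm]
    push_cast
    field_simp
  have hmb : |(m : ℝ)| ≤ q := by
    have h2 := Int.fract_nonneg ((p : ℝ) / q)
    have h3 := (Int.fract_lt_one ((p : ℝ) / q)).le
    rw [← hfr, abs_of_nonneg (mul_nonneg (by linarith) h2)]
    nlinarith
  refine Or.inr (Or.inr ⟨C q * (Polynomial.X : ℤ[X]) - C m, ?_, ?_, fun i => ?_, ?_⟩)
  · intro h0
    have h1 := congrArg (fun P : ℤ[X] => P.coeff 1) h0
    simp only [coeff_sub, coeff_C_mul, coeff_X_one, coeff_C_succ, coeff_zero, mul_one, sub_zero] at h1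
    omega
  · refine (natDegree_sub_le _ _).trans ?_
    rw [natDegree_C]
    refine max_le ((natDegree_C_mul_le _ _).trans (natDegree_X_le.trans hr)) (Nat.zero_le _)
  · rw [Real.exp_log hH0, coeff_sub, coeff_C_mul, coeff_X, coeff_C]
    have hqa : |(q : ℝ)| ≤ H := by rw [abs_of_pos (by linarith)]; exact hqH
    rcases Nat.eq_zero_or_pos i with hi | hi
    · subst hi
      simp only [one_ne_zero, if_false, mul_zero, if_true, zero_sub]
      push_cast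
      rw [abs_neg]
      linarith
    · rcases Nat.lt_or_ge i 2 with hi2 | hi2
      · have : i = 1 := by omega
        subst this
        simpa using hqa
      · rw [if_neg (by omega), if_neg (by omega)]
        simp [hH0.le]
  · rw [map_sub, map_mul, aeval_X, aeval_C, aeval_C]
    simp only [algebraMap_int_eq, eq_intCast]
    rw [hfr, sub_self, abs_zero]
    exact (Real.exp_pos _).le

end Pool.Agent.Run7.h360.CF
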