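import Pool.Agent.Run7.h360.CF.Span
import Pool.Agent.Run7.h360.CF.Line

/-!
# Simple monomials in `x` and in arbitrary real numbers
-/

set_option autoImplicit false

namespace Pool.Agent.Run7.h360.CF

open Finset Polynomial Pool.Agent.R356 Pool.Agent.N743.SS Pool.Agent.R473.JC Pool.Agent.TH456.TM
  Pool.Agent.Run7.h168.Lin Pool.Agent.Run7.h168.Mult Pool.Agent.Run7.h168.Uni

/-- the relation `∏ w_i ^ p_i = x^n ∏ w_i ^ p'_i` -/
lemma binom_rel' {m : ℕ} (x : ℝ) (w : Fin m → ℝ) (E : ℕ) (p p' : Fin m → Fin (E + 1)) (n : Fin (E + 1)) (hn : n ≠ 0)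
    (h : ∏ i, w i ^ (p i : ℕ) = x ^ (n : ℕ) * ∏ i, w i ^ (p' i : ℕ)) (H : ℝ)
    (hH : 1 ≤ H * |∏ i, w i ^ (p' i : ℕ)|) :
    ∃ c : (Fin m → Fin (E + 1)) → Fin (E + 1) → ℤ, (∀ s k, |(c s k : ℝ)| ≤ 2) ∧
      ∑ s, (∑ k, (c s k : ℝ) * x ^ (k : ℕ)) * ∏ i, w i ^ (s i : ℕ) = 0 ∧
      ∃ k, 1 ≤ H * |∑ s, (c s k : ℝ) * ∏ i, w i ^ (s i : ℕ)| := by
  classical
  refine ⟨fun s k => (if s = p ∧ k = 0 then 1 else 0) - (if s = p' ∧ k = n then 1 else 0), fun s k => ?_, ?_, n, ?_⟩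
  · push_cast
    split_ifs <;> norm_num
  · push_cast
    have h1 : ∀ s : Fin m → Fin (E + 1), ∑ k : Fin (E + 1), (((if s = p ∧ k = 0 then (1 : ℝ) else 0) -
        (if s = p' ∧ k = n then (1 : ℝ) else 0)) * x ^ (k : ℕ)) =
        (if s = p then 1 else 0) - (if s = p' then x ^ (n : ℕ) else 0) := by
      intro s
      simp only [sub_mul, Finset.sum_sub_distrib]
      congr 1
      · by_cases h : s = p
        · simp [h]
        · simp [h]
      · by_cases h : s = p'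
        · simp [h]
        · simp [h]
    simp only [h1]
    simp only [sub_mul, Finset.sum_sub_distrib, ite_mul, zero_mul, one_mul]
    rw [Finset.sum_ite_eq' Finset.univ p, Finset.sum_ite_eq' Finset.univ p', if_pos (Finset.mem_univ _),
      if_pos (Finset.mem_univ _), h]
    ring
  · have h2 : ∑ s : Fin m → Fin (E + 1), (((if s = p ∧ n = 0 then (1 : ℤ) else 0) -
        (if s = p' ∧ n = n then 1 else 0) : ℤ) : ℝ) * ∏ i, w i ^ (s i : ℕ) =
        -(∏ i, w i ^ (p' i : ℕ)) := by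
      push_cast
      simp only [hn, and_false, if_false, and_true, zero_sub, neg_mul, ite_mul, one_mul, zero_mul,
        Finset.sum_neg_distrib]
      rw [Finset.sum_ite_eq' Finset.univ p', if_pos (Finset.mem_univ _)]
    rw [h2, abs_neg]
    exact hH

lemma one_le_prod_pow {m : ℕ} (w : Fin m → ℝ) (V : ℝ) (hV : 1 ≤ V) (hw : ∀ i, 1 ≤ V * |w i|) (E : ℕ)
    (p : Fin m → Fin (E + 1)) : 1 ≤ V ^ (m * E) * |∏ i, w i ^ (p i : ℕ)| := by
  have h1 : ∀ i, 1 ≤ V ^ E * |w i| ^ (p i : ℕ) := by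
    intro i
    have h2 : 1 ≤ (V * |w i|) ^ (p i : ℕ) := one_le_pow₀ (hw i)
    rw [mul_pow] at h2
    refine h2.trans (mul_le_mul_of_nonneg_right (pow_le_pow_right₀ hV ?_) (by positivity))
    have := (p i).2
    omega
  have h2 : 1 ≤ ∏ i, (V ^ E * |w i| ^ (p i : ℕ)) := by
    have : ∏ i : Fin m, (1 : ℝ) ≤ ∏ i, (V ^ E * |w i| ^ (p i : ℕ)) :=
      Finset.prod_le_prod (fun _ _ => zero_le_one) fun i _ => h1 i
    rwa [Finset.prod_const_one] at this
  rw [Finset.prod_mul_distrib, Finset.prod_const, Finset.card_univ, Fintype.card_fin, ← pow_mul] at h2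
  rw [Finset.abs_prod]
  simp only [abs_pow]
  rw [mul_comm m E]
  exact h2

/-- **Simple monomials.** -/
theorem simple_mono (x : ℝ) (hx : MeasT (x : ℂ)) (n D r : ℕ) : ∃ A : ℝ, 1 ≤ A ∧
    ∀ (z : Fin n → ℝ) (H : ℝ) (K : ℕ) (N X : ℝ), 1 ≤ H → (∀ j, 1 ≤ H * |z j| ∧ |z j| ≤ H) → 0 ≤ N →
      A ^ (K + 1) * (N + Real.log H + 1) < X →
      qv (Pi.single 0 1 : Fin (n + 1) → ℤ) ∉ Submodule.span ℚ (qv '' {a : Fin (n + 1) → ℤ | (∀ i, |a i| ≤ D) ∧
        ∃ y, Image H (x ^ a 0 * ∏ j : Fin n, z j ^ a j.succ) y ∧ Simple r K N X y}) := by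
  classical
  have hx0 : x ≠ 0 := by
    rintro rfl
    have h1 := transcendental_of_measT hx
    exact h1 isAlgebraic_zero
  obtain ⟨E, hE⟩ : ∃ E : ℕ, E = (n + 1) * ((n + 1).factorial * (D + 1) ^ (n + 1 + 1)) := ⟨_, rfl⟩
  obtain ⟨A, hA, h⟩ := simple_rel x hx (n + 1) E r
  obtain ⟨W, hW⟩ : ∃ W : ℝ, W = max |x| |x|⁻¹ := ⟨_, rfl⟩
  have hW1 : 1 ≤ W := by
    rw [hW]
    rcases le_total 1 |x| with h1 | h1
    · exact h1.trans (le_max_left _ _)
    · exact ((one_le_inv₀ (abs_pos.2 hx0)).2 h1).trans (le_max_right _ _)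
  have hWx : |x| ≤ W := by rw [hW]; exact le_max_left _ _
  have hWx' : 1 ≤ W * |x| := by
    have h1 : |x|⁻¹ ≤ W := by rw [hW]; exact le_max_right _ _
    calc 1 = |x|⁻¹ * |x| := (inv_mul_cancel₀ (abs_pos.2 hx0).ne').symm
      _ ≤ W * |x| := mul_le_mul_of_nonneg_right h1 (abs_nonneg _)
  obtain ⟨e, he⟩ : ∃ e : ℕ, e = (n + 1) * D * ((n + 1) * E) + (n + 1) * D + 1 := ⟨_, rfl⟩
  obtain ⟨G, hG⟩ : ∃ G : ℝ, G = (n + 2) + Real.log 2 + e * (Real.log W + 1) := ⟨_, rfl⟩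
  have hlW : 0 ≤ Real.log W := Real.log_nonneg hW1
  have hl2 : 0 ≤ Real.log 2 := Real.log_nonneg (by norm_num)
  have he0 : (0 : ℝ) ≤ e := Nat.cast_nonneg e
  have hn0 : (0 : ℝ) ≤ n := Nat.cast_nonneg n
  have hG1 : 1 ≤ G := by
    rw [hG]
    have : 0 ≤ (e : ℝ) * (Real.log W + 1) := by positivity
    linarith
  refine ⟨A ^ (n + 1) * G, one_le_mul_of_one_le_of_one_le (one_le_pow₀ hA) hG1, ?_⟩
  intro z H K N X hH hz hN hX hspan
  have hH0 : 0 < H := by linarith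
  obtain ⟨S, hS⟩ : ∃ S : Set (Fin (n + 1) → ℤ), S = {a : Fin (n + 1) → ℤ | (∀ i, |a i| ≤ D) ∧
        ∃ y, Image H (x ^ a 0 * ∏ j : Fin n, z j ^ a j.succ) y ∧ Simple r K N X y} := ⟨_, rfl⟩
  rw [← hS] at hspan
  have hD0 : (0 : ℝ) ≤ D := Nat.cast_nonneg D
  obtain ⟨M₀, l, δ, hδ, hM₀, hcomb₀, hδb, hlb⟩ := cramer S ((D : ℝ) + 1) (by linarith) (fun a ha i => by
    rw [hS] at ha
    have h1 := ha.1 i
    have h2 : |(a i : ℝ)| ≤ D := by exact_mod_cast h1
    linarith) (Pi.single 0 1) (fun i => by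
      by_cases hi : i = 0
      · subst hi
        rw [Pi.single_eq_same]
        push_cast
        rw [abs_one]
        linarith
      · rw [Pi.single_eq_of_ne hi]
        push_cast
        rw [abs_zero]
        linarith) hspan
  -- padding
  have hne : ∃ a, a ∈ S := by
    by_contra hcon
    push Not at hcon
    have h1 := hcomb₀ 0
    rw [Pi.single_eq_same, mul_one] at h1
    apply hδ
    rw [h1]
    refine Finset.sum_eq_zero fun i _ => ?_
    rcases hM₀ i with h2 | h2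
    · rw [h2, zero_mul]
    · exact absurd h2 (hcon _)
  obtain ⟨aS, haS⟩ := hne
  obtain ⟨M, hMdef⟩ : ∃ M : Fin (n + 1) → Fin (n + 1) → ℤ, M = fun i => if l i = 0 then aS else M₀ i := ⟨_, rfl⟩
  have hMS : ∀ i, M i ∈ S := by
    intro i
    rw [hMdef]
    show (if l i = 0 then aS else M₀ i) ∈ S
    split_ifs with h1
    · exact haS
    · exact (hM₀ i).resolve_left h1
  have hcomb : ∀ j, δ * (Pi.single 0 1 : Fin (n + 1) → ℤ) j = ∑ i, l i * M i j := by
    intro j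
    rw [hcomb₀ j]
    refine Finset.sum_congr rfl fun i _ => ?_
    rw [hMdef]
    show l i * M₀ i j = l i * (if l i = 0 then aS else M₀ i) j
    by_cases h1 : l i = 0
    · rw [h1, zero_mul, zero_mul]
    · rw [if_neg h1]
  rw [hS] at hMS
  have hMD : ∀ i j, |M i j| ≤ D := fun i j => (hMS i).1 j
  have hM2 := fun i => (hMS i).2
  choose y hyI hyS using hM2
  -- the monomials
  obtain ⟨v, hv⟩ : ∃ v : Fin (n + 1) → ℝ, v = Fin.cons x z := ⟨_, rfl⟩
  have hv0 : ∀ j, v j ≠ 0 := by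
    intro j
    rw [hv]
    refine Fin.cases ?_ (fun j => ?_) j
    · rw [Fin.cons_zero]; exact hx0
    · rw [Fin.cons_succ]
      intro h1
      have := (hz j).1
      rw [h1, abs_zero, mul_zero] at this
      linarith
  obtain ⟨V, hV⟩ : ∃ V : ℝ, V = W * H := ⟨_, rfl⟩
  have hV1 : 1 ≤ V := by rw [hV]; exact one_le_mul_of_one_le_of_one_le hW1 hH
  have hHV : H ≤ V := by rw [hV]; exact le_mul_of_one_le_left hH0.le hW1
  have hWV : W ≤ V := by rw [hV]; exact le_mul_of_one_le_right (by linarith) hH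
  have hvV : ∀ j, 1 ≤ V * |v j| ∧ |v j| ≤ V := by
    intro j
    rw [hv]
    refine Fin.cases ?_ (fun j => ?_) j
    · rw [Fin.cons_zero]
      exact ⟨hWx'.trans (mul_le_mul_of_nonneg_right hWV (abs_nonneg _)), hWx.trans hWV⟩
    · rw [Fin.cons_succ]
      exact ⟨(hz j).1.trans (mul_le_mul_of_nonneg_right hHV (abs_nonneg _)), (hz j).2.trans hHV⟩
  obtain ⟨w, hw⟩ : ∃ w : Fin (n + 1) → ℝ, w = fun i => ∏ j, v j ^ M i j := ⟨_, rfl⟩
  have hweq : ∀ i, w i = x ^ M i 0 * ∏ j : Fin n, z j ^ M i j.succ := by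
    intro i
    rw [hw]
    show ∏ j, v j ^ M i j = _
    rw [Fin.prod_univ_succ, hv, Fin.cons_zero]
    simp only [Fin.cons_succ]
  have hw0 : ∀ i, w i ≠ 0 := by
    intro i
    rw [hw]
    exact Finset.prod_ne_zero_iff.2 fun j _ => zpow_ne_zero _ (hv0 j)
  obtain ⟨U, hU⟩ : ∃ U : ℝ, U = V ^ ((n + 1) * D) := ⟨_, rfl⟩
  have hU1 : 1 ≤ U := by rw [hU]; exact one_le_pow₀ hV1
  have hmon : ∀ a : Fin (n + 1) → ℤ, (∀ j, |a j| ≤ D) → |∏ j, v j ^ a j| ≤ U := by
    intro a ha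
    rw [Finset.abs_prod]
    refine (Finset.prod_le_prod (g := fun _ => V ^ D) (fun _ _ => abs_nonneg _) fun j _ =>
      abs_zpow_le (v j) V hV1 (hvV j).1 (hvV j).2 D (a j) (ha j)).trans ?_
    rw [Finset.prod_const, Finset.card_univ, Fintype.card_fin, ← pow_mul, hU, mul_comm D]
  have hwU : ∀ i, |w i| ≤ U := fun i => by rw [hw]; exact hmon _ (hMD i)
  have hwU' : ∀ i, 1 ≤ U * |w i| := by
    intro i
    have h1 : |(w i)⁻¹| ≤ U := by
      have e1 : (w i)⁻¹ = ∏ j, v j ^ (-M i j) := by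
        rw [hw]
        show (∏ j, v j ^ M i j)⁻¹ = _
        rw [← Finset.prod_inv_distrib]
        exact Finset.prod_congr rfl fun j _ => (zpow_neg _ _).symm
      rw [e1]
      exact hmon _ (fun j => by rw [abs_neg]; exact hMD i j)
    rw [abs_inv] at h1
    calc 1 = |w i|⁻¹ * |w i| := (inv_mul_cancel₀ (abs_pos.2 (hw0 i)).ne').symm
      _ ≤ _ := mul_le_mul_of_nonneg_right h1 (abs_nonneg _)
  -- the relation
  have hval : ∏ i, w i ^ l i = x ^ δ := by
    have h3 : ∀ i, w i ^ l i = ∏ j, v j ^ (l i * M i j) := by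
      intro i
      rw [hw]
      show (∏ j, v j ^ M i j) ^ l i = _
      rw [← Finset.prod_zpow]
      exact Finset.prod_congr rfl fun j _ => by rw [← zpow_mul, mul_comm]
    rw [Finset.prod_congr rfl fun i _ => h3 i, Finset.prod_comm]
    have h4 : ∀ j, ∏ i, v j ^ (l i * M i j) = v j ^ (∑ i, l i * M i j) := by
      intro j
      have : ∀ s : Finset (Fin (n + 1)), ∏ i ∈ s, v j ^ (l i * M i j) =
          v j ^ (∑ i ∈ s, l i * M i j) := by
        intro s
        induction s using Finset.induction_on with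
        | empty => simp
        | insert a s ha ih => rw [Finset.sum_insert ha, Finset.prod_insert ha, zpow_add₀ (hv0 j), ih]
      exact this _
    rw [Finset.prod_congr rfl fun j _ => h4 j]
    rw [Finset.prod_eq_single 0]
    · rw [← hcomb 0, Pi.single_eq_same, mul_one, hv, Fin.cons_zero]
    · intro j _ hj
      rw [← hcomb j, Pi.single_eq_of_ne hj, mul_zero, zpow_zero]
    · intro h; exact absurd (Finset.mem_univ _) h
  obtain ⟨σ, hσ⟩ : ∃ σ : ℤ, (σ = 1 ∨ σ = -1) ∧ 0 < σ * δ := by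
    rcases lt_or_gt_of_ne hδ with h1 | h1
    · exact ⟨-1, Or.inr rfl, by linarith⟩
    · exact ⟨1, Or.inl rfl, by linarith⟩
  have hσ1 : |σ| = 1 := by rcases hσ.1 with rfl | rfl <;> simp
  obtain ⟨k, hk⟩ : ∃ k : ℕ, (k : ℤ) = σ * δ := ⟨(σ * δ).toNat, by have := hσ.2; omega⟩
  have hfl : ∀ a : ℤ, |(a : ℝ)| ≤ ((n + 1 : ℕ) : ℝ) * ((n + 1).factorial * ((D : ℝ) + 1) ^ (n + 1 + 1)) → |a| ≤ E := by
    intro a ha
    have h1 : ((|a| : ℤ) : ℝ) ≤ ((E : ℕ) : ℝ) := by
      rw [hE]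
      push_cast
      push_cast at ha
      exact ha
    exact_mod_cast h1
  have hlE : ∀ i, |σ * l i| ≤ E := fun i => by
    rw [abs_mul, hσ1, one_mul]
    exact hfl _ (hlb i)
  have hkE : k ≤ E := by
    have h1 : |σ * δ| ≤ E := by
      rw [abs_mul, hσ1, one_mul]
      refine hfl _ (hδb.trans ?_)
      have h2 : ((D : ℝ) + 1) ^ (n + 1) ≤ (D + 1) ^ (n + 1 + 1) := pow_le_pow_right₀ (by linarith) (by omega)
      have h3 : ((n + 1).factorial : ℝ) * ((D : ℝ) + 1) ^ (n + 1) ≤ (n + 1).factorial * (D + 1) ^ (n + 1 + 1) :=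
        mul_le_mul_of_nonneg_left h2 (by positivity)
      refine h3.trans (le_mul_of_one_le_left (by positivity) ?_)
      push_cast
      linarith
    rw [← hk] at h1
    simpa using h1
  have hk0 : k ≠ 0 := by
    rintro rfl
    have := hσ.2
    rw [← hk] at this
    simp at this
  have hval' : ∏ i, w i ^ (σ * l i) = x ^ k := by
    have h1 : ∏ i, w i ^ (σ * l i) = (∏ i, w i ^ l i) ^ σ := by
      rw [← Finset.prod_zpow]
      exact Finset.prod_congr rfl fun i _ => by rw [← zpow_mul, mul_comm]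
    rw [h1, hval, ← zpow_mul, ← zpow_natCast x k, hk, mul_comm]
  have hsplit : ∀ (t : ℝ) (ht : t ≠ 0) (a : ℤ), t ^ a = t ^ (a.toNat) / t ^ ((-a).toNat) := by
    intro t ht a
    conv_lhs => rw [← toNat_sub a]
    rw [zpow_sub₀ ht, zpow_natCast, zpow_natCast]
  have hpE : ∀ i, (σ * l i).toNat < E + 1 ∧ (-(σ * l i)).toNat < E + 1 := fun i => by
    have := hlE i
    rw [abs_le] at this
    omega
  have hrel : ∏ i, w i ^ (σ * l i).toNat = x ^ k * ∏ i, w i ^ (-(σ * l i)).toNat := by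
    rw [← hval', ← Finset.prod_mul_distrib]
    refine Finset.prod_congr rfl fun i _ => ?_
    rw [hsplit (w i) (hw0 i) (σ * l i), div_mul_cancel₀]
    exact pow_ne_zero _ (hw0 i)
  have hlow := one_le_prod_pow w U hU1 hwU' E (fun i => ⟨(-(σ * l i)).toNat, (hpE i).2⟩)
  obtain ⟨c, hc1, hc2, hc3⟩ := binom_rel' x w E (fun i => ⟨(σ * l i).toNat, (hpE i).1⟩)
    (fun i => ⟨(-(σ * l i)).toNat, (hpE i).2⟩) ⟨k, by omega⟩ (fun h1 => hk0 (congrArg Fin.val h1)) hrel
    (U ^ ((n + 1) * E)) hlow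
  obtain ⟨H', hH'⟩ : ∃ H' : ℝ, H' = 2 * V ^ e := ⟨_, rfl⟩
  have hVe : 1 ≤ V ^ e := one_le_pow₀ hV1
  have hH'1 : 1 ≤ H' := by rw [hH']; linarith
  have hUE : U ^ ((n + 1) * E) ≤ H' := by
    rw [hU, ← pow_mul, hH']
    have : V ^ ((n + 1) * D * ((n + 1) * E)) ≤ V ^ e := pow_le_pow_right₀ hV1 (by rw [he]; omega)
    linarith
  have hUH : U ≤ H' := by
    rw [hU, hH']
    have : V ^ ((n + 1) * D) ≤ V ^ e := pow_le_pow_right₀ hV1 (by rw [he]; omega)
    linarith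
  have hHH' : H ≤ H' := by
    rw [hH']
    have : V ≤ V ^ e := le_self_pow₀ hV1 (by rw [he]; omega)
    linarith
  have himg : ∀ w y : ℝ, Image H w y → Image H' w y := by
    rintro w y ⟨h2, a, b, c, d, h3, h4, h5, h6, h7, h8⟩
    exact ⟨h2.trans hHH', a, b, c, d, h3, h4.trans hHH', h5.trans hHH', h6.trans hHH', h7.trans hHH', h8⟩
  obtain ⟨k₁, hk₁⟩ := hc3
  have hfin := h c w H' hH'1 (fun s k => (hc1 s k).trans (by rw [hH']; linarith)) (fun i => (hwU i).trans hUH) hc2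
    ⟨k₁, hk₁.trans (mul_le_mul_of_nonneg_right hUE (abs_nonneg _))⟩ y
    (fun i => himg _ _ (by rw [hweq i]; exact hyI i)) (fun _ => K) (fun _ => N) X (fun _ => hN) hyS
  have hlH : 0 ≤ Real.log H := Real.log_nonneg hH
  have hlog : Real.log H' = Real.log 2 + e * (Real.log W + Real.log H) := by
    rw [hH', Real.log_mul (by norm_num) (by positivity), Real.log_pow, hV, Real.log_mul (by positivity) hH0.ne']
  rw [Finset.sum_const, Finset.sum_const, Finset.card_univ, Fintype.card_fin, smul_eq_mul, nsmul_eq_mul, hlog] at hfin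
  apply absurd hX
  rw [not_lt]
  refine hfin.trans ?_
  rw [mul_pow, ← pow_mul, mul_assoc]
  have h1 : A ^ ((n + 1) * K + 1) ≤ A ^ ((n + 1) * (K + 1)) := pow_le_pow_right₀ hA (by nlinarith)
  have h2 : G ≤ G ^ (K + 1) := le_self_pow₀ hG1 (by omega)
  refine mul_le_mul h1 ?_ (by positivity) (by positivity)
  have h3 : ((n + 1 : ℕ) : ℝ) * N + (Real.log 2 + e * (Real.log W + Real.log H)) + 1 ≤
      G * (N + Real.log H + 1) := by
    rw [hG]
    push_cast
    have e1 : 0 ≤ N * (1 + Real.log 2 + e * (Real.log W + 1)) := by positivity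
    have e2 : 0 ≤ Real.log H * ((n + 2) + Real.log 2 + e * Real.log W) := by positivity
    have e3 : 0 ≤ (n : ℝ) + 1 + e := by positivity
    calc ((n : ℝ) + 1) * N + (Real.log 2 + e * (Real.log W + Real.log H)) + 1
        ≤ (((n : ℝ) + 1) * N + (Real.log 2 + e * (Real.log W + Real.log H)) + 1) +
          N * (1 + Real.log 2 + e * (Real.log W + 1)) +
          Real.log H * ((n + 2) + Real.log 2 + e * Real.log W) + ((n : ℝ) + 1 + e) := by linarith
      _ = ((n + 2) + Real.log 2 + e * (Real.log W + 1)) * (N + Real.log H + 1) := by ring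
  exact h3.trans (mul_le_mul_of_nonneg_right h2 (by linarith))

end Pool.Agent.Run7.h360.CF
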