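import Mathlib

/-!
# Quadratic approximations given by copies in the regular continued fraction
-/

set_option autoImplicit false

namespace Pool.Agent.Run7.h360.CF

open GenContFract Polynomial

/-- the letter `a_{i+1}` of the continued fraction `[a_0; a_1, a_2, ...]` of `y` (`none` after the end) -/
noncomputable def letter (y : ℝ) (i : ℕ) : Option ℝ := (GenContFract.of y).partDens.get? i

/-- the denominator `q_i` of the convergent `[a_0; a_1, ..., a_i]` of `y` (of `y` after the end) -/
noncomputable def den (y : ℝ) (i : ℕ) : ℝ := (GenContFract.of y).dens i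

variable (y : ℝ)

lemma aux_some {n : ℕ} {b : ℝ} (h : letter y n = some b) :
    (GenContFract.of y).contsAux (n + 2) = ⟨b * ((GenContFract.of y).contsAux (n + 1)).a + ((GenContFract.of y).contsAux n).a,
      b * ((GenContFract.of y).contsAux (n + 1)).b + ((GenContFract.of y).contsAux n).b⟩ := by
  obtain ⟨gp, h1, h2⟩ := exists_s_b_of_partDen h
  obtain ⟨h3, -⟩ := of_partNum_eq_one_and_exists_int_partDen_eq h1
  rw [contsAux_recurrence h1 rfl rfl, h2, h3]
  simp

lemma aux_none {n : ℕ} (h : letter y n = none) :
    (GenContFract.of y).contsAux (n + 2) = (GenContFract.of y).contsAux (n + 1) :=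
  contsAux_stable_step_of_terminated (terminatedAt_iff_partDen_none.2 h)

lemma exists_ints : ∃ A B : ℕ → ℤ, ∀ n, (GenContFract.of y).contsAux n = ⟨(A n : ℝ), (B n : ℝ)⟩ := by
  have h : ∀ n, (∃ a b : ℤ, (GenContFract.of y).contsAux n = ⟨(a : ℝ), (b : ℝ)⟩) ∧
      (∃ a b : ℤ, (GenContFract.of y).contsAux (n + 1) = ⟨(a : ℝ), (b : ℝ)⟩) := by
    intro n
    induction n with
    | zero => exact ⟨⟨1, 0, by simp⟩, ⟨⌊y⌋, 1, by simp [of_h_eq_floor]⟩⟩
    | succ n ih =>
      refine ⟨ih.2, ?_⟩
      obtain ⟨⟨a, b, h1⟩, ⟨c, d, h2⟩⟩ := ih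
      cases hb : letter y n with
      | none => rw [aux_none y hb]; exact ⟨c, d, h2⟩
      | some β =>
        obtain ⟨z, hz⟩ := exists_int_eq_of_partDen hb
        rw [aux_some y hb, h1, h2, hz]
        exact ⟨z * c + a, z * d + b, by push_cast; rfl⟩
  choose A B hAB using fun n => (h n).1
  exact ⟨A, B, hAB⟩

lemma den_zero : den y 0 = 1 := by
  unfold den; simp

lemma den_mono {m n : ℕ} (h : m ≤ n) : den y m ≤ den y n := by
  induction h with
  | refl => exact le_rfl
  | step _ ih => exact ih.trans of_den_mono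

lemma one_le_den (n : ℕ) : 1 ≤ den y n := (den_zero y).symm.le.trans (den_mono y (Nat.zero_le n))

lemma den_eq (n : ℕ) : den y n = ((GenContFract.of y).contsAux (n + 1)).b := rfl

lemma letter_ge_one {n : ℕ} {b : ℝ} (h : letter y n = some b) : 1 ≤ b := of_one_le_get?_partDen h

lemma letter_none_mono {m n : ℕ} (hmn : m ≤ n) (h : letter y m = none) : letter y n = none :=
  terminatedAt_iff_partDen_none.1 (terminated_stable hmn (terminatedAt_iff_partDen_none.2 h))

lemma den_succ_of_none {n : ℕ} (h : letter y n = none) : den y (n + 1) = den y n := by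
  rw [den_eq, den_eq, aux_none y h]

/-- the linear form `q_{n-1} y - p_{n-1}` -/
noncomputable def E (n : ℕ) : ℝ := ((GenContFract.of y).contsAux n).b * y - ((GenContFract.of y).contsAux n).a

lemma E_zero : E y 0 = -1 := by unfold E; simp

lemma E_some {n : ℕ} {b : ℝ} (h : letter y n = some b) : E y (n + 2) = b * E y (n + 1) + E y n := by
  unfold E
  rw [aux_some y h]
  ring

lemma E_succ_eq (n : ℕ) : E y (n + 1) = den y n * (y - (GenContFract.of y).convs n) := by
  have h0 : den y n ≠ 0 := by linarith [one_le_den y n]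
  have h1 : (GenContFract.of y).convs n = ((GenContFract.of y).contsAux (n + 1)).a / den y n := rfl
  rw [h1, mul_sub, mul_div_cancel₀ _ h0, E, den_eq]

lemma E_of_none {n : ℕ} (h : letter y n = none) : E y (n + 1) = 0 := by
  have h1 := of_correctness_of_terminatedAt (terminatedAt_iff_partDen_none.2 h)
  rw [E_succ_eq, ← h1, sub_self, mul_zero]

/-- `|q_n y - p_n| ≤ 1 / q_{n+1}` -/
lemma E_succ_le (n : ℕ) : |E y (n + 1)| ≤ 1 / den y (n + 1) := by
  cases hb : letter y n with
  | none =>
    rw [E_of_none y hb, abs_zero]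
    exact div_nonneg zero_le_one (by linarith [one_le_den y (n + 1)])
  | some b =>
    have hnt : ¬ (GenContFract.of y).TerminatedAt n := by
      rw [terminatedAt_iff_partDen_none]
      have hb' : (GenContFract.of y).partDens.get? n = some b := hb
      rw [hb']
      simp
    have h1 := abs_sub_convs_le hnt
    have h2 : 0 < den y n := by linarith [one_le_den y n]
    have h3 : 0 < den y (n + 1) := by linarith [one_le_den y (n + 1)]
    rw [E_succ_eq, abs_mul, abs_of_pos h2]
    calc den y n * |y - (GenContFract.of y).convs n| ≤ den y n * (1 / (den y n * den y (n + 1))) :=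
          mul_le_mul_of_nonneg_left h1 h2.le
      _ = 1 / den y (n + 1) := by field_simp

lemma abs_E_le_one (n : ℕ) : |E y n| ≤ 1 := by
  cases n with
  | zero => rw [E_zero]; simp
  | succ n =>
    refine (E_succ_le y n).trans ?_
    rw [div_le_one (by linarith [one_le_den y (n + 1)])]
    exact one_le_den y (n + 1)

/-- the copied letters keep the determinant -/
lemma det_copy (r s l : ℕ) (h : ∀ j, j < l → letter y (r + j) = letter y (s + j) ∧ letter y (s + j) ≠ none) :
    |E y r * E y (s + 1) - E y s * E y (r + 1)| =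
      |E y (r + l) * E y (s + l + 1) - E y (s + l) * E y (r + l + 1)| := by
  induction l with
  | zero => rfl
  | succ l ih =>
    rw [ih fun j hj => h j (by omega)]
    obtain ⟨h1, h2⟩ := h l (by omega)
    obtain ⟨b, hb⟩ := Option.ne_none_iff_exists'.1 h2
    rw [hb] at h1
    have e1 : E y (r + l + 1 + 1) = b * E y (r + l + 1) + E y (r + l) := E_some y h1
    have e2 : E y (s + l + 1 + 1) = b * E y (s + l + 1) + E y (s + l) := E_some y hb
    rw [show r + (l + 1) = r + l + 1 from rfl, show s + (l + 1) = s + l + 1 from rfl, e1, e2, ← abs_neg]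
    congr 1
    ring

/-- consecutive numerators and denominators -/
lemma det_aux (A B : ℕ → ℤ) (hAB : ∀ n, (GenContFract.of y).contsAux n = ⟨(A n : ℝ), (B n : ℝ)⟩) (n : ℕ)
    (h : ∀ j, j < n → letter y j ≠ none) : A n * B (n + 1) - B n * A (n + 1) = (-1) ^ n := by
  have hA : ∀ n, ((GenContFract.of y).contsAux n).a = A n := fun n => by rw [hAB]
  have hB : ∀ n, ((GenContFract.of y).contsAux n).b = B n := fun n => by rw [hAB]
  induction n with
  | zero =>
    have h0 : ((GenContFract.of y).contsAux 0).a = 1 := by simp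
    have h1 : ((GenContFract.of y).contsAux 0).b = 0 := by simp
    have h2 : ((GenContFract.of y).contsAux 1).b = 1 := by simp
    rw [hA] at h0
    rw [hB] at h1 h2
    have h0' : A 0 = 1 := by exact_mod_cast h0
    have h1' : B 0 = 0 := by exact_mod_cast h1
    have h2' : B 1 = 1 := by exact_mod_cast h2
    rw [h0', h1', h2']
    ring
  | succ n ih =>
    have ih' := ih fun j hj => h j (by omega)
    obtain ⟨b, hb⟩ := Option.ne_none_iff_exists'.1 (h n (by omega))
    have e := aux_some y hb
    obtain ⟨z, hz⟩ := exists_int_eq_of_partDen hb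
    have eA : (A (n + 2) : ℝ) = z * A (n + 1) + A n := by
      rw [← hA, e, ← hA, ← hA, hz]
    have eB : (B (n + 2) : ℝ) = z * B (n + 1) + B n := by
      rw [← hB, e, ← hB, ← hB, hz]
    have eA' : A (n + 2) = z * A (n + 1) + A n := by exact_mod_cast eA
    have eB' : B (n + 2) = z * B (n + 1) + B n := by exact_mod_cast eB
    rw [show n + 1 + 1 = n + 2 from rfl, eA', eB', pow_succ, ← ih']
    ring

end Pool.Agent.Run7.h360.CF
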