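import Mathlib

/-!
# Cramer's rule for integral vectors in the span of a set of integral vectors
-/

set_option autoImplicit false

namespace Pool.Agent.Run7.h360.CF

open Finset

/-- the rational vector of an integral vector -/
def qv {ι : Type} (a : ι → ℤ) : ι → ℚ := fun i => (a i : ℚ)

lemma det_bound {n : ℕ} (M : Matrix (Fin n) (Fin n) ℤ) (H : ℝ) (h : ∀ i j, |(M i j : ℝ)| ≤ H) :
    |((M.det : ℤ) : ℝ)| ≤ n.factorial * H ^ n := by
  have h1 := Matrix.det_le (A := M.map (Int.cast : ℤ → ℝ)) (abv := AbsoluteValue.abs) (x := H)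
    (fun i j => h i j)
  rw [Fintype.card_fin, nsmul_eq_mul] at h1
  have h2 : (M.map (Int.cast : ℤ → ℝ)).det = ((M.det : ℤ) : ℝ) := ((Int.castRingHom ℝ).map_det M).symm
  rw [h2] at h1
  exact h1

lemma adj_bound {n : ℕ} (M : Matrix (Fin n) (Fin n) ℤ) (H : ℝ) (hH : 1 ≤ H) (h : ∀ i j, |(M i j : ℝ)| ≤ H)
    (i j : Fin n) : |((M.adjugate i j : ℤ) : ℝ)| ≤ n.factorial * H ^ n := by
  rw [Matrix.adjugate_apply]
  refine det_bound _ H fun a b => ?_
  rw [Matrix.updateRow_apply]
  split_ifs with hc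
  · by_cases hb : b = i
    · subst hb
      rw [Pi.single_eq_same]
      push_cast
      rw [abs_one]
      exact hH
    · rw [Pi.single_eq_of_ne hb]
      push_cast
      rw [abs_zero]
      linarith
  · exact h a b

/-- **Cramer's rule.** -/
theorem cramer {n : ℕ} (T : Set (Fin n → ℤ)) (H : ℝ) (hH : 1 ≤ H) (hT : ∀ a ∈ T, ∀ i, |(a i : ℝ)| ≤ H)
    (v : Fin n → ℤ) (hv : ∀ i, |(v i : ℝ)| ≤ H) (hspan : qv v ∈ Submodule.span ℚ (qv '' T)) :
    ∃ (M : Fin n → Fin n → ℤ) (l : Fin n → ℤ) (δ : ℤ), δ ≠ 0 ∧ (∀ i, l i = 0 ∨ M i ∈ T) ∧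
      (∀ j, δ * v j = ∑ i, l i * M i j) ∧ |(δ : ℝ)| ≤ n.factorial * H ^ n ∧
      ∀ i, |(l i : ℝ)| ≤ n * (n.factorial * H ^ (n + 1)) := by
  classical
  obtain ⟨b₀, hb₀T, -, hTb₀, hli₀⟩ := exists_linearIndepOn_extension (K := ℚ) (v := (qv : (Fin n → ℤ) → (Fin n → ℚ)))
    (linearIndepOn_empty ℚ _) (Set.empty_subset T)
  obtain ⟨E, hE⟩ : ∃ E : Set (Fin n → ℤ), E = Set.range fun j : Fin n => (Pi.single j 1 : Fin n → ℤ) := ⟨_, rfl⟩
  obtain ⟨b, hbt, hb₀b, htb, hli⟩ := exists_linearIndepOn_extension (K := ℚ)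
    (v := (qv : (Fin n → ℤ) → (Fin n → ℚ))) hli₀ (Set.subset_union_left (s := b₀) (t := E))
  have htop : ⊤ ≤ Submodule.span ℚ (Set.range fun a : b => qv (a : Fin n → ℤ)) := by
    have h1 : (Set.range fun a : b => qv (a : Fin n → ℤ)) = qv '' b := by
      ext z
      simp
    rw [h1]
    have h2 : Submodule.span ℚ (Set.range fun j : Fin n => (Pi.single j 1 : Fin n → ℚ)) ≤
        Submodule.span ℚ (qv '' b) := by
      rw [Submodule.span_le]
      rintro _ ⟨j, rfl⟩
      refine htb ⟨Pi.single j 1, Or.inr (by rw [hE]; exact ⟨j, rfl⟩), ?_⟩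
      ext i
      unfold qv
      by_cases hi : i = j
      · subst hi; simp
      · simp [Pi.single_eq_of_ne hi]
    refine le_trans (le_of_eq ?_) h2
    have h3 := (Pi.basisFun ℚ (Fin n)).span_eq
    rw [← h3]
    congr 1
    ext z
    simp [Pi.basisFun_apply]
  let B₀ : Module.Basis b ℚ (Fin n → ℚ) := Module.Basis.mk (v := fun a : b => qv (a : Fin n → ℤ)) hli htop
  have : Fintype b := FiniteDimensional.fintypeBasisIndex B₀
  have hcard : Fintype.card b = n := by
    rw [← Module.finrank_eq_card_basis B₀, Module.finrank_fin_fun]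
  let e : b ≃ Fin n := Fintype.equivFinOfCardEq hcard
  let B : Module.Basis (Fin n) ℚ (Fin n → ℚ) := B₀.reindex e
  obtain ⟨M, hM⟩ : ∃ M : Matrix (Fin n) (Fin n) ℤ, M = fun i => (e.symm i : Fin n → ℤ) := ⟨_, rfl⟩
  have hB : ∀ i, B i = qv (M i) := by
    intro i
    rw [hM]
    show (B₀.reindex e) i = _
    rw [Module.Basis.reindex_apply, Module.Basis.mk_apply]
  have hMH : ∀ i j, |(M i j : ℝ)| ≤ H := by
    intro i j
    have h1 : M i ∈ b := by rw [hM]; exact (e.symm i).2
    rcases hbt h1 with h2 | h2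
    · exact hT _ (hb₀T h2) j
    · rw [hE] at h2
      obtain ⟨k, hk⟩ := h2
      rw [← hk]
      show |((((Pi.single k 1 : Fin n → ℤ) j : ℤ)) : ℝ)| ≤ H
      by_cases hj : j = k
      · subst hj
        rw [Pi.single_eq_same]
        push_cast
        rw [abs_one]
        exact hH
      · rw [Pi.single_eq_of_ne hj]
        push_cast
        rw [abs_zero]
        linarith
  have hdet : M.det ≠ 0 := by
    intro h0
    have h1 : LinearIndependent ℚ (Matrix.row (Matrix.map M (Int.cast : ℤ → ℚ))) := by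
      have h2 : (Matrix.row (Matrix.map M (Int.cast : ℤ → ℚ))) = B := by
        funext i
        rw [hB i]
        rfl
      rw [h2]
      exact B.linearIndependent
    have h3 := Matrix.linearIndependent_rows_iff_isUnit.1 h1
    rw [Matrix.isUnit_iff_isUnit_det, isUnit_iff_ne_zero] at h3
    apply h3
    have h4 : (Matrix.map M (Int.cast : ℤ → ℚ)).det = ((M.det : ℤ) : ℚ) :=
      ((Int.castRingHom ℚ).map_det M).symm
    rw [h4, h0, Int.cast_zero]
  obtain ⟨l, hl⟩ : ∃ l : Fin n → ℤ, l = fun i => ∑ k, v k * M.adjugate k i := ⟨_, rfl⟩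
  have hcomb : ∀ j, M.det * v j = ∑ i, l i * M i j := by
    intro j
    have h1 : ∑ i, l i * M i j = ∑ k, v k * (M.adjugate * M) k j := by
      rw [hl]
      simp only [Finset.sum_mul, Matrix.mul_apply, Finset.mul_sum]
      rw [Finset.sum_comm]
      exact Finset.sum_congr rfl fun k _ => Finset.sum_congr rfl fun i _ => by ring
    rw [h1, Matrix.adjugate_mul]
    simp only [Matrix.smul_apply, Matrix.one_apply, smul_eq_mul, mul_ite, mul_one, mul_zero]
    rw [Finset.sum_ite_eq' Finset.univ j, if_pos (Finset.mem_univ _), mul_comm]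
  have hdQ : ((M.det : ℤ) : ℚ) ≠ 0 := by exact_mod_cast hdet
  have hrepr : ∀ i, B.repr (qv v) i = (l i : ℚ) / M.det := by
    have h1 : qv v = ∑ i, ((l i : ℚ) / M.det) • B i := by
      funext j
      rw [Finset.sum_apply]
      have h2 : ((M.det : ℤ) : ℚ) * v j = ∑ i, (l i : ℚ) * M i j := by exact_mod_cast hcomb j
      have h3 : ∀ i, (((l i : ℚ) / M.det) • B i) j = (l i * M i j) / M.det := by
        intro i
        rw [hB i, Pi.smul_apply, smul_eq_mul]
        unfold qv
        ring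
      rw [Finset.sum_congr rfl fun i _ => h3 i, ← Finset.sum_div, ← h2]
      unfold qv
      field_simp
    intro i
    rw [h1, B.repr_sum_self]
  have hzero : ∀ i, l i = 0 ∨ M i ∈ T := by
    intro i
    by_cases hi : M i ∈ b₀
    · exact Or.inr (hb₀T hi)
    · left
      have h1 : qv v ∈ Submodule.span ℚ (B '' {i | M i ∈ b₀}) := by
        have h2 : Submodule.span ℚ (qv '' T) ≤ Submodule.span ℚ (B '' {i | M i ∈ b₀}) := by
          rw [Submodule.span_le]
          refine hTb₀.trans ?_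
          rw [SetLike.coe_subset_coe, Submodule.span_le]
          rintro _ ⟨a, ha, rfl⟩
          refine Submodule.subset_span ⟨e ⟨a, hb₀b ha⟩, ?_, ?_⟩
          · show M (e ⟨a, hb₀b ha⟩) ∈ b₀
            rw [hM]
            simpa using ha
          · rw [hB, hM]
            simp
        exact h2 hspan
      rw [Module.Basis.mem_span_image] at h1
      have h3 : B.repr (qv v) i = 0 := by
        by_contra hne
        exact hi (h1 (Finsupp.mem_support_iff.2 hne))
      rw [hrepr i, div_eq_zero_iff] at h3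
      rcases h3 with h3 | h3
      · exact_mod_cast h3
      · exact absurd h3 hdQ
  refine ⟨M, l, M.det, hdet, hzero, hcomb, det_bound M H hMH, fun i => ?_⟩
  rw [hl]
  push_cast
  refine (Finset.abs_sum_le_sum_abs _ _).trans ?_
  refine (Finset.sum_le_sum (g := fun _ => n.factorial * H ^ (n + 1)) fun k _ => ?_).trans ?_
  · rw [abs_mul]
    calc |(v k : ℝ)| * |((M.adjugate k i : ℤ) : ℝ)| ≤ H * (n.factorial * H ^ n) :=
          mul_le_mul (hv k) (adj_bound M H hH hMH k i) (abs_nonneg _) (by linarith)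
      _ = n.factorial * H ^ (n + 1) := by ring
  · rw [Finset.sum_const, Finset.card_univ, Fintype.card_fin, nsmul_eq_mul]

/-- **Elimination.** If some nonzero vector of the span of `S` has the components `0` at the places `inr j`, then
there is an integral linear combination of at most `n + 1` elements of `S` with small coefficients of this kind. -/
theorem elim {d n : ℕ} (S : Set (Fin d ⊕ Fin n → ℤ)) (H : ℝ) (hH : 1 ≤ H) (hS : ∀ a ∈ S, ∀ i, |(a i : ℝ)| ≤ H)
    (u : Fin d ⊕ Fin n → ℚ) (hu : u ∈ Submodule.span ℚ (qv '' S)) (hu0 : u ≠ 0) (hut : ∀ j : Fin n, u (Sum.inr j) = 0) :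
    ∃ (M : Fin (n + 1) → (Fin d ⊕ Fin n → ℤ)) (l : Fin (n + 1) → ℤ), (∀ i, M i ∈ S) ∧
      (∀ j : Fin n, ∑ i, l i * M i (Sum.inr j) = 0) ∧ (∃ j : Fin d, ∑ i, l i * M i (Sum.inl j) ≠ 0) ∧
      ∀ i, |(l i : ℝ)| ≤ (n + 1) * (n.factorial * H ^ (n + 1)) := by
  classical
  obtain ⟨b, hbS, -, hSb, hli⟩ := exists_linearIndepOn_extension (K := ℚ)
    (v := (qv : (Fin d ⊕ Fin n → ℤ) → (Fin d ⊕ Fin n → ℚ))) (linearIndepOn_empty ℚ _) (Set.empty_subset S)
  obtain ⟨π, hπ⟩ : ∃ π : (Fin d ⊕ Fin n → ℤ) → (Fin n → ℤ), π = fun a j => a (Sum.inr j) := ⟨_, rfl⟩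
  have hub : u ∈ Submodule.span ℚ (qv '' b) := by
    have h1 : Submodule.span ℚ (qv '' S) ≤ Submodule.span ℚ (qv '' b) := by
      rw [Submodule.span_le]; exact hSb
    exact h1 hu
  have hdep : ∃ a : b, qv (π a) ∈ Submodule.span ℚ ((fun a : b => qv (π a)) '' (Set.univ \ {a})) := by
    by_contra hcon
    push Not at hcon
    have h1 : LinearIndependent ℚ (fun a : b => qv (π a)) := linearIndependent_iff_notMem_span.2 hcon
    have h2 : qv '' b = Set.range (fun a : b => qv (a : Fin d ⊕ Fin n → ℤ)) := by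
      ext z; simp
    rw [h2] at hub
    obtain ⟨c, hc⟩ := (Finsupp.mem_span_range_iff_exists_finsupp).1 hub
    have h3 : c = 0 := by
      refine linearIndependent_iff.1 h1 c ?_
      rw [Finsupp.linearCombination_apply]
      ext j
      have h4 := congrFun hc (Sum.inr j)
      rw [hut j] at h4
      rw [Finsupp.sum, Finset.sum_apply] at h4 ⊢
      rw [Pi.zero_apply, ← h4]
      refine Finset.sum_congr rfl fun a _ => ?_
      rw [hπ]
      rfl
    apply hu0
    rw [← hc, h3, Finsupp.sum_zero_index]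
  obtain ⟨a₀, ha₀⟩ := hdep
  obtain ⟨T, hT⟩ : ∃ T : Set (Fin n → ℤ), T = (fun a : b => π a) '' (Set.univ \ {a₀}) := ⟨_, rfl⟩
  have hTH : ∀ a ∈ T, ∀ i, |(a i : ℝ)| ≤ H := by
    intro a ha i
    rw [hT] at ha
    obtain ⟨a', -, rfl⟩ := ha
    rw [hπ]
    exact hS _ (hbS a'.2) _
  have hvT : qv (π a₀) ∈ Submodule.span ℚ (qv '' T) := by
    rw [hT, Set.image_image]
    exact ha₀
  obtain ⟨M', l', δ, hδ, hl', hcomb, hδb, hlb⟩ := cramer T H hH hTH (π a₀)
    (fun i => by rw [hπ]; exact hS _ (hbS a₀.2) _) hvT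
  have hex : ∀ i, ∃ a : b, (l' i = 0 ∨ (a ≠ a₀ ∧ π a = M' i)) := by
    intro i
    rcases hl' i with h1 | h1
    · exact ⟨a₀, Or.inl h1⟩
    · rw [hT] at h1
      obtain ⟨a, ha, ha'⟩ := h1
      exact ⟨a, Or.inr ⟨fun h => ha.2 h, ha'⟩⟩
  choose a ha using hex
  have hla : ∀ i j, l' i * M' i j = l' i * (a i : Fin d ⊕ Fin n → ℤ) (Sum.inr j) := by
    intro i j
    rcases ha i with h1 | h1
    · rw [h1, zero_mul, zero_mul]
    · rw [← h1.2, hπ]
  refine ⟨Fin.cons (a₀ : Fin d ⊕ Fin n → ℤ) (fun i => (a i : Fin d ⊕ Fin n → ℤ)), Fin.cons δ (fun i => -l' i), ?_, ?_,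
    ?_, ?_⟩
  · intro i
    refine Fin.cases ?_ (fun i => ?_) i
    · rw [Fin.cons_zero]; exact hbS a₀.2
    · rw [Fin.cons_succ]; exact hbS (a i).2
  · intro j
    rw [Fin.sum_univ_succ]
    simp only [Fin.cons_zero, Fin.cons_succ]
    have h1 := hcomb j
    simp only [hla] at h1
    rw [hπ] at h1
    have h2 : ∑ i, -l' i * (a i : Fin d ⊕ Fin n → ℤ) (Sum.inr j) =
        -∑ i, l' i * (a i : Fin d ⊕ Fin n → ℤ) (Sum.inr j) := by
      rw [← Finset.sum_neg_distrib]
      exact Finset.sum_congr rfl fun i _ => by ring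
    rw [h2]
    linarith
  · by_contra hcon
    push Not at hcon
    have h1 := linearIndependent_iff_notMem_span.1 hli a₀
    apply h1
    have hδQ : (δ : ℚ) ≠ 0 := by exact_mod_cast hδ
    have h2 : qv (a₀ : Fin d ⊕ Fin n → ℤ) = ∑ i, ((l' i : ℚ) / δ) • qv (a i : Fin d ⊕ Fin n → ℤ) := by
      have h3 : ∀ j, (δ : ℤ) * (a₀ : Fin d ⊕ Fin n → ℤ) j = ∑ i, l' i * (a i : Fin d ⊕ Fin n → ℤ) j := by
        intro j
        rcases j with j | j
        · have h4 := hcon j
          rw [Fin.sum_univ_succ] at h4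
          simp only [Fin.cons_zero, Fin.cons_succ] at h4
          have h5 : ∑ i, -l' i * (a i : Fin d ⊕ Fin n → ℤ) (Sum.inl j) =
              -∑ i, l' i * (a i : Fin d ⊕ Fin n → ℤ) (Sum.inl j) := by
            rw [← Finset.sum_neg_distrib]
            exact Finset.sum_congr rfl fun i _ => by ring
          rw [h5] at h4
          linarith
        · have h4 := hcomb j
          simp only [hla] at h4
          rw [hπ] at h4
          exact h4
      funext j
      have h6 : (δ : ℚ) * ((a₀ : Fin d ⊕ Fin n → ℤ) j : ℚ) = ∑ i, (l' i : ℚ) * ((a i : Fin d ⊕ Fin n → ℤ) j : ℚ) := by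
        exact_mod_cast h3 j
      rw [Finset.sum_apply]
      have h7 : ∀ i, (((l' i : ℚ) / δ) • qv (a i : Fin d ⊕ Fin n → ℤ)) j =
          (l' i * ((a i : Fin d ⊕ Fin n → ℤ) j : ℚ)) / δ := by
        intro i
        rw [Pi.smul_apply, smul_eq_mul]
        unfold qv
        ring
      rw [Finset.sum_congr rfl fun i _ => h7 i, ← Finset.sum_div, ← h6]
      unfold qv
      field_simp
    show qv (a₀ : Fin d ⊕ Fin n → ℤ) ∈ _
    rw [h2]
    refine Submodule.sum_mem _ fun i _ => ?_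
    rcases ha i with h3 | h3
    · rw [h3, Int.cast_zero, zero_div, zero_smul]; exact zero_mem _
    · exact Submodule.smul_mem _ _ (Submodule.subset_span ⟨a i, ⟨Set.mem_univ _, h3.1⟩, rfl⟩)
  · intro i
    have hf : (0 : ℝ) ≤ n.factorial * H ^ (n + 1) := by positivity
    refine Fin.cases ?_ (fun i => ?_) i
    · rw [Fin.cons_zero]
      refine hδb.trans ?_
      have h1 : H ^ n ≤ H ^ (n + 1) := pow_le_pow_right₀ hH (by omega)
      have h2 : (n.factorial : ℝ) * H ^ n ≤ n.factorial * H ^ (n + 1) :=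
        mul_le_mul_of_nonneg_left h1 (by positivity)
      have hn : (0 : ℝ) ≤ n := Nat.cast_nonneg n
      nlinarith
    · rw [Fin.cons_succ]
      push_cast
      rw [abs_neg]
      refine (hlb i).trans ?_
      nlinarith

end Pool.Agent.Run7.h360.CF
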