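import Pool.Agent.Run7.h360.CF.Joint

/-!
# Simple numbers: continued fractions or digits described piece by piece
-/

set_option autoImplicit false

namespace Pool.Agent.Run7.h360.CF

open Finset Polynomial Pool.Agent.R356 Pool.Agent.R473.JC Pool.Agent.TH456.TM Pool.Agent.Run7.h168.Mult
  Pool.Agent.Run7.h168.Lin

section fract

open GenContFract

lemma stream_fract (y : ℝ) (n : ℕ) :
    IntFractPair.stream (Int.fract y) (n + 1) = IntFractPair.stream y (n + 1) := by
  induction n with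
  | zero =>
    show (IntFractPair.stream (Int.fract y) 0).bind _ = (IntFractPair.stream y 0).bind _
    simp [IntFractPair.stream, IntFractPair.of]
  | succ n ih =>
    show (IntFractPair.stream (Int.fract y) (n + 1)).bind _ = (IntFractPair.stream y (n + 1)).bind _
    rw [ih]

lemma letter_eq (y : ℝ) (n : ℕ) :
    letter y n = (IntFractPair.stream y (n + 1)).map (fun p => ((p.b : ℤ) : ℝ)) := by
  cases h : IntFractPair.stream y (n + 1) with
  | none =>
    have h1 := of_terminatedAt_n_iff_succ_nth_intFractPair_stream_eq_none.2 h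
    exact terminatedAt_iff_partDen_none.1 h1
  | some p =>
    have h1 := get?_of_eq_some_of_succ_get?_intFractPair_stream h
    exact partDen_eq_s_b h1

lemma letter_fract (y : ℝ) (n : ℕ) : letter (Int.fract y) n = letter y n := by
  rw [letter_eq, letter_eq, stream_fract]

lemma den_fract (y : ℝ) (n : ℕ) : den (Int.fract y) n = den y n := by
  have key : ∀ n, ((GenContFract.of (Int.fract y)).contsAux n).b = ((GenContFract.of y).contsAux n).b ∧
      ((GenContFract.of (Int.fract y)).contsAux (n + 1)).b = ((GenContFract.of y).contsAux (n + 1)).b := by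
    intro n
    induction n with
    | zero => simp
    | succ n ih =>
      refine ⟨ih.2, ?_⟩
      cases h : letter y n with
      | none =>
        have h' := h
        rw [← letter_fract] at h'
        rw [aux_none _ h, aux_none _ h']
        exact ih.2
      | some b =>
        have h' := h
        rw [← letter_fract] at h'
        rw [aux_some _ h, aux_some _ h']
        simp only
        rw [ih.1, ih.2]
  exact (key n).2

lemma PiecesT.fract {y : ℝ} {T : Finset ℕ} {N X : ℝ} (h : PiecesT y T N X) : PiecesT (Int.fract y) T N X := by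
  intro u v huv hv ht
  rw [den_fract] at hv
  obtain ⟨r, s, hrs, h1, h2⟩ := h u v huv hv ht
  refine ⟨r, s, hrs, ?_, fun i hi hi' => ?_⟩
  · rw [den_fract, den_fract]; exact h1
  · rw [letter_fract, letter_fract]; exact h2 i hi hi'

end fract

/-- the fractional part of `y` almost satisfies an algebraic equation -/
def NearAlg (r : ℕ) (N X y : ℝ) : Prop :=
  ∃ P : ℤ[X], P ≠ 0 ∧ P.natDegree ≤ r ∧ (∀ i, |((P.coeff i : ℤ) : ℝ)| ≤ Real.exp N) ∧
    |(aeval (Int.fract y) P : ℝ)| ≤ Real.exp (-X)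

/-- **Simple numbers.** The continued fraction of `y` up to the scale `X`, or the digits of `y` in some base up to the
scale `X`, are described at the price `N` after the removal of at most `K` places; or the fractional part of `y` almost
satisfies an algebraic equation. -/
def Simple (r K : ℕ) (N X y : ℝ) : Prop :=
  (∃ T : Finset ℕ, T.card ≤ K ∧ PiecesT y T N X) ∨
    (∃ b k L : ℕ, 2 ≤ b ∧ (k + 1) * Real.log b ≤ N ∧ X ≤ L * Real.log b ∧ Cuts b (digit b y) r K L k) ∨
    NearAlg r N X y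

lemma prof_alg (r : ℕ) (ε : ℝ) (hε : 0 ≤ ε) (N X u : ℝ) (hN : 0 ≤ N) (h : ∃ P : ℤ[X], P ≠ 0 ∧ P.natDegree ≤ r ∧
    (∀ i, |((P.coeff i : ℤ) : ℝ)| ≤ Real.exp N) ∧ |(aeval u P : ℝ)| ≤ Real.exp (-X)) :
    Prof r ε 1 ∅ N X u := by
  intro x z hx hxz hzX _
  obtain ⟨P, h0, hd, hc, hv⟩ := h
  have hεz : 0 ≤ ε * z := by
    have : 0 ≤ z := hx.trans hxz
    positivity
  exact ⟨P, h0, hd, fun i => (hc i).trans (Real.exp_le_exp.2 (by linarith)),
    hv.trans (Real.exp_le_exp.2 (by linarith))⟩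

variable {κ : Type} [Fintype κ]

/-- **Simple numbers with a joint measure.** -/
theorem simple_joint (S : (κ → ℝ) → ℝ → Prop) (hS : JointH S) (hS1 : ∀ u h, S u h → ∀ i, |u i| ≤ 1) (r : ℕ) :
    ∃ A : ℝ, 1 ≤ A ∧ ∀ (u : κ → ℝ) (h : ℝ), S u h → 1 ≤ h → ∀ y : κ → ℝ, (∀ i, Int.fract (y i) = u i) →
      ∀ (K : κ → ℕ) (N : κ → ℝ) (X : ℝ), (∀ i, 0 ≤ N i) → (∀ i, Simple r (K i) (N i) X (y i)) →
      X ≤ A ^ (∑ i, K i + 1) * (∑ i, N i + Real.log h + 1) := by
  classical
  obtain ⟨ε, hε, hA⟩ := joint_prof S hS (r + 2)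
  obtain ⟨a, ha1, hgood⟩ := good_of_desc r
  obtain ⟨a', ha'1, hdig⟩ := prof_dig r a ε ha1 hε
  obtain ⟨A, hA1, hmain⟩ := hA (max 7 a') ((by norm_num : (1 : ℝ) ≤ 7).trans (le_max_left _ _))
  refine ⟨A ^ 2, one_le_pow₀ hA1, fun u h hSu hh y hy K N X hN hs => ?_⟩
  have hex : ∀ i, ∃ B : Finset ℝ, B.card ≤ 2 * K i ∧ Prof (r + 2) ε (max 7 a') B (N i) X (u i) := by
    intro i
    rcases hs i with ⟨T, hTK, hT⟩ | ⟨b, k, L, hb, hk, hX, T, hTK, hT⟩ | halg
    · have hT' : PiecesT (u i) T (N i) X := by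
        have := PiecesT.fract hT
        rwa [hy i] at this
      have hw : 4 * (|u i| + 1) ^ 2 ≤ Real.exp 4 := by
        have h1 := hS1 u h hSu i
        have h2 := abs_nonneg (u i)
        have h3 : (16 : ℝ) ≤ Real.exp 4 := by
          have h4 : (2 : ℝ) ≤ Real.exp 1 := by
            have := Real.add_one_le_exp (1 : ℝ)
            linarith
          have h5 : Real.exp 4 = Real.exp 1 ^ 4 := by rw [← Real.exp_nat_mul]; norm_num
          rw [h5]
          calc (16 : ℝ) = 2 ^ 4 := by norm_num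
            _ ≤ _ := pow_le_pow_left₀ (by norm_num) h4 4
        nlinarith
      obtain ⟨B, hB, hP⟩ := prof_cf (u i) 4 hw ε hε.le T (K i) hTK (N i) X (hN i) hT'
      exact ⟨B, hB, hP.mono (by omega) (le_trans (by norm_num) (le_max_left _ _)) (hN i)⟩
    · obtain ⟨B, hB, hP⟩ := hdig (u i) b k L (K i) hb T hTK (fun L' t hL' ht hTt => by
        refine hgood (u i) (hS1 u h hSu i) b hb (digit b (y i)) (fun l hl => ?_) k L' t ht
          (hT t L' ht hL' fun t' ht' => ?_)
        · rw [← hy i]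
          exact digit_fract b (y i) l hl
        · rcases le_or_gt t' L' with h1 | h1
          · exact Or.inl (hTt t' ht' h1)
          · exact Or.inr h1) (N i) X hk hX
      exact ⟨B, hB, hP.mono (by omega) (le_max_right _ _) (hN i)⟩
    · refine ⟨∅, by simp, (prof_alg r ε hε.le (N i) X (u i) (hN i) ?_).mono (by omega)
        (le_trans (by norm_num) (le_max_left _ _)) (hN i)⟩
      have h1 : NearAlg r (N i) X (y i) := halg
      unfold NearAlg at h1
      rwa [hy i] at h1
  choose B hBK hB using hex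
  refine (hmain u h hSu hh B N hN X hB).trans ?_
  have hlh : 0 ≤ Real.log h := Real.log_nonneg hh
  have hN0 : 0 ≤ ∑ i, N i := Finset.sum_nonneg fun i _ => hN i
  refine mul_le_mul_of_nonneg_right ?_ (by linarith)
  rw [← pow_mul]
  refine pow_le_pow_right₀ hA1 ?_
  have h1 : ∑ i, (B i).card ≤ ∑ i, 2 * K i := Finset.sum_le_sum fun i _ => hBK i
  rw [← Finset.mul_sum] at h1
  omega

/-- **Integer linear forms.** -/
theorem simple_lin (x : ℝ) (hx : MeasT (x : ℂ)) (n r : ℕ) : ∃ A : ℝ, 1 ≤ A ∧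
    ∀ (a : Matrix (Fin (n + 1)) (Fin (n + 1)) ℤ) (t : Fin n → ℝ) (c m : Fin (n + 1) → ℤ) (H : ℝ), a.det ≠ 0 →
      (∀ i j, |(a i j : ℝ)| ≤ H) → (∀ i, 1 ≤ m i ∧ (m i : ℝ) ≤ H) →
      ∀ y : Fin (n + 1) → ℝ, (∀ i, y i = (a i 0 * x + ∑ j : Fin n, a i j.succ * t j + c i) / m i) →
      ∀ (K : Fin (n + 1) → ℕ) (N : Fin (n + 1) → ℝ) (X : ℝ), (∀ i, 0 ≤ N i) →
      (∀ i, Simple r (K i) (N i) X (y i)) →
      X ≤ A ^ (∑ i, K i + 1) * (∑ i, N i + Real.log H + 1) := by
  classical
  obtain ⟨A, hA, hmain⟩ := simple_joint (Fam x n) (jointH_fam x hx n)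
    (fun u h hS => by obtain ⟨_, _, _, _, _, _, _, _, h1, _⟩ := hS; exact h1) r
  refine ⟨A, hA, ?_⟩
  intro a t c m H hdet haH hm y hy K N X hN hs
  have hH1 : 1 ≤ H := by
    have h1 := hm 0
    have h2 : (1 : ℝ) ≤ m 0 := by exact_mod_cast h1.1
    exact h2.trans h1.2
  have hm0 : ∀ i, (m i : ℝ) ≠ 0 := fun i => by
    have h1 : (1 : ℝ) ≤ m i := by exact_mod_cast (hm i).1
    linarith
  have hfr : ∀ z : ℝ, |Int.fract z| ≤ 1 := fun z => by
    rw [abs_of_nonneg (Int.fract_nonneg z)]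
    exact (Int.fract_lt_one z).le
  have hS : Fam x n (fun i => Int.fract (y i)) H := by
    refine ⟨a, fun j => Int.fract (t j), fun i => c i + ∑ j : Fin n, a i j.succ * ⌊t j⌋ - m i * ⌊y i⌋, m, hdet, haH, hm,
      fun j => hfr _, fun i => hfr _, fun i => ?_⟩
    have h1 : (m i : ℝ) * y i = a i 0 * x + ∑ j : Fin n, a i j.succ * t j + c i := by
      rw [hy i]
      field_simp [hm0 i]
    have h2 : ∑ j : Fin n, (a i j.succ : ℝ) * t j =
        ∑ j : Fin n, (a i j.succ : ℝ) * Int.fract (t j) + ∑ j : Fin n, (a i j.succ : ℝ) * ⌊t j⌋ := by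
      rw [← Finset.sum_add_distrib]
      refine Finset.sum_congr rfl fun j _ => ?_
      rw [← mul_add, Int.fract_add_floor]
    have h3 : Int.fract (y i) = y i - ⌊y i⌋ := rfl
    show (m i : ℝ) * Int.fract (y i) = (a i 0 : ℝ) * x + ∑ j : Fin n, (a i j.succ : ℝ) * Int.fract (t j) +
      ((c i + ∑ j : Fin n, a i j.succ * ⌊t j⌋ - m i * ⌊y i⌋ : ℤ) : ℝ)
    rw [h3]
    push_cast
    rw [mul_sub, h1, h2]
    ring
  exact hmain _ H hS hH1 y (fun i => rfl) K N X hN hs

/-- **Two numbers with a joint measure.** -/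
theorem simple_pair (u v : ℝ) (huv : JointR (Int.fract u) (Int.fract v)) (r : ℕ) : ∃ A : ℝ, 1 ≤ A ∧
    ∀ (K K' : ℕ) (N N' X : ℝ), 0 ≤ N → 0 ≤ N' → Simple r K N X u → Simple r K' N' X v →
      X ≤ A ^ (K + K' + 1) * (N + N' + 1) := by
  classical
  obtain ⟨A, hA, h⟩ := simple_joint (κ := Fin 2)
    (fun w h => w = ![Int.fract u, Int.fract v] ∧ h = 1) (by
      intro D
      obtain ⟨c, C, hc, hC, hj⟩ := huv D
      refine ⟨c, C, hc, hC, ?_⟩
      rintro w h ⟨rfl, rfl⟩ _ P hP hPD H hPH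
      have h1 := hj (P 0) (P 1) (hP 0) (hP 1) (hPD 0) (hPD 1) H (hPH 0) (hPH 1)
      rw [one_mul]
      rcases le_max_iff.1 h1 with h2 | h2
      · exact ⟨0, h2⟩
      · exact ⟨1, h2⟩) (by
      rintro w h ⟨rfl, rfl⟩ i
      fin_cases i
      · show |Int.fract u| ≤ 1
        rw [abs_of_nonneg (Int.fract_nonneg u)]
        exact (Int.fract_lt_one u).le
      · show |Int.fract v| ≤ 1
        rw [abs_of_nonneg (Int.fract_nonneg v)]
        exact (Int.fract_lt_one v).le) r
  refine ⟨A, hA, fun K K' N N' X hN hN' h1 h2 => ?_⟩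
  have h3 := h ![Int.fract u, Int.fract v] 1 ⟨rfl, rfl⟩ le_rfl ![u, v] (by
    intro i
    fin_cases i <;> rfl) ![K, K'] ![N, N'] X (by
    intro i
    fin_cases i
    · exact hN
    · exact hN') (by
    intro i
    fin_cases i
    · exact h1
    · exact h2)
  simpa [Fin.sum_univ_two] using h3

end Pool.Agent.Run7.h360.CF
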