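import Pool.Agent.Run7.h360.CF.Near
import Pool.Agent.Run7.h168.Lin.Cut

/-!
# Several numbers with a joint measure, described by continued fractions or by digits
-/

set_option autoImplicit false

namespace Pool.Agent.Run7.h360.CF

open Finset Polynomial Pool.Agent.R356 Pool.Agent.R473.JC Pool.Agent.TH456.TM Pool.Agent.Run7.h168.Mult
  Pool.Agent.Run7.h168.Lin

/-- outside the break points of `B`, small integer polynomials with very small values at `u` -/
def Prof (r : ℕ) (ε a : ℝ) (B : Finset ℝ) (N X u : ℝ) : Prop :=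
  ∀ x z, 0 ≤ x → x ≤ z → z ≤ X → (∀ β ∈ B, ¬ (x < β ∧ β ≤ z)) →
    ∃ P : ℤ[X], P ≠ 0 ∧ P.natDegree ≤ r ∧
      (∀ i, |((P.coeff i : ℤ) : ℝ)| ≤ Real.exp (a * (x + N + 1) + ε * z)) ∧
      |(aeval u P : ℝ)| ≤ Real.exp (a * (x + N + 1) + ε * z - z)

/-- a chain of intervals without break points -/
lemma count (A M X : ℝ) (hA : 1 ≤ A) (hM : 0 ≤ M) (B : Finset ℝ)
    (h : ∀ x z, 0 ≤ x → x ≤ z → z ≤ X → (∀ β ∈ B, ¬ (x < β ∧ β ≤ z)) → z ≤ A * (x + M)) :
    X ≤ (2 * A) ^ (B.card + 1) * M := by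
  classical
  have hA2 : 1 ≤ 2 * A := by linarith
  have key : ∀ n : ℕ, ∀ z, 0 ≤ z → z ≤ X → (B.filter fun β => 0 < β ∧ β ≤ z).card ≤ n →
      z ≤ (2 * A) ^ (n + 1) * M := by
    intro n
    induction n with
    | zero =>
      intro z hz hzX hcard
      have h1 := h 0 z le_rfl hz hzX fun β hβ hcon => by
        have h2 : β ∈ B.filter fun β => 0 < β ∧ β ≤ z := Finset.mem_filter.2 ⟨hβ, hcon⟩
        have h3 := Finset.card_pos.2 ⟨β, h2⟩
        omega
      rw [zero_add, pow_one]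
      nlinarith
    | succ n ih =>
      intro z hz hzX hcard
      have hpow : 1 ≤ (2 * A) ^ (n + 1) := one_le_pow₀ hA2
      rcases Finset.eq_empty_or_nonempty (B.filter fun β => 0 < β ∧ β ≤ z) with hemp | hne
      · have h1 := h 0 z le_rfl hz hzX fun β hβ hcon => by
          have h2 : β ∈ B.filter fun β => 0 < β ∧ β ≤ z := Finset.mem_filter.2 ⟨hβ, hcon⟩
          rw [hemp] at h2
          simp at h2
        have h2 : (2 * A) ^ (n + 1 + 1) * M = (2 * A) ^ (n + 1) * (2 * A * M) := by ring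
        rw [h2]
        have h3 : A * (0 + M) ≤ 2 * A * M := by nlinarith
        have h4 : 0 ≤ 2 * A * M := by positivity
        nlinarith
      · obtain ⟨b, hb⟩ : ∃ b, b = (B.filter fun β => 0 < β ∧ β ≤ z).max' hne := ⟨_, rfl⟩
        have hbm : b ∈ B.filter fun β => 0 < β ∧ β ≤ z := by rw [hb]; exact Finset.max'_mem _ _
        have hbm' := Finset.mem_filter.1 hbm
        have h1 := h b z hbm'.2.1.le hbm'.2.2 hzX fun β hβ hcon => by
          have h2 : β ∈ B.filter fun β => 0 < β ∧ β ≤ z :=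
            Finset.mem_filter.2 ⟨hβ, hbm'.2.1.trans hcon.1, hcon.2⟩
          have h3 := Finset.le_max' _ _ h2
          rw [← hb] at h3
          linarith [hcon.1]
        have h2 : b ≤ (2 * A) ^ (n + 1) * M := by
          by_contra hcon
          push Not at hcon
          obtain ⟨z', hz'⟩ : ∃ z', z' = ((2 * A) ^ (n + 1) * M + b) / 2 := ⟨_, rfl⟩
          have h0 : 0 ≤ (2 * A) ^ (n + 1) * M := by positivity
          have h3 : z' < b := by rw [hz']; linarith
          have h4 := ih z' (by rw [hz']; linarith [hbm'.2.1]) (by linarith [hbm'.2.2]) (by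
            have h5 : (B.filter fun β => 0 < β ∧ β ≤ z') ⊂ (B.filter fun β => 0 < β ∧ β ≤ z) := by
              rw [Finset.ssubset_iff_of_subset]
              · refine ⟨b, hbm, fun hcon => ?_⟩
                have := (Finset.mem_filter.1 hcon).2.2
                linarith
              · intro β hβ
                have h6 := Finset.mem_filter.1 hβ
                exact Finset.mem_filter.2 ⟨h6.1, h6.2.1, by linarith [h6.2.2, hbm'.2.2]⟩
            have h6 := Finset.card_lt_card h5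
            omega)
          rw [hz'] at h4
          linarith
        calc z ≤ A * (b + M) := h1
          _ ≤ A * ((2 * A) ^ (n + 1) * M + (2 * A) ^ (n + 1) * M) := by
              refine mul_le_mul_of_nonneg_left ?_ (by linarith)
              nlinarith
          _ = (2 * A) ^ (n + 1 + 1) * M := by ring
  rcases lt_or_ge X 0 with hX | hX
  · exact hX.le.trans (by positivity)
  · exact key _ X hX le_rfl (Finset.card_filter_le _ _)

variable {κ : Type} [Fintype κ]

/-- **Several numbers.** -/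
theorem joint_prof (S : (κ → ℝ) → ℝ → Prop) (hS : JointH S) (r : ℕ) : ∃ ε : ℝ, 0 < ε ∧ ∀ a : ℝ, 1 ≤ a →
    ∃ A : ℝ, 1 ≤ A ∧ ∀ (u : κ → ℝ) (h : ℝ), S u h → 1 ≤ h → ∀ (B : κ → Finset ℝ) (N : κ → ℝ),
      (∀ i, 0 ≤ N i) → ∀ X : ℝ, (∀ i, Prof r ε a (B i) (N i) X (u i)) →
      X ≤ A ^ (∑ i, (B i).card + 1) * (∑ i, N i + Real.log h + 1) := by
  classical
  obtain ⟨c, C₀, hc, hC₀, hj⟩ := hS r
  refine ⟨1 / (2 * (1 + c)), by positivity, fun a ha => ?_⟩
  obtain ⟨A, hA⟩ : ∃ A : ℝ, A = 2 * (1 + c) * a + 2 * c + 2 * |Real.log C₀| := ⟨_, rfl⟩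
  have hl := abs_nonneg (Real.log C₀)
  have hA1 : 1 ≤ A := by rw [hA]; nlinarith
  refine ⟨2 * A, by linarith, fun u h hSu hh B N hN X hprof => ?_⟩
  have hlh : 0 ≤ Real.log h := Real.log_nonneg hh
  have hN0 : 0 ≤ ∑ i, N i := Finset.sum_nonneg fun i _ => hN i
  have hcount := count A (∑ i, N i + Real.log h + 1) X hA1 (by linarith) (Finset.univ.biUnion B) ?_
  · refine hcount.trans (mul_le_mul_of_nonneg_right ?_ (by linarith))
    refine pow_le_pow_right₀ (by linarith) ?_
    have := Finset.card_biUnion_le (s := Finset.univ) (t := B)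
    omega
  · intro x z hx hxz hzX hB
    obtain ⟨Y, hY⟩ : ∃ Y : ℝ, Y = a * (x + ∑ i, N i + 1) + 1 / (2 * (1 + c)) * z := ⟨_, rfl⟩
    have hle : ∀ i, a * (x + N i + 1) + 1 / (2 * (1 + c)) * z ≤ Y := fun i => by
      rw [hY]
      have h1 := Finset.single_le_sum (f := N) (fun j _ => hN j) (Finset.mem_univ i)
      have h2 : a * (x + N i + 1) ≤ a * (x + ∑ i, N i + 1) :=
        mul_le_mul_of_nonneg_left (by linarith) (by linarith)
      linarith
    have hPs := fun i => hprof i x z hx hxz hzX fun β hβ =>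
      hB β (Finset.mem_biUnion.2 ⟨i, Finset.mem_univ i, hβ⟩)
    choose P hP0 hPd hPc hPv using hPs
    obtain ⟨i, hi⟩ := hj u h hSu hh P hP0 hPd (Real.exp Y) fun i k =>
      (hPc i k).trans (Real.exp_le_exp.2 (hle i))
    have h1 : C₀ * (h * Real.exp Y) ^ (-c) ≤ Real.exp (Y - z) :=
      hi.trans ((hPv i).trans (Real.exp_le_exp.2 (by linarith [hle i])))
    have hh0 : 0 < h := by linarith
    have h2 := Real.log_le_log (by positivity) h1
    rw [Real.log_mul hC₀.ne' (by positivity), Real.log_rpow (by positivity),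
      Real.log_mul hh0.ne' (Real.exp_pos _).ne', Real.log_exp, Real.log_exp] at h2
    have h3 := neg_abs_le (Real.log C₀)
    have h4 : z ≤ (1 + c) * Y + c * Real.log h + |Real.log C₀| := by linarith
    have h5 : (1 + c) * Y = (1 + c) * a * (x + ∑ i, N i + 1) + z / 2 := by
      rw [hY]
      field_simp
    rw [h5] at h4
    have h6 : z ≤ 2 * (1 + c) * a * (x + ∑ i, N i + 1) + 2 * c * Real.log h + 2 * |Real.log C₀| := by
      linarith
    refine h6.trans ?_
    rw [hA]
    have g1 : 0 ≤ 2 * (1 + c) * a * Real.log h := by positivity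
    have g2 : 0 ≤ 2 * c * (x + ∑ i, N i + 1) := by positivity
    have g3 : 0 ≤ 2 * |Real.log C₀| * (x + ∑ i, N i + Real.log h) := by positivity
    nlinarith

omit [Fintype κ] in
lemma Prof.mono {r r' : ℕ} {ε a a' : ℝ} {B : Finset ℝ} {N X u : ℝ} (h : Prof r ε a B N X u) (hr : r ≤ r')
    (ha : a ≤ a') (hN : 0 ≤ N) : Prof r' ε a' B N X u := by
  intro x z hx hxz hzX hB
  obtain ⟨P, h0, hd, hc, hv⟩ := h x z hx hxz hzX hB
  have h1 : a * (x + N + 1) ≤ a' * (x + N + 1) := mul_le_mul_of_nonneg_right ha (by linarith)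
  exact ⟨P, h0, hd.trans hr, fun i => (hc i).trans (Real.exp_le_exp.2 (by linarith)),
    hv.trans (Real.exp_le_exp.2 (by linarith))⟩

/-- continued fractions -/
lemma prof_cf (y w : ℝ) (hw : 4 * (|y| + 1) ^ 2 ≤ Real.exp w) (ε : ℝ) (hε : 0 ≤ ε) (T : Finset ℕ) (K : ℕ)
    (hTK : T.card ≤ K) (N X : ℝ) (hN : 0 ≤ N) (hT : PiecesT y T N X) :
    ∃ B : Finset ℝ, B.card ≤ 2 * K ∧ Prof 2 ε (w + 3) B N X y := by
  classical
  refine ⟨(T.image fun t => Real.log (den y t)) ∪ (T.image fun t => Real.log (den y (t - 1))), ?_, ?_⟩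
  · have h1 := Finset.card_union_le (T.image fun t => Real.log (den y t)) (T.image fun t => Real.log (den y (t - 1)))
    have h2 := Finset.card_image_le (s := T) (f := fun t => Real.log (den y t))
    have h3 := Finset.card_image_le (s := T) (f := fun t => Real.log (den y (t - 1)))
    omega
  · intro x z hx hxz hzX hB
    obtain ⟨P, h0, hd, hc, hv⟩ := near_of_pieces y T N X hN hT x z hx hxz hzX fun t ht =>
      ⟨hB _ (Finset.mem_union_left _ (Finset.mem_image_of_mem _ ht)),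
        hB _ (Finset.mem_union_right _ (Finset.mem_image_of_mem (fun t => Real.log (den y (t - 1))) ht))⟩
    have hw0 : 0 ≤ w := by
      by_contra hcon
      push Not at hcon
      have h1 : Real.exp w < 1 := Real.exp_lt_one_iff.2 hcon
      have h2 := abs_nonneg y
      nlinarith
    have hεz : 0 ≤ ε * z := by
      have : 0 ≤ z := hx.trans hxz
      positivity
    have hxN : 0 ≤ x + N := by linarith
    refine ⟨P, h0, hd, fun i => (hc i).trans ?_, hv.trans ?_⟩
    · calc 4 * (|y| + 1) ^ 2 * Real.exp (2 * (x + N)) ≤ Real.exp w * Real.exp (2 * (x + N)) :=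
            mul_le_mul_of_nonneg_right hw (Real.exp_pos _).le
        _ = Real.exp (w + 2 * (x + N)) := by rw [Real.exp_add]
        _ ≤ _ := Real.exp_le_exp.2 (by nlinarith)
    · have h2 : (2 : ℝ) ≤ Real.exp 1 := by
        have := Real.add_one_le_exp (1 : ℝ)
        linarith
      calc 2 * Real.exp (2 * (x + N) - z) ≤ Real.exp 1 * Real.exp (2 * (x + N) - z) :=
            mul_le_mul_of_nonneg_right h2 (Real.exp_pos _).le
        _ = Real.exp (1 + (2 * (x + N) - z)) := by rw [Real.exp_add]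
        _ ≤ _ := Real.exp_le_exp.2 (by nlinarith)

/-- digits -/
lemma prof_dig (r : ℕ) (a ε : ℝ) (ha : 1 ≤ a) (hε : 0 < ε) : ∃ a' : ℝ, 1 ≤ a' ∧ ∀ (y : ℝ) (b k L K : ℕ), 2 ≤ b →
    ∀ T : Finset ℕ, T.card ≤ K →
    (∀ L' t, L' ≤ L → t ≤ L' → (∀ t' ∈ T, t' ≤ L' → t' ≤ t) → Good a y r b k L' t) →
    ∀ N X : ℝ, (k + 1) * Real.log b ≤ N → X ≤ L * Real.log b →
    ∃ B : Finset ℝ, B.card ≤ 2 * K ∧ Prof r ε a' B N X y := by
  classical
  obtain ⟨δ, hδ⟩ : ∃ δ : ℝ, δ = ε / a := ⟨_, rfl⟩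
  have ha0 : 0 < a := by linarith
  have hδ0 : 0 < δ := by rw [hδ]; positivity
  obtain ⟨C, hC⟩ : ∃ C : ℝ, C = |Real.log (2 / δ)| + δ := ⟨_, rfl⟩
  have hC0 : 0 ≤ C := by rw [hC]; positivity
  refine ⟨a * (1 + C) + 1, by nlinarith, fun y b k L K hb T hTK hgood N X hN hX => ?_⟩
  have hlb := half_lt_log hb
  obtain ⟨lb, hlbd⟩ : ∃ lb : ℝ, lb = Real.log b := ⟨_, rfl⟩
  rw [← hlbd] at hlb hN hX
  have hlb0 : 0 < lb := by linarith
  refine ⟨T.image (fun t : ℕ => (t : ℝ) * lb), ?_, ?_⟩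
  · have h2 := Finset.card_image_le (s := T) (f := fun t : ℕ => (t : ℝ) * lb)
    omega
  intro x z hx hxz hzX hB
  have hz : 0 ≤ z := hx.trans hxz
  obtain ⟨L', hL'⟩ : ∃ L' : ℕ, L' = ⌊z / lb⌋₊ := ⟨_, rfl⟩
  obtain ⟨t, ht⟩ : ∃ t : ℕ, t = ⌊x / lb⌋₊ := ⟨_, rfl⟩
  have e1 : (L' : ℝ) * lb ≤ z := by
    rw [← le_div_iff₀ hlb0, hL']
    exact Nat.floor_le (by positivity)
  have e2 : z < L' * lb + lb := by
    have := Nat.lt_floor_add_one (z / lb)
    rw [← hL', div_lt_iff₀ hlb0] at this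
    linarith
  have e3 : (t : ℝ) * lb ≤ x := by
    rw [← le_div_iff₀ hlb0, ht]
    exact Nat.floor_le (by positivity)
  have hLL : L' ≤ L := by
    have h1 : (L' : ℝ) * lb ≤ L * lb := e1.trans (hzX.trans hX)
    exact_mod_cast le_of_mul_le_mul_right h1 hlb0
  have htL : t ≤ L' := by
    rw [ht, hL']
    exact Nat.floor_le_floor (div_le_div_of_nonneg_right hxz hlb0.le)
  obtain ⟨P, h0, hd, hc, hv⟩ := hgood L' t hLL htL fun t' ht' htL' => by
    have h1 := hB _ (Finset.mem_image_of_mem (fun t : ℕ => (t : ℝ) * lb) ht')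
    have h2 : (t' : ℝ) * lb ≤ z := by
      have h3 : (t' : ℝ) ≤ L' := by exact_mod_cast htL'
      have := mul_le_mul_of_nonneg_right h3 hlb0.le
      linarith
    have h3 : (t' : ℝ) * lb ≤ x := by
      by_contra hcon
      exact h1 ⟨not_le.1 hcon, h2⟩
    rw [ht]
    exact Nat.le_floor (by rwa [le_div_iff₀ hlb0])
  rw [← hlbd] at hc hv
  have hL'0 : (0 : ℝ) ≤ L' := Nat.cast_nonneg _
  have hk0 : (0 : ℝ) ≤ k := Nat.cast_nonneg _
  have hlog : Real.log ((L' : ℝ) + 1) ≤ δ * z + C := by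
    have h1 : (L' : ℝ) + 1 ≤ 2 * z + 1 := by
      have : (L' : ℝ) ≤ 2 * (L' * lb) := by nlinarith
      linarith
    have h2 : Real.log ((L' : ℝ) + 1) ≤ Real.log (2 * z + 1) := Real.log_le_log (by linarith) h1
    have h3 := Real.log_le_sub_one_of_pos (show 0 < (2 * z + 1) / (2 / δ) by positivity)
    rw [Real.log_div (by positivity) (by positivity)] at h3
    have h4 : (2 * z + 1) / (2 / δ) = δ * z + δ / 2 := by field_simp
    rw [h4] at h3
    have h5 := le_abs_self (Real.log (2 / δ))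
    rw [hC]
    linarith
  have hexp : a * ((k + 1 + t) * lb + Real.log (L' + 1)) ≤ a * (x + N) + ε * z + a * C := by
    have h1 : (k + 1 + t) * lb + Real.log (L' + 1) ≤ x + N + δ * z + C := by
      have : (k + 1 + t) * lb = (k + 1) * lb + t * lb := by ring
      linarith
    have h2 : a * δ = ε := by rw [hδ]; field_simp
    calc a * ((k + 1 + t) * lb + Real.log (L' + 1)) ≤ a * (x + N + δ * z + C) :=
          mul_le_mul_of_nonneg_left h1 ha0.le
      _ = a * (x + N) + a * δ * z + a * C := by ring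
      _ = _ := by rw [h2]
  have hN0 : 0 ≤ N := le_trans (by positivity) hN
  have hlbN : lb ≤ N := by nlinarith
  have hfin : a * (x + N) + a * C + N ≤ (a * (1 + C) + 1) * (x + N + 1) := by
    have g1 : 0 ≤ a * C * (x + N) := by positivity
    nlinarith
  refine ⟨P, h0, hd, fun i => (hc i).trans (Real.exp_le_exp.2 ?_), hv.trans (Real.exp_le_exp.2 ?_)⟩
  · linarith
  · linarith

end Pool.Agent.Run7.h360.CF
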