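import Pool.Agent.Run7.h360.CF.Pair
import Pool.Agent.Run7.h168.Mult.Field

/-!
# Möbius images of numbers with a joint measure
-/

set_option autoImplicit false

namespace Pool.Agent.Run7.h360.CF

open Finset Polynomial Pool.Agent.R356 Pool.Agent.N743.SS Pool.Agent.R473.JC Pool.Agent.TH456.TM Pool.Agent.Run7.h168.Lin Pool.Agent.Run7.h168.Mult

/-- multiplication by a linear factor -/
lemma coeff_mul_lin (p : ℤ[X]) (a b : ℤ) (M h : ℝ) (hM : ∀ k, |((p.coeff k : ℤ) : ℝ)| ≤ M) (ha : |(a : ℝ)| ≤ h)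
    (hb : |(b : ℝ)| ≤ h) (k : ℕ) : |(((p * (C a * X + C b)).coeff k : ℤ) : ℝ)| ≤ M * (2 * h) := by
  have hM0 : 0 ≤ M := (abs_nonneg _).trans (hM 0)
  have hh0 : 0 ≤ h := (abs_nonneg _).trans ha
  have e1 : p * (C a * X + C b) = C a * (p * X) + C b * p := by ring
  rw [e1, coeff_add, coeff_C_mul, coeff_C_mul]
  push_cast
  have h1 : |(((p * X).coeff k : ℤ) : ℝ)| ≤ M := by
    cases k with
    | zero => rw [coeff_mul_X_zero]; simpa using hM0
    | succ k => rw [coeff_mul_X]; exact hM k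
  calc |(a : ℝ) * (((p * X).coeff k : ℤ) : ℝ) + (b : ℝ) * ((p.coeff k : ℤ) : ℝ)|
      ≤ |(a : ℝ)| * |(((p * X).coeff k : ℤ) : ℝ)| + |(b : ℝ)| * |((p.coeff k : ℤ) : ℝ)| := by
        rw [← abs_mul, ← abs_mul]; exact abs_add_le _ _
    _ ≤ h * M + h * M := add_le_add (mul_le_mul ha h1 (abs_nonneg _) hh0) (mul_le_mul hb (hM k) (abs_nonneg _) hh0)
    _ = M * (2 * h) := by ring

lemma coeff_mul_lin_pow (p : ℤ[X]) (a b : ℤ) (M h : ℝ) (hM : ∀ k, |((p.coeff k : ℤ) : ℝ)| ≤ M) (ha : |(a : ℝ)| ≤ h)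
    (hb : |(b : ℝ)| ≤ h) (n : ℕ) : ∀ k, |(((p * (C a * X + C b) ^ n).coeff k : ℤ) : ℝ)| ≤ M * (2 * h) ^ n := by
  induction n with
  | zero => simpa using hM
  | succ n ih =>
    intro k
    rw [pow_succ, ← mul_assoc, pow_succ, ← mul_assoc]
    exact coeff_mul_lin _ a b _ h ih ha hb k

/-- the transformed polynomial -/
noncomputable def mobP (D : ℕ) (a b c d : ℤ) (P : ℤ[X]) : ℤ[X] :=
  ∑ j ∈ Finset.range (D + 1), C (P.coeff j) * (C a * X + C b) ^ j * (C c * X + C d) ^ (D - j)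

lemma natDegree_lin (a b : ℤ) : (C a * X + C b : ℤ[X]).natDegree ≤ 1 := natDegree_linear_le

lemma mobP_deg (D : ℕ) (a b c d : ℤ) (P : ℤ[X]) : (mobP D a b c d P).natDegree ≤ D := by
  refine natDegree_sum_le_of_forall_le _ _ fun j hj => ?_
  rw [Finset.mem_range] at hj
  have h1 := natDegree_lin a b
  have h2 := natDegree_lin c d
  refine (natDegree_mul_le.trans (add_le_add (natDegree_C_mul_le _ _) le_rfl)).trans ?_
  have h3 : ((C a * X + C b : ℤ[X]) ^ j).natDegree ≤ j := (natDegree_pow_le_of_le j h1).trans (by simp)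
  have h4 : ((C c * X + C d : ℤ[X]) ^ (D - j)).natDegree ≤ D - j := (natDegree_pow_le_of_le _ h2).trans (by simp)
  omega

lemma mobP_coeff (D : ℕ) (a b c d : ℤ) (P : ℤ[X]) (M h : ℝ) (hh : 1 ≤ h) (hM : ∀ k, |((P.coeff k : ℤ) : ℝ)| ≤ M)
    (ha : |(a : ℝ)| ≤ h) (hb : |(b : ℝ)| ≤ h) (hc : |(c : ℝ)| ≤ h) (hd : |(d : ℝ)| ≤ h) (k : ℕ) :
    |(((mobP D a b c d P).coeff k : ℤ) : ℝ)| ≤ (D + 1) * M * (2 * h) ^ D := by
  have hM0 : 0 ≤ M := (abs_nonneg _).trans (hM 0)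
  unfold mobP
  rw [finsetSum_coeff]
  push_cast
  refine (Finset.abs_sum_le_sum_abs _ _).trans ?_
  refine (Finset.sum_le_sum (g := fun _ => M * (2 * h) ^ D) fun j hj => ?_).trans ?_
  · rw [Finset.mem_range] at hj
    have h1 : ∀ k, |(((C (P.coeff j) : ℤ[X]).coeff k : ℤ) : ℝ)| ≤ M := by
      intro k
      rw [coeff_C]
      split_ifs with h
      · exact hM j
      · simpa using hM0
    have h2 := coeff_mul_lin_pow _ a b M h h1 ha hb j
    have h3 := coeff_mul_lin_pow _ c d _ h h2 hc hd (D - j) k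
    refine h3.trans (le_of_eq ?_)
    rw [mul_assoc, ← pow_add, Nat.add_sub_of_le (by omega)]
  · rw [Finset.sum_const, Finset.card_range, nsmul_eq_mul]
    push_cast
    exact le_of_eq (by ring)

lemma mobP_eval (D : ℕ) (a b c d : ℤ) (P : ℤ[X]) (hP : P.natDegree ≤ D) (w u : ℝ)
    (h : u * (c * w + d) = a * w + b) : (aeval w (mobP D a b c d P) : ℝ) = (c * w + d) ^ D * aeval u P := by
  unfold mobP
  rw [map_sum, aeval_eq_sum_range' (by omega : P.natDegree < D + 1), Finset.mul_sum]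
  refine Finset.sum_congr rfl fun j hj => ?_
  rw [Finset.mem_range] at hj
  rw [map_mul, map_mul, map_pow, map_pow, map_add, map_mul, map_add, map_mul, aeval_X]
  simp only [eq_intCast, map_intCast, aeval_C, algebraMap_int_eq, zsmul_eq_mul]
  rw [← h, mul_pow]
  have h1 : ((c : ℝ) * w + d) ^ D = (c * w + d) ^ j * (c * w + d) ^ (D - j) := by
    rw [← pow_add, Nat.add_sub_of_le (by omega)]
  rw [h1]
  ring

lemma mobP_ne (D : ℕ) (a b c d : ℤ) (hdet : a * d - b * c ≠ 0) (P : ℤ[X]) (hP : P.natDegree ≤ D) (h0 : P ≠ 0) :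
    mobP D a b c d P ≠ 0 := by
  intro h
  apply h0
  have hdetR : (a : ℝ) * d - b * c ≠ 0 := by exact_mod_cast hdet
  have h1 : ∀ t : ℝ, (c : ℝ) * t + d ≠ 0 → (aeval ((a * t + b) / (c * t + d)) P : ℝ) = 0 := by
    intro t ht
    have h2 := mobP_eval D a b c d P hP t ((a * t + b) / (c * t + d)) (div_mul_cancel₀ _ ht)
    rw [h, map_zero] at h2
    exact (mul_eq_zero.1 h2.symm).resolve_left (pow_ne_zero _ ht)
  have hinf : {t : ℝ | (c : ℝ) * t + d ≠ 0}.Infinite := by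
    have h3 : {t : ℝ | (c : ℝ) * t + d ≠ 0} = {t : ℝ | (c : ℝ) * t + d = 0}ᶜ := rfl
    rw [h3]
    refine Set.Finite.infinite_compl ?_
    rcases eq_or_ne (c : ℝ) 0 with hc | hc
    · have hd : (d : ℝ) ≠ 0 := by
        intro hd
        apply hdetR
        rw [hc, hd]; ring
      refine Set.Finite.subset Set.finite_empty fun t ht => ?_
      rw [Set.mem_ofPred_eq, hc, zero_mul, zero_add] at ht
      exact hd ht
    · refine Set.Finite.subset (Set.finite_singleton (-(d : ℝ) / c)) fun t ht => ?_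
      rw [Set.mem_ofPred_eq] at ht
      rw [Set.mem_singleton_iff]
      field_simp
      linarith
  have hinj : Set.InjOn (fun t : ℝ => ((a : ℝ) * t + b) / (c * t + d)) {t : ℝ | (c : ℝ) * t + d ≠ 0} := by
    intro s hs t ht hst
    have h4 : ((a : ℝ) * s + b) / (c * s + d) = (a * t + b) / (c * t + d) := hst
    rw [div_eq_div_iff hs ht] at h4
    have h5 : ((a : ℝ) * d - b * c) * (s - t) = 0 := by linarith
    have h6 := (mul_eq_zero.1 h5).resolve_left hdetR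
    linarith
  have h7 := hinf.image hinj
  have h8 : (P.map (algebraMap ℤ ℝ)) = 0 := by
    refine Polynomial.eq_zero_of_infinite_isRoot _ (h7.mono ?_)
    rintro _ ⟨t, ht, rfl⟩
    show IsRoot _ _
    rw [IsRoot, eval_map_algebraMap]
    exact h1 t ht
  exact (Polynomial.map_eq_zero_iff (algebraMap ℤ ℝ).injective_int).1 h8

variable {κ : Type} [Fintype κ]

/-- the tuples of Möbius images of height `≤ h` -/
def MobS (w : κ → ℝ) (u : κ → ℝ) (h : ℝ) : Prop :=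
  (∀ i, |u i| ≤ 1) ∧ ∀ i, ∃ a b c d : ℤ, a * d - b * c ≠ 0 ∧ |(a : ℝ)| ≤ h ∧ |(b : ℝ)| ≤ h ∧ |(c : ℝ)| ≤ h ∧
    |(d : ℝ)| ≤ h ∧ u i * (c * w i + d) = a * w i + b

lemma jointH_mob (w : κ → ℝ) (hw : JointM w) : JointH (MobS w) := by
  classical
  intro D
  obtain ⟨r, C₀, hr, hC₀, hj⟩ := hw D
  obtain ⟨W, hW⟩ : ∃ W : ℝ, W = 1 + ∑ i, |w i| := ⟨_, rfl⟩
  have hW1 : 1 ≤ W := by
    rw [hW]
    have := Finset.sum_nonneg fun i (_ : i ∈ (Finset.univ : Finset κ)) => abs_nonneg (w i)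
    linarith
  have hwW : ∀ i, |w i| + 1 ≤ W := fun i => by
    rw [hW]
    have := Finset.single_le_sum (f := fun i => |w i|) (fun i _ => abs_nonneg (w i)) (Finset.mem_univ i)
    linarith
  obtain ⟨G, hG⟩ : ∃ G : ℝ, G = (D + 1) * 2 ^ D := ⟨_, rfl⟩
  have hG0 : 0 < G := by rw [hG]; positivity
  refine ⟨r * (D + 1) + D + 1, C₀ * G ^ (-r) / W ^ D, by positivity, by positivity, ?_⟩
  rintro u h ⟨hu1, hu⟩ hh P hP hPD H hPH
  choose a b c d hdet ha hb hc hd hval using hu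
  have hne : Nonempty κ := by
    by_contra hemp
    rw [not_nonempty_iff] at hemp
    obtain ⟨i, _⟩ := hj (fun i => isEmptyElim i) (fun i => isEmptyElim i) (fun i => isEmptyElim i) 1
      (fun i => isEmptyElim i)
    exact isEmptyElim i
  have hH1 : 1 ≤ H := one_le_of_coeff (P hne.some) (hP _) H (hPH _)
  have hH0 : 0 < H := by linarith
  have hh0 : 0 < h := by linarith
  obtain ⟨i, hi⟩ := hj (fun i => mobP D (a i) (b i) (c i) (d i) (P i))
    (fun i => mobP_ne D _ _ _ _ (hdet i) _ (hPD i) (hP i)) (fun i => mobP_deg _ _ _ _ _ _)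
    ((D + 1) * H * (2 * h) ^ D)
    (fun i k => mobP_coeff D _ _ _ _ _ H h hh (hPH i) (ha i) (hb i) (hc i) (hd i) k)
  refine ⟨i, ?_⟩
  rw [mobP_eval D _ _ _ _ _ (hPD i) (w i) (u i) (hval i), abs_mul, abs_pow] at hi
  have hcw : |(c i : ℝ) * w i + d i| ≤ h * W := by
    calc |(c i : ℝ) * w i + d i| ≤ |(c i : ℝ)| * |w i| + |(d i : ℝ)| := by
          rw [← abs_mul]; exact abs_add_le _ _
      _ ≤ h * |w i| + h := add_le_add (mul_le_mul_of_nonneg_right (hc i) (abs_nonneg _)) (hd i)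
      _ = h * (|w i| + 1) := by ring
      _ ≤ h * W := mul_le_mul_of_nonneg_left (hwW i) hh0.le
  have h1 : C₀ * ((D + 1) * H * (2 * h) ^ D) ^ (-r) ≤ (h * W) ^ D * |aeval (u i) (P i)| :=
    hi.trans (mul_le_mul_of_nonneg_right (pow_le_pow_left₀ (abs_nonneg _) hcw D) (abs_nonneg _))
  have h2 : ((D : ℝ) + 1) * H * (2 * h) ^ D = G * (H * h ^ D) := by rw [hG, mul_pow]; ring
  have h3 : H * h ^ D ≤ (h * H) ^ ((D : ℝ) + 1) := by
    have e1 : ((D : ℝ) + 1) = ((D + 1 : ℕ) : ℝ) := by push_cast; ring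
    rw [e1, Real.rpow_natCast, mul_pow]
    calc H * h ^ D ≤ H ^ (D + 1) * h ^ (D + 1) :=
          mul_le_mul (le_self_pow₀ hH1 (by omega)) (pow_le_pow_right₀ hh (by omega)) (by positivity) (by positivity)
      _ = h ^ (D + 1) * H ^ (D + 1) := by ring
  have hhH : 1 ≤ h * H := one_le_mul_of_one_le_of_one_le hh hH1
  have hhH0 : 0 < h * H := by linarith
  have h4 : G ^ (-r) * (h * H) ^ (-(r * (D + 1))) ≤ ((D + 1) * H * (2 * h) ^ D) ^ (-r) := by
    rw [h2, Real.mul_rpow hG0.le (by positivity)]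
    refine mul_le_mul_of_nonneg_left ?_ (by positivity)
    have h5 : ((h * H) ^ ((D : ℝ) + 1)) ^ (-r) ≤ (H * h ^ D) ^ (-r) :=
      Real.rpow_le_rpow_of_nonpos (by positivity) h3 (by linarith)
    refine le_trans (le_of_eq ?_) h5
    rw [← Real.rpow_mul hhH0.le]
    congr 1
    ring
  have h5 : (h * W) ^ D ≤ W ^ D * (h * H) ^ ((D : ℝ) + 1) := by
    rw [mul_pow, mul_comm]
    refine mul_le_mul_of_nonneg_left ?_ (by positivity)
    refine le_trans ?_ h3
    exact le_mul_of_one_le_left (by positivity) hH1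
  have hWD : 0 < W ^ D := by positivity
  have h6 : C₀ * (G ^ (-r) * (h * H) ^ (-(r * (D + 1)))) ≤ W ^ D * (h * H) ^ ((D : ℝ) + 1) * |aeval (u i) (P i)| :=
    ((mul_le_mul_of_nonneg_left h4 hC₀.le).trans h1).trans (mul_le_mul_of_nonneg_right h5 (abs_nonneg _))
  have h7 : (h * H) ^ (-(r * (D + 1) + D + 1)) = (h * H) ^ (-(r * (D + 1))) * ((h * H) ^ ((D : ℝ) + 1))⁻¹ := by
    rw [← Real.rpow_neg hhH0.le, ← Real.rpow_add hhH0]
    congr 1
    ring
  rw [h7]
  have hp : 0 < (h * H) ^ ((D : ℝ) + 1) := Real.rpow_pos_of_pos hhH0 _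
  calc C₀ * G ^ (-r) / W ^ D * ((h * H) ^ (-(r * (D + 1))) * ((h * H) ^ ((D : ℝ) + 1))⁻¹)
      = C₀ * (G ^ (-r) * (h * H) ^ (-(r * (D + 1)))) / (W ^ D * (h * H) ^ ((D : ℝ) + 1)) := by
        field_simp
    _ ≤ |aeval (u i) (P i)| := by
        rw [div_le_iff₀ (by positivity)]
        linarith

/-- `y` is a Möbius image of `w` of height `≤ H` -/
def Image (H w y : ℝ) : Prop :=
  |y| ≤ H ∧ ∃ a b c d : ℤ, a * d - b * c ≠ 0 ∧ |(a : ℝ)| ≤ H ∧ |(b : ℝ)| ≤ H ∧ |(c : ℝ)| ≤ H ∧ |(d : ℝ)| ≤ H ∧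
    y * (c * w + d) = a * w + b

/-- **Simple Möbius images.** -/
theorem simple_mob (w : κ → ℝ) (hw : JointM w) (r : ℕ) : ∃ A : ℝ, 1 ≤ A ∧
    ∀ (H : ℝ) (y : κ → ℝ), 1 ≤ H → (∀ i, Image H (w i) (y i)) →
      ∀ (K : κ → ℕ) (N : κ → ℝ) (X : ℝ), (∀ i, 0 ≤ N i) → (∀ i, Simple r (K i) (N i) X (y i)) →
      X ≤ A ^ (∑ i, K i + 1) * (∑ i, N i + Real.log H + 1) := by
  classical
  obtain ⟨A, hA, h⟩ := simple_joint (MobS w) (jointH_mob w hw) (fun u h hS => hS.1) r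
  refine ⟨4 * A, by linarith, fun H y hH hy K N X hN hs => ?_⟩
  have hH0 : 0 < H := by linarith
  have h1 : MobS w (fun i => Int.fract (y i)) (4 * H ^ 2) := by
    refine ⟨fun i => ?_, fun i => ?_⟩
    · rw [abs_of_nonneg (Int.fract_nonneg _)]
      exact (Int.fract_lt_one _).le
    · obtain ⟨hyH, a, b, c, d, hdet, ha, hb, hc, hd, hv⟩ := hy i
      have hfl : |((⌊y i⌋ : ℤ) : ℝ)| ≤ 2 * H := by
        have h2 := abs_le.1 hyH
        have h3 := Int.floor_le (y i)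
        have h4 := Int.lt_floor_add_one (y i)
        rw [abs_le]
        constructor <;> linarith
      have hle : ∀ e : ℝ, |e| ≤ H → ∀ f : ℝ, |f| ≤ H → |e - f * ((⌊y i⌋ : ℤ) : ℝ)| ≤ 4 * H ^ 2 := by
        intro e he f hf
        calc |e - f * ((⌊y i⌋ : ℤ) : ℝ)| ≤ |e| + |f * ((⌊y i⌋ : ℤ) : ℝ)| := abs_sub _ _
          _ ≤ H + H * (2 * H) := by
            rw [abs_mul]
            exact add_le_add he (mul_le_mul hf hfl (abs_nonneg _) hH0.le)
          _ ≤ 4 * H ^ 2 := by nlinarith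
      have hH2 : H ≤ 4 * H ^ 2 := by nlinarith
      refine ⟨a - c * ⌊y i⌋, b - d * ⌊y i⌋, c, d, ?_, ?_, ?_, hc.trans hH2, hd.trans hH2, ?_⟩
      · have e1 : (a - c * ⌊y i⌋) * d - (b - d * ⌊y i⌋) * c = a * d - b * c := by ring
        rw [e1]; exact hdet
      · push_cast; exact hle _ ha _ hc
      · push_cast; exact hle _ hb _ hd
      · have h5 : Int.fract (y i) = y i - ⌊y i⌋ := rfl
        show Int.fract (y i) * _ = _
        rw [h5]
        push_cast
        linear_combination hv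
  have h2 := h _ (4 * H ^ 2) h1 (by nlinarith) y (fun i => rfl) K N X hN hs
  refine h2.trans ?_
  have hlH : 0 ≤ Real.log H := Real.log_nonneg hH
  have hN0 : 0 ≤ ∑ i, N i := Finset.sum_nonneg fun i _ => hN i
  have hl4 : Real.log 4 ≤ 3 := by
    have := Real.log_le_sub_one_of_pos (show (0 : ℝ) < 4 by norm_num)
    linarith
  have hlog : Real.log (4 * H ^ 2) ≤ 3 + 2 * Real.log H := by
    rw [Real.log_mul (by norm_num) (by positivity), Real.log_pow]
    push_cast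
    linarith
  have h4 : (4 : ℝ) * A ^ (∑ i, K i + 1) ≤ (4 * A) ^ (∑ i, K i + 1) := by
    rw [mul_pow]
    refine mul_le_mul_of_nonneg_right ?_ (by positivity)
    exact le_self_pow₀ (by norm_num) (by omega)
  calc A ^ (∑ i, K i + 1) * (∑ i, N i + Real.log (4 * H ^ 2) + 1)
      ≤ A ^ (∑ i, K i + 1) * (4 * (∑ i, N i + Real.log H + 1)) :=
        mul_le_mul_of_nonneg_left (by linarith) (by positivity)
    _ = 4 * A ^ (∑ i, K i + 1) * (∑ i, N i + Real.log H + 1) := by ring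
    _ ≤ _ := mul_le_mul_of_nonneg_right h4 (by linarith)

/-- **Families.** At every scale the number `x` is transcendental over the field of the simple numbers of a
finite family. -/
theorem simple_field [DecidableEq κ] (x : ℝ) (hx : MeasT (x : ℂ)) (w : κ → ℝ) (r : ℕ) : ∃ A : ℝ, 1 ≤ A ∧
    ∀ (H : ℝ) (J : Finset κ) (y : κ → ℝ) (K : κ → ℕ) (N : κ → ℝ) (X : ℝ), 1 ≤ H →
      (∀ i ∈ J, Image H (w i) (y i) ∧ 0 ≤ N i ∧ Simple r (K i) (N i) X (y i)) →
      A ^ (∑ i ∈ J, K i + 1) * (∑ i ∈ J, N i + Real.log H + 1) < X →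
      Transcendental (IntermediateField.adjoin ℚ (w '' J)) x := by
  classical
  have h1 : ∀ J : Finset κ, ∃ A : ℝ, 1 ≤ A ∧ (IsAlgebraic (IntermediateField.adjoin ℚ (w '' J)) x →
      ∀ (H : ℝ) (y : J → ℝ), 1 ≤ H → (∀ i : J, Image H (w i) (y i)) →
      ∀ (K : J → ℕ) (N : J → ℝ) (X : ℝ), (∀ i, 0 ≤ N i) → (∀ i, Simple r (K i) (N i) X (y i)) →
      X ≤ A ^ (∑ i, K i + 1) * (∑ i, N i + Real.log H + 1)) := by
    intro J
    by_cases hJ : IsAlgebraic (IntermediateField.adjoin ℚ (w '' J)) x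
    · have h2 : w '' (J : Set κ) = Set.range (fun i : J => w i) := by
        ext z
        simp
      rw [h2] at hJ
      obtain ⟨A, hA, h⟩ := simple_mob (fun i : J => w i) (jointM_of_field x hx _ hJ) r
      exact ⟨A, hA, fun _ => h⟩
    · exact ⟨1, le_rfl, fun h => absurd h hJ⟩
  choose A hA h using h1
  have hA0 : ∀ J, 0 ≤ A J := fun J => by linarith [hA J]
  refine ⟨1 + ∑ J, A J, ?_, ?_⟩
  · have := Finset.sum_nonneg fun J (_ : J ∈ (Finset.univ : Finset (Finset κ))) => hA0 J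
    linarith
  · intro H J y K N X hH hs hX halg
    have h3 := h J halg H (fun i => y i) hH (fun i => (hs i i.2).1) (fun i => K i) (fun i => N i) X
      (fun i => (hs i i.2).2.1) (fun i => (hs i i.2).2.2)
    have e1 : ∑ i : J, K i = ∑ i ∈ J, K i := Finset.sum_coe_sort J K
    have e2 : ∑ i : J, N i = ∑ i ∈ J, N i := Finset.sum_coe_sort J N
    rw [e1, e2] at h3
    have hN0 : 0 ≤ ∑ i ∈ J, N i := Finset.sum_nonneg fun i hi => (hs i hi).2.1
    have hlH : 0 ≤ Real.log H := Real.log_nonneg hH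
    have h4 : A J ≤ 1 + ∑ J, A J := by
      have := Finset.single_le_sum (fun J (_ : J ∈ (Finset.univ : Finset (Finset κ))) => hA0 J) (Finset.mem_univ J)
      linarith
    have h5 : A J ^ (∑ i ∈ J, K i + 1) * (∑ i ∈ J, N i + Real.log H + 1) ≤
        (1 + ∑ J, A J) ^ (∑ i ∈ J, K i + 1) * (∑ i ∈ J, N i + Real.log H + 1) :=
      mul_le_mul_of_nonneg_right (pow_le_pow_left₀ (hA0 J) h4 _) (by linarith)
    linarith

end Pool.Agent.Run7.h360.CF
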