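import Pool.Agent.Run7.h360.CF.Quad

/-!
# Numbers whose continued fraction is described piece by piece
-/

set_option autoImplicit false

namespace Pool.Agent.Run7.h360.CF

open GenContFract Polynomial

/-- the places `u+1, ..., v` are obtained by a copy, at the price `N` -/
def Copied (y : ℝ) (N : ℝ) (u v : ℕ) : Prop :=
  ∃ r s, r < s ∧ den y s ≤ Real.exp N * den y u ∧ ∀ i, s ≤ i → i < v → letter y i = letter y (i - (s - r))

/-- all the stretches of places without a place of `T`, among the partial quotients `a_{i+1}` with `q_i ≤ e^X`, are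
copied at the price `N` -/
def PiecesT (y : ℝ) (T : Finset ℕ) (N X : ℝ) : Prop :=
  ∀ u v, u < v → den y (v - 1) ≤ Real.exp X → (∀ t ∈ T, t ≤ u ∨ v < t) → Copied y N u v

variable (y : ℝ)

lemma exists_last (x : ℝ) (hx : 0 ≤ x) (h : ∀ n, den y n ≤ Real.exp x → letter y n ≠ none) :
    ∃ u, den y u ≤ Real.exp x ∧ Real.exp x < den y (u + 1) := by
  have hex : ∃ k, Real.exp x < den y k := by
    by_contra hcon
    push Not at hcon
    have h1 : ∀ k, ((Nat.fib (k + 1) : ℕ) : ℝ) ≤ Real.exp x := by
      intro k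
      refine le_trans ?_ (hcon k)
      refine succ_nth_fib_le_of_nth_den ?_
      cases k with
      | zero => exact Or.inl rfl
      | succ k =>
        refine Or.inr ?_
        rw [terminatedAt_iff_partDen_none]
        exact h k (hcon k)
    obtain ⟨m, hm⟩ := exists_nat_gt (Real.exp x)
    have h2 := h1 (m + 5)
    have h3 : m + 5 ≤ Nat.fib (m + 5) := Nat.le_fib_self (by omega)
    have h4 : Nat.fib (m + 5) ≤ Nat.fib (m + 5 + 1) := Nat.fib_le_fib_succ
    have h5 : ((m + 5 : ℕ) : ℝ) ≤ Nat.fib (m + 5 + 1) := by exact_mod_cast h3.trans h4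
    push_cast at h5
    linarith
  classical
  have h0 := Nat.find_spec hex
  obtain ⟨k, hk⟩ : ∃ k, k = Nat.find hex := ⟨_, rfl⟩
  rw [← hk] at h0
  have hk0 : k ≠ 0 := by
    intro h1
    rw [h1, den_zero] at h0
    have := Real.one_le_exp hx
    linarith
  obtain ⟨u, rfl⟩ := Nat.exists_eq_succ_of_ne_zero hk0
  refine ⟨u, ?_, h0⟩
  by_contra hcon
  push Not at hcon
  have := Nat.find_min' hex hcon
  omega

/-- there is an integer polynomial of degree `≤ 2` with coefficients `≤ 4 (|y| + 1)² e^(2 (x + N))` whose value at `y`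
is `≤ 2 e^(2 (x + N) - z)` -/
def NearAt (y : ℝ) (N x z : ℝ) : Prop :=
  ∃ P : ℤ[X], P ≠ 0 ∧ P.natDegree ≤ 2 ∧
    (∀ i, |((P.coeff i : ℤ) : ℝ)| ≤ 4 * (|y| + 1) ^ 2 * Real.exp (2 * (x + N))) ∧
    |(aeval y P : ℝ)| ≤ 2 * Real.exp (2 * (x + N) - z)

lemma near_of_lin (n : ℕ) (N x z : ℝ) (hxN : 0 ≤ x + N) (hden : den y n ≤ Real.exp (x + N))
    (hE : |E y (n + 1)| ≤ Real.exp (- z)) : NearAt y N x z := by
  obtain ⟨P, h0, hd, hc, hv⟩ := exists_lin y n
  have h1 : Real.exp (x + N) ≤ Real.exp (2 * (x + N)) := Real.exp_le_exp.2 (by linarith)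
  have hy := abs_nonneg y
  refine ⟨P, h0, hd, fun i => (hc i).trans ?_, ?_⟩
  · have h2 := one_le_den y n
    have h3 : den y n ≤ Real.exp (2 * (x + N)) := hden.trans h1
    have h4 : (|y| + 1) ≤ 4 * (|y| + 1) ^ 2 := by nlinarith
    exact mul_le_mul h4 h3 (by linarith) (by positivity)
  · rw [hv]
    refine hE.trans ?_
    have h2 : Real.exp (-z) ≤ Real.exp (2 * (x + N) - z) := Real.exp_le_exp.2 (by linarith)
    have h3 := Real.exp_pos (2 * (x + N) - z)
    linarith

/-- **The integer polynomials of a number which is described piece by piece.** -/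
theorem near_of_pieces (T : Finset ℕ) (N X : ℝ) (hN : 0 ≤ N) (hT : PiecesT y T N X) (x z : ℝ) (hx : 0 ≤ x)
    (hxz : x ≤ z) (hzX : z ≤ X)
    (hB : ∀ t ∈ T, ¬ (x < Real.log (den y t) ∧ Real.log (den y t) ≤ z) ∧
      ¬ (x < Real.log (den y (t - 1)) ∧ Real.log (den y (t - 1)) ≤ z)) : NearAt y N x z := by
  have hd0 : ∀ n, 0 < den y n := fun n => by linarith [one_le_den y n]
  have hlt : ∀ n, Real.exp x < den y n → x < Real.log (den y n) := fun n h => by
    rwa [Real.lt_log_iff_exp_lt (hd0 n)]
  have hle : ∀ n, den y n ≤ Real.exp z → Real.log (den y n) ≤ z := fun n h => by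
    rwa [Real.log_le_iff_le_exp (hd0 n)]
  have hexz : Real.exp x ≤ Real.exp z := Real.exp_le_exp.2 hxz
  have hezX : Real.exp z ≤ Real.exp X := Real.exp_le_exp.2 hzX
  have hxN : Real.exp x ≤ Real.exp (x + N) := Real.exp_le_exp.2 (by linarith)
  by_cases hI : ∃ n, letter y n = none ∧ den y n ≤ Real.exp x
  · obtain ⟨n, hn, hnx⟩ := hI
    refine near_of_lin y n N x z (by linarith) (hnx.trans hxN) ?_
    rw [E_of_none y hn, abs_zero]
    exact (Real.exp_pos _).le
  push Not at hI
  obtain ⟨u, hu1, hu2⟩ := exists_last y x hx (fun n hn hnone => absurd hn (not_le.2 (hI n hnone)))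
  by_cases hII : ∃ n, letter y n = none ∧ den y n ≤ Real.exp z
  · -- the continued fraction ends before the scale `z`
    classical
    obtain ⟨n₁, hn₁, hn₁z⟩ := hII
    have hex : ∃ n, letter y n = none := ⟨n₁, hn₁⟩
    obtain ⟨n, hn⟩ : ∃ n, n = Nat.find hex := ⟨_, rfl⟩
    have hnn : letter y n = none := by rw [hn]; exact Nat.find_spec hex
    have hnmin : ∀ j, j < n → letter y j ≠ none := fun j hj => by
      rw [hn] at hj
      exact Nat.find_min hex hj
    have hnz : den y n ≤ Real.exp z := (den_mono y (by rw [hn]; exact Nat.find_min' hex hn₁)).trans hn₁z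
    have hun : u < n := by
      by_contra hcon
      have h1 := den_mono y (not_lt.1 hcon)
      exact absurd (h1.trans hu1) (not_le.2 (hI n hnn))
    have hcop : Copied y N u (n + 1) := by
      refine hT u (n + 1) (by omega) (by simpa using hnz.trans hezX) fun t ht => ?_
      by_contra hcon
      push Not at hcon
      refine (hB t ht).1 ⟨hlt t (hu2.trans_le (den_mono y (by omega))), hle t ?_⟩
      refine (den_mono y hcon.2).trans ?_
      rw [den_succ_of_none y hnn]
      exact hnz
    obtain ⟨r, s, hrs, hs, hcopy⟩ := hcop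
    have hsn : n + 1 ≤ s := by
      by_contra hcon
      have h1 := hcopy n (by omega) (by omega)
      rw [hnn] at h1
      exact hnmin (n - (s - r)) (by omega) h1.symm
    refine near_of_lin y n N x z (by linarith) ?_ ?_
    · calc den y n ≤ den y s := den_mono y (by omega)
        _ ≤ Real.exp N * den y u := hs
        _ ≤ Real.exp N * Real.exp x := mul_le_mul_of_nonneg_left hu1 (Real.exp_pos _).le
        _ = Real.exp (x + N) := by rw [← Real.exp_add]; ring_nf
    · rw [E_of_none y hnn, abs_zero]
      exact (Real.exp_pos _).le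
  push Not at hII
  have hz : 0 ≤ z := hx.trans hxz
  obtain ⟨v, hv1, hv2⟩ := exists_last y z hz (fun n hn hnone => absurd hn (not_le.2 (hII n hnone)))
  have hsome : ∀ j, j < v + 1 → letter y j ≠ none := fun j hj hnone =>
    absurd ((den_mono y (by omega : j ≤ v)).trans hv1) (not_le.2 (hII j hnone))
  have huv : u ≤ v := by
    by_contra hcon
    push Not at hcon
    exact absurd (hv2.trans_le (den_mono y hcon)) (not_lt.2 (hu1.trans hexz))
  rcases huv.eq_or_lt with rfl | huv
  · refine near_of_lin y u N x z (by linarith) (hu1.trans hxN) ((E_succ_le y u).trans ?_)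
    rw [Real.exp_neg, ← one_div]
    exact one_div_le_one_div_of_le (Real.exp_pos _) hv2.le
  · have hcop : Copied y N u (v + 1) := by
      refine hT u (v + 1) (by omega) (by simpa using hv1.trans hezX) fun t ht => ?_
      by_contra hcon
      push Not at hcon
      rcases Nat.lt_or_ge v t with h1 | h1
      · have h2 : t = v + 1 := by omega
        refine (hB t ht).2 ⟨hlt (t - 1) (hu2.trans_le (den_mono y (by omega))), hle (t - 1) ?_⟩
        rw [h2]
        simpa using hv1
      · exact (hB t ht).1 ⟨hlt t (hu2.trans_le (den_mono y (by omega))), hle t ((den_mono y h1).trans hv1)⟩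
    obtain ⟨r, s, hrs, hs, hcopy⟩ := hcop
    have hs' : den y s ≤ Real.exp (x + N) := by
      calc den y s ≤ Real.exp N * den y u := hs
        _ ≤ Real.exp N * Real.exp x := mul_le_mul_of_nonneg_left hu1 (Real.exp_pos _).le
        _ = Real.exp (x + N) := by rw [← Real.exp_add]; ring_nf
    have hy := abs_nonneg y
    rcases Nat.lt_or_ge v s with h1 | h1
    · have h2 : Real.exp z < Real.exp (x + N) := (hv2.trans_le (den_mono y h1)).trans_le hs'
      rw [Real.exp_lt_exp] at h2
      refine ⟨1, one_ne_zero, by simp, fun i => ?_, ?_⟩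
      · have h3 : |(((1 : ℤ[X]).coeff i : ℤ) : ℝ)| ≤ 1 := by
          rw [coeff_one]
          split_ifs <;> simp
        refine h3.trans ?_
        have h4 : 1 ≤ Real.exp (2 * (x + N)) := Real.one_le_exp (by linarith)
        nlinarith
      · rw [map_one, abs_one]
        have h4 : 1 ≤ Real.exp (2 * (x + N) - z) := Real.one_le_exp (by linarith)
        linarith
    · obtain ⟨P, h0, hd, hc, hv⟩ := exists_quad y r s (v + 1) hrs (by omega) hsome hcopy
      refine ⟨P, h0, hd, fun i => (hc i).trans ?_, hv.trans ?_⟩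
      · refine mul_le_mul_of_nonneg_left ?_ (by positivity)
        have h2 := one_le_den y s
        calc den y s ^ 2 ≤ Real.exp (x + N) ^ 2 := pow_le_pow_left₀ (by linarith) hs' 2
          _ = Real.exp (2 * (x + N)) := by rw [← Real.exp_nat_mul]; push_cast; ring_nf
      · have h2 : 2 / den y (v + 1) ≤ 2 / Real.exp z :=
          div_le_div_of_nonneg_left (by norm_num) (Real.exp_pos _) hv2.le
        refine h2.trans ?_
        have h3 : 2 / Real.exp z = 2 * Real.exp (-z) := by rw [Real.exp_neg]; ring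
        rw [h3]
        refine mul_le_mul_of_nonneg_left (Real.exp_le_exp.2 (by linarith)) (by norm_num)

end Pool.Agent.Run7.h360.CF
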