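import Pool.Agent.Run7.h360.CF.Basic

/-!
# The quadratic polynomial of a copy, and the polynomials of a number described piece by piece
-/

set_option autoImplicit false

namespace Pool.Agent.Run7.h360.CF

open GenContFract Polynomial

variable (y : ℝ)

section ints

variable (A B : ℕ → ℤ) (hAB : ∀ n, (GenContFract.of y).contsAux n = ⟨(A n : ℝ), (B n : ℝ)⟩)

include hAB

lemma B_eq (n : ℕ) : (B (n + 1) : ℝ) = den y n := by rw [den_eq, hAB]

lemma B_zero : B 0 = 0 := by
  have h1 : ((GenContFract.of y).contsAux 0).b = 0 := by simp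
  rw [hAB] at h1
  change (B 0 : ℝ) = 0 at h1
  exact_mod_cast h1

lemma B_nonneg (n : ℕ) : 0 ≤ B n := by
  cases n with
  | zero => rw [B_zero y A B hAB]
  | succ n =>
    have h := one_le_den y n
    rw [← B_eq y A B hAB] at h
    have h' : (1 : ℤ) ≤ B (n + 1) := by exact_mod_cast h
    omega

lemma one_le_B (n : ℕ) (hn : 1 ≤ n) : 1 ≤ B n := by
  obtain ⟨m, rfl⟩ := Nat.exists_eq_succ_of_ne_zero (by omega : n ≠ 0)
  have h := one_le_den y m
  rw [← B_eq y A B hAB] at h
  exact_mod_cast h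

lemma B_mono {m n : ℕ} (hmn : m ≤ n) : B m ≤ B n := by
  cases m with
  | zero => rw [B_zero y A B hAB]; exact B_nonneg y A B hAB n
  | succ m =>
    obtain ⟨n', rfl⟩ := Nat.exists_eq_succ_of_ne_zero (by omega : n ≠ 0)
    have h := den_mono y (by omega : m ≤ n')
    rw [← B_eq y A B hAB, ← B_eq y A B hAB] at h
    exact_mod_cast h

lemma B_le (n s : ℕ) (h : n ≤ s + 1) : |(B n : ℝ)| ≤ den y s := by
  have h1 : (0 : ℝ) ≤ B n := by exact_mod_cast B_nonneg y A B hAB n
  rw [abs_of_nonneg h1, ← B_eq y A B hAB]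
  exact_mod_cast B_mono y A B hAB h

lemma A_le (n s : ℕ) (h : n ≤ s + 1) : |(A n : ℝ)| ≤ (|y| + 1) * den y s := by
  have h1 : (A n : ℝ) = B n * y - E y n := by
    unfold E
    rw [hAB]
    ring
  rw [h1]
  have h2 := B_le y A B hAB n s h
  have h3 := abs_E_le_one y n
  have h4 := one_le_den y s
  calc |(B n : ℝ) * y - E y n| ≤ |(B n : ℝ) * y| + |E y n| := abs_sub _ _
    _ ≤ den y s * |y| + den y s := by
        rw [abs_mul]
        exact add_le_add (mul_le_mul_of_nonneg_right h2 (abs_nonneg _)) (h3.trans h4)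
    _ = _ := by ring

lemma lead_ne (r s : ℕ) (hrs : r < s) (hsome : ∀ j, j < s → letter y j ≠ none) :
    B r * B (s + 1) - B s * B (r + 1) ≠ 0 := by
  intro h0
  have hr := det_aux y A B hAB r fun j hj => hsome j (by omega)
  have hs := det_aux y A B hAB s hsome
  have sgn : ∀ n : ℕ, ((-1 : ℤ) ^ n) * (-1) ^ n = 1 := fun n => by
    rw [← mul_pow]; norm_num
  have cr : IsCoprime (B r) (B (r + 1)) := by
    refine ⟨-((-1) ^ r * A (r + 1)), (-1) ^ r * A r, ?_⟩
    have : -((-1) ^ r * A (r + 1)) * B r + (-1) ^ r * A r * B (r + 1) =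
        (-1) ^ r * (A r * B (r + 1) - B r * A (r + 1)) := by ring
    rw [this, hr, sgn]
  have cs : IsCoprime (B s) (B (s + 1)) := by
    refine ⟨-((-1) ^ s * A (s + 1)), (-1) ^ s * A s, ?_⟩
    have : -((-1) ^ s * A (s + 1)) * B s + (-1) ^ s * A s * B (s + 1) =
        (-1) ^ s * (A s * B (s + 1) - B s * A (s + 1)) := by ring
    rw [this, hs, sgn]
  have h1 : B r * B (s + 1) = B s * B (r + 1) := by linarith
  have d1 : B r ∣ B s := cr.dvd_of_dvd_mul_right (h1 ▸ Dvd.intro _ rfl)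
  have d2 : B s ∣ B r := cs.dvd_of_dvd_mul_right (h1 ▸ Dvd.intro _ rfl)
  have e1 : B r = B s := Int.dvd_antisymm (B_nonneg y A B hAB r) (B_nonneg y A B hAB s) d1 d2
  have hs1 := one_le_B y A B hAB s (by omega)
  rcases Nat.eq_zero_or_pos r with hr0 | hr0
  · rw [hr0, B_zero y A B hAB] at e1
    omega
  · have m1 := B_mono y A B hAB (by omega : r ≤ r + 1)
    have m2 := B_mono y A B hAB (by omega : r + 1 ≤ s)
    have e2 : B (r + 1) = B r := by omega
    rw [e2, isCoprime_self, Int.isUnit_iff] at cr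
    have e3 : B r = 1 := by
      rcases cr with h | h
      · exact h
      · omega
    have e4 : B (s + 1) = 1 := by
      rw [e2, ← e1, e3] at h1
      linarith
    obtain ⟨b, hb⟩ := Option.ne_none_iff_exists'.1 (hsome r (by omega))
    have e := aux_some y hb
    have hb1 := letter_ge_one y hb
    have eB : (B (r + 2) : ℝ) = b * B (r + 1) + B r := by
      have h5 : ((GenContFract.of y).contsAux (r + 2)).b = B (r + 2) := by rw [hAB]
      rw [← h5, e, hAB, hAB]
    rw [e2, e3] at eB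
    have h6 : (2 : ℝ) ≤ B (r + 2) := by rw [eB]; push_cast; linarith
    have h7 : (2 : ℤ) ≤ B (r + 2) := by exact_mod_cast h6
    have m3 := B_mono y A B hAB (by omega : r + 2 ≤ s + 1)
    omega

end ints

lemma coeff_val (a b c : ℤ) (i : ℕ) : (C a * X ^ 2 + C b * X + C c : ℤ[X]).coeff i =
    a * (if i = 2 then 1 else 0) + b * (if 1 = i then 1 else 0) + (if i = 0 then c else 0) := by
  rw [coeff_add, coeff_add, coeff_C_mul, coeff_C_mul, coeff_X_pow, coeff_X, coeff_C]

lemma aeval_quad (a b c : ℤ) : (aeval y (C a * X ^ 2 + C b * X + C c : ℤ[X]) : ℝ) = a * y ^ 2 + b * y + c := by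
  rw [map_add, map_add, map_mul, map_mul, map_pow, aeval_X, aeval_C, aeval_C, aeval_C]
  rfl

lemma coeff_quad (a b c : ℤ) (M : ℝ) (ha : |(a : ℝ)| ≤ M) (hb : |(b : ℝ)| ≤ M) (hc : |(c : ℝ)| ≤ M) (i : ℕ) :
    |(((C a * X ^ 2 + C b * X + C c : ℤ[X]).coeff i : ℤ) : ℝ)| ≤ M := by
  have hM : 0 ≤ M := (abs_nonneg _).trans ha
  rw [coeff_val]
  rcases i with _ | _ | _ | i
  · norm_num [hc]
  · norm_num [hb]
  · norm_num [ha]
  · have h1 : ¬ (i + 1 + 1 + 1 = 2) := by omega
    have h2 : ¬ (1 = i + 1 + 1 + 1) := by omega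
    have h3 : ¬ (i + 1 + 1 + 1 = 0) := by omega
    rw [if_neg h1, if_neg h2, if_neg h3]
    simpa using hM

/-- the linear polynomial `q_n X - p_n` -/
theorem exists_lin (n : ℕ) : ∃ P : ℤ[X], P ≠ 0 ∧ P.natDegree ≤ 2 ∧
    (∀ i, |((P.coeff i : ℤ) : ℝ)| ≤ (|y| + 1) * den y n) ∧ |(aeval y P : ℝ)| = |E y (n + 1)| := by
  obtain ⟨A, B, hAB⟩ := exists_ints y
  refine ⟨C 0 * X ^ 2 + C (B (n + 1)) * X + C (-A (n + 1)), ?_, ?_, ?_, ?_⟩
  · intro h
    have h1 := congrArg (fun P : ℤ[X] => P.coeff 1) h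
    simp only [coeff_val] at h1
    norm_num at h1
    have := one_le_B y A B hAB (n + 1) (by omega)
    omega
  · compute_degree
  · have h1 := one_le_den y n
    have h2 := abs_nonneg y
    refine coeff_quad _ _ _ _ ?_ ?_ ?_
    · simp only [Int.cast_zero, abs_zero]; positivity
    · refine (B_le y A B hAB (n + 1) n le_rfl).trans ?_
      nlinarith
    · push_cast
      rw [abs_neg]
      exact A_le y A B hAB (n + 1) n le_rfl
  · congr 1
    rw [aeval_quad]
    unfold E
    rw [hAB]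
    push_cast
    ring

/-- **The quadratic polynomial of a copy.** -/
theorem exists_quad (r s v : ℕ) (hrs : r < s) (hsv : s ≤ v) (hsome : ∀ j, j < v → letter y j ≠ none)
    (hcopy : ∀ i, s ≤ i → i < v → letter y i = letter y (i - (s - r))) :
    ∃ P : ℤ[X], P ≠ 0 ∧ P.natDegree ≤ 2 ∧
      (∀ i, |((P.coeff i : ℤ) : ℝ)| ≤ 4 * (|y| + 1) ^ 2 * den y s ^ 2) ∧ |(aeval y P : ℝ)| ≤ 2 / den y v := by
  obtain ⟨A, B, hAB⟩ := exists_ints y
  have hlead := lead_ne y A B hAB r s hrs fun j hj => hsome j (by omega)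
  have hd1 := one_le_den y s
  have hy := abs_nonneg y
  obtain ⟨Q, hQ⟩ : ∃ Q : ℝ, Q = den y s := ⟨_, rfl⟩
  obtain ⟨W, hW⟩ : ∃ W : ℝ, W = (|y| + 1) * Q := ⟨_, rfl⟩
  have hB : ∀ n, n ≤ s + 1 → |(B n : ℝ)| ≤ Q := fun n hn => by rw [hQ]; exact B_le y A B hAB n s hn
  have hA : ∀ n, n ≤ s + 1 → |(A n : ℝ)| ≤ W := fun n hn => by rw [hW, hQ]; exact A_le y A B hAB n s hn
  have hQ1 : 1 ≤ Q := by rw [hQ]; exact hd1
  have hQW : Q ≤ W := by rw [hW]; nlinarith
  have hB' : ∀ n, n ≤ s + 1 → |(B n : ℝ)| ≤ W := fun n hn => (hB n hn).trans hQW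
  have hprod : ∀ a b : ℝ, |a| ≤ W → |b| ≤ W → |a * b| ≤ W ^ 2 := fun a b ha hb => by
    rw [abs_mul, sq]
    exact mul_le_mul ha hb (abs_nonneg _) (by linarith)
  have hW2 : 4 * (|y| + 1) ^ 2 * den y s ^ 2 = 4 * W ^ 2 := by rw [hW, hQ]; ring
  rw [hW2]
  have hW0 : 0 ≤ W ^ 2 := sq_nonneg _
  refine ⟨C (B r * B (s + 1) - B s * B (r + 1)) * X ^ 2 +
    C (-(B r * A (s + 1) + A r * B (s + 1)) + (B s * A (r + 1) + A s * B (r + 1))) * X +
    C (A r * A (s + 1) - A s * A (r + 1)), ?_, ?_, ?_, ?_⟩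
  · intro h
    have h1 := congrArg (fun P : ℤ[X] => P.coeff 2) h
    simp only [coeff_val] at h1
    norm_num at h1
    exact hlead h1
  · compute_degree
  · refine coeff_quad _ _ _ _ ?_ ?_ ?_
    · push_cast
      have a1 := hprod _ _ (hB' r (by omega)) (hB' (s + 1) le_rfl)
      have a2 := hprod _ _ (hB' s (by omega)) (hB' (r + 1) (by omega))
      rw [abs_le] at a1 a2 ⊢
      constructor <;> linarith
    · push_cast
      have a1 := hprod _ _ (hB' r (by omega)) (hA (s + 1) le_rfl)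
      have a2 := hprod _ _ (hA r (by omega)) (hB' (s + 1) le_rfl)
      have a3 := hprod _ _ (hB' s (by omega)) (hA (r + 1) (by omega))
      have a4 := hprod _ _ (hA s (by omega)) (hB' (r + 1) (by omega))
      rw [abs_le] at a1 a2 a3 a4 ⊢
      constructor <;> linarith
    · push_cast
      have a1 := hprod _ _ (hA r (by omega)) (hA (s + 1) le_rfl)
      have a2 := hprod _ _ (hA s (by omega)) (hA (r + 1) (by omega))
      rw [abs_le] at a1 a2 ⊢
      constructor <;> linarith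
  · have e1 : (aeval y (C (B r * B (s + 1) - B s * B (r + 1)) * X ^ 2 +
        C (-(B r * A (s + 1) + A r * B (s + 1)) + (B s * A (r + 1) + A s * B (r + 1))) * X +
        C (A r * A (s + 1) - A s * A (r + 1)) : ℤ[X]) : ℝ) =
        E y r * E y (s + 1) - E y s * E y (r + 1) := by
      rw [aeval_quad]
      unfold E
      simp only [hAB]
      push_cast
      ring
    rw [e1, det_copy y r s (v - s) fun j hj => ?_]
    · have h1 : s + (v - s) = v := by omega
      rw [h1]
      obtain ⟨v', rfl⟩ := Nat.exists_eq_succ_of_ne_zero (by omega : v ≠ 0)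
      have h2 := E_succ_le y v'
      have h3 := E_succ_le y (v' + 1)
      have h4 := den_mono y (by omega : v' + 1 ≤ v' + 2)
      have h5 := one_le_den y (v' + 1)
      have h6 : 1 / den y (v' + 2) ≤ 1 / den y (v' + 1) :=
        one_div_le_one_div_of_le (by linarith) h4
      have g1 := abs_E_le_one y (r + (v' + 1 - s))
      have g2 := abs_E_le_one y (r + (v' + 1 - s) + 1)
      rw [Nat.succ_eq_add_one]
      calc |E y (r + (v' + 1 - s)) * E y (v' + 1 + 1) - E y (v' + 1) * E y (r + (v' + 1 - s) + 1)|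
          ≤ |E y (r + (v' + 1 - s)) * E y (v' + 1 + 1)| + |E y (v' + 1) * E y (r + (v' + 1 - s) + 1)| :=
            abs_sub _ _
        _ ≤ 1 * (1 / den y (v' + 1)) + (1 / den y (v' + 1)) * 1 := by
            rw [abs_mul, abs_mul]
            refine add_le_add (mul_le_mul g1 (h3.trans h6) (abs_nonneg _) zero_le_one)
              (mul_le_mul h2 g2 (abs_nonneg _) (by positivity))
        _ = 2 / den y (v' + 1) := by ring
    · have h1 := hcopy (s + j) (by omega) (by omega)
      have h2 : s + j - (s - r) = r + j := by omega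
      rw [h2] at h1
      exact ⟨h1.symm, hsome _ (by omega)⟩

end Pool.Agent.Run7.h360.CF
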