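import Pool.Agent.Run7.h360.CF.Pow
import Pool.Agent.Run7.h168.Uni.Dig

/-!
# Möbius images of numbers which satisfy an algebraic relation, uniformly in the relation
-/

set_option autoImplicit false

namespace Pool.Agent.Run7.h360.CF

open Finset Polynomial Pool.Agent.R356 Pool.Agent.N743.SS Pool.Agent.R473.JC Pool.Agent.TH456.TM
  Pool.Agent.Run7.h168.Lin Pool.Agent.Run7.h168.Mult Pool.Agent.Run7.h168.Uni

variable {κ : Type} [Fintype κ]

/-- the tuples of Möbius images of height `≤ h` of the tuples of `S` -/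
def MobH (S : (κ → ℝ) → ℝ → Prop) (u : κ → ℝ) (h : ℝ) : Prop :=
  (∀ i, |u i| ≤ 1) ∧ ∃ w, S w h ∧ ∀ i, ∃ a b c d : ℤ, a * d - b * c ≠ 0 ∧ |(a : ℝ)| ≤ h ∧ |(b : ℝ)| ≤ h ∧
    |(c : ℝ)| ≤ h ∧ |(d : ℝ)| ≤ h ∧ u i * (c * w i + d) = a * w i + b

lemma jointH_mobH (S : (κ → ℝ) → ℝ → Prop) (hS : JointH S) (hS1 : ∀ u h, S u h → ∀ i, |u i| ≤ 1) :
    JointH (MobH S) := by
  classical
  intro D
  obtain ⟨r, C₀, hr, hC₀, hj⟩ := hS D
  obtain ⟨G, hG⟩ : ∃ G : ℝ, G = (D + 1) * 2 ^ D := ⟨_, rfl⟩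
  have hG0 : 0 < G := by rw [hG]; positivity
  refine ⟨r * (D + 2) + D + 1, C₀ * G ^ (-r) / 2 ^ D, by positivity, by positivity, ?_⟩
  rintro u h ⟨hu1, w, hSw, hu⟩ hh P hP hPD H hPH
  have hw1 := hS1 w h hSw
  choose a b c d hdet ha hb hc hd hval using hu
  obtain ⟨i, hi⟩ := hj w h hSw hh (fun i => mobP D (a i) (b i) (c i) (d i) (P i))
    (fun i => mobP_ne D _ _ _ _ (hdet i) _ (hPD i) (hP i)) (fun i => mobP_deg _ _ _ _ _ _)
    ((D + 1) * H * (2 * h) ^ D)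
    (fun i k => mobP_coeff D _ _ _ _ _ H h hh (hPH i) (ha i) (hb i) (hc i) (hd i) k)
  have hH1 : 1 ≤ H := one_le_of_coeff (P i) (hP _) H (hPH _)
  have hH0 : 0 < H := by linarith
  have hh0 : 0 < h := by linarith
  refine ⟨i, ?_⟩
  rw [mobP_eval D _ _ _ _ _ (hPD i) (w i) (u i) (hval i), abs_mul, abs_pow] at hi
  have hcw : |(c i : ℝ) * w i + d i| ≤ 2 * h := by
    calc |(c i : ℝ) * w i + d i| ≤ |(c i : ℝ)| * |w i| + |(d i : ℝ)| := by
          rw [← abs_mul]; exact abs_add_le _ _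
      _ ≤ h * 1 + h := add_le_add (mul_le_mul (hc i) (hw1 i) (abs_nonneg _) hh0.le) (hd i)
      _ = 2 * h := by ring
  have h1 : C₀ * (h * ((D + 1) * H * (2 * h) ^ D)) ^ (-r) ≤ (2 * h) ^ D * |aeval (u i) (P i)| :=
    hi.trans (mul_le_mul_of_nonneg_right (pow_le_pow_left₀ (abs_nonneg _) hcw D) (abs_nonneg _))
  have h2 : h * (((D : ℝ) + 1) * H * (2 * h) ^ D) = G * (H * h ^ (D + 1)) := by rw [hG, mul_pow, pow_succ]; ring
  have hhH : 1 ≤ h * H := one_le_mul_of_one_le_of_one_le hh hH1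
  have hhH0 : 0 < h * H := by linarith
  have h3 : H * h ^ (D + 1) ≤ (h * H) ^ ((D : ℝ) + 2) := by
    have e1 : ((D : ℝ) + 2) = ((D + 2 : ℕ) : ℝ) := by push_cast; ring
    rw [e1, Real.rpow_natCast, mul_pow]
    calc H * h ^ (D + 1) ≤ H ^ (D + 2) * h ^ (D + 2) :=
          mul_le_mul (le_self_pow₀ hH1 (by omega)) (pow_le_pow_right₀ hh (by omega)) (by positivity) (by positivity)
      _ = h ^ (D + 2) * H ^ (D + 2) := by ring
  have h4 : G ^ (-r) * (h * H) ^ (-(r * (D + 2))) ≤ (h * ((D + 1) * H * (2 * h) ^ D)) ^ (-r) := by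
    rw [h2, Real.mul_rpow hG0.le (by positivity)]
    refine mul_le_mul_of_nonneg_left ?_ (by positivity)
    have h5 : ((h * H) ^ ((D : ℝ) + 2)) ^ (-r) ≤ (H * h ^ (D + 1)) ^ (-r) :=
      Real.rpow_le_rpow_of_nonpos (by positivity) h3 (by linarith)
    refine le_trans (le_of_eq ?_) h5
    rw [← Real.rpow_mul hhH0.le]
    congr 1
    ring
  have h5 : (2 * h) ^ D ≤ 2 ^ D * (h * H) ^ ((D : ℝ) + 1) := by
    rw [mul_pow]
    refine mul_le_mul_of_nonneg_left ?_ (by positivity)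
    have e1 : ((D : ℝ) + 1) = ((D + 1 : ℕ) : ℝ) := by push_cast; ring
    rw [e1, Real.rpow_natCast]
    calc h ^ D ≤ (h * H) ^ D := pow_le_pow_left₀ hh0.le (le_mul_of_one_le_right hh0.le hH1) D
      _ ≤ (h * H) ^ (D + 1) := pow_le_pow_right₀ hhH (by omega)
  have h6 : C₀ * (G ^ (-r) * (h * H) ^ (-(r * (D + 2)))) ≤ 2 ^ D * (h * H) ^ ((D : ℝ) + 1) * |aeval (u i) (P i)| :=
    ((mul_le_mul_of_nonneg_left h4 hC₀.le).trans h1).trans (mul_le_mul_of_nonneg_right h5 (abs_nonneg _))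
  have h7 : (h * H) ^ (-(r * (D + 2) + D + 1)) = (h * H) ^ (-(r * (D + 2))) * ((h * H) ^ ((D : ℝ) + 1))⁻¹ := by
    rw [← Real.rpow_neg hhH0.le, ← Real.rpow_add hhH0]
    congr 1
    ring
  rw [h7]
  have hp : 0 < (h * H) ^ ((D : ℝ) + 1) := Real.rpow_pos_of_pos hhH0 _
  calc C₀ * G ^ (-r) / 2 ^ D * ((h * H) ^ (-(r * (D + 2))) * ((h * H) ^ ((D : ℝ) + 1))⁻¹)
      = C₀ * (G ^ (-r) * (h * H) ^ (-(r * (D + 2)))) / (2 ^ D * (h * H) ^ ((D : ℝ) + 1)) := by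
        field_simp
    _ ≤ |aeval (u i) (P i)| := by
        rw [div_le_iff₀ (by positivity)]
        linarith

/-- numbers which satisfy a relation -/
lemma rel_mk (x : ℝ) (m E : ℕ) : ∃ B : ℝ, 1 ≤ B ∧
    ∀ (c : (Fin m → Fin (E + 1)) → Fin (E + 1) → ℤ) (y : Fin m → ℝ) (H : ℝ), 1 ≤ H →
      (∀ s k, |(c s k : ℝ)| ≤ H) → (∀ i, |y i| ≤ H) →
      ∑ s, (∑ k, (c s k : ℝ) * x ^ (k : ℕ)) * ∏ i, y i ^ (s i : ℕ) = 0 →
      (∃ k, 1 ≤ H * |∑ s, (c s k : ℝ) * ∏ i, y i ^ (s i : ℕ)|) →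
      Rel (fun _ : Unit => x) m E (fun i => Int.fract (y i)) (B * H ^ (1 + m * E)) := by
  classical
  obtain ⟨B, hB⟩ : ∃ B : ℝ, B = (E + 1) * ((E + 1) * 4 ^ E) ^ m * (1 + |x|) ^ E := ⟨_, rfl⟩
  have hax := abs_nonneg x
  have hE0 : (0 : ℝ) ≤ E := Nat.cast_nonneg E
  have h41 : (1 : ℝ) ≤ (E + 1) * 4 ^ E := one_le_mul_of_one_le_of_one_le (by linarith) (one_le_pow₀ (by norm_num))
  have hxE : (1 : ℝ) ≤ (1 + |x|) ^ E := one_le_pow₀ (by linarith)
  have hB0 : 1 ≤ ((E : ℝ) + 1) * ((E + 1) * 4 ^ E) ^ m := one_le_mul_of_one_le_of_one_le (by linarith) (one_le_pow₀ h41)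
  have hB1 : 1 ≤ B := by
    rw [hB]
    exact one_le_mul_of_one_le_of_one_le hB0 hxE
  refine ⟨B, hB1, ?_⟩
  intro c y H hH hc hy hrel ⟨k₀, hk₀⟩
  have hH0 : 0 < H := by linarith
  obtain ⟨z, hz⟩ : ∃ z : Fin m → ℤ, z = fun i => ⌊y i⌋ := ⟨_, rfl⟩
  obtain ⟨u, hu⟩ : ∃ u : Fin m → ℝ, u = fun i => Int.fract (y i) := ⟨_, rfl⟩
  rw [← hu]
  have huz : ∀ i, u i + z i = y i := fun i => by rw [hu, hz]; exact Int.fract_add_floor _
  have hu0 : ∀ i, 0 ≤ u i ∧ u i < 1 := fun i => by rw [hu]; exact ⟨Int.fract_nonneg _, Int.fract_lt_one _⟩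
  have hzH : ∀ i, |(z i : ℝ)| ≤ 2 * H := by
    intro i
    have h1 : (z i : ℝ) = y i - u i := by linarith [huz i]
    rw [h1]
    have h2 := abs_le.1 (hy i)
    have h3 := hu0 i
    rw [abs_le]
    constructor <;> linarith
  obtain ⟨cc, hcc⟩ : ∃ cc : (Fin m → Fin (E + 1)) → Fin (E + 1) → ℤ, cc = fun t k => shc (fun s => c s k) z t := ⟨_, rfl⟩
  obtain ⟨B₁, hB₁⟩ : ∃ B₁ : ℝ, B₁ = ((E + 1) * 4 ^ E) ^ m * H ^ (1 + m * E) := ⟨_, rfl⟩
  have hccB : ∀ t k, |(cc t k : ℝ)| ≤ B₁ := by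
    intro t k
    rw [hcc, hB₁]
    exact shc_le _ z H hH (fun s => hc s k) hzH t
  have hsum : ∀ k, ∑ t, (cc t k : ℝ) * ∏ i, u i ^ (t i : ℕ) = ∑ s, (c s k : ℝ) * ∏ i, y i ^ (s i : ℕ) := by
    intro k
    have h1 := shift_eq (fun s => c s k) z u
    simp only [huz] at h1
    rw [hcc]
    exact h1
  obtain ⟨a, ha⟩ : ∃ a : (Fin m → Fin (E + 1)) → MvPolynomial Unit ℤ,
    a = fun t => ∑ k : Fin (E + 1), MvPolynomial.monomial (Finsupp.single () (k : ℕ)) (cc t k) := ⟨_, rfl⟩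
  have hav : ∀ t, MvPolynomial.aeval (fun _ : Unit => x) (a t) = ∑ k, (cc t k : ℝ) * x ^ (k : ℕ) := by
    intro t
    rw [ha]
    show MvPolynomial.aeval (fun _ : Unit => x) (∑ k : Fin (E + 1), _) = _
    rw [map_sum]
    refine Finset.sum_congr rfl fun k _ => ?_
    rw [MvPolynomial.aeval_monomial, Finsupp.prod_single_index (by simp)]
    simp
  obtain ⟨h, hh⟩ : ∃ h : ℝ, h = B * H ^ (1 + m * E) := ⟨_, rfl⟩
  rw [← hh]
  have hHp : 1 ≤ H ^ (1 + m * E) := one_le_pow₀ hH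
  have hHh : H ≤ h := by
    rw [hh]
    calc H ≤ H ^ (1 + m * E) := le_self_pow₀ hH (by omega)
      _ ≤ _ := le_mul_of_one_le_left (by linarith) hB1
  have hB₁h : (E + 1) * B₁ * (1 + |x|) ^ E = h := by rw [hh, hB, hB₁]; ring
  have hB₁0 : 0 ≤ B₁ := by rw [hB₁]; positivity
  refine ⟨fun i => ?_, a, fun t => ?_, fun t => ?_, fun t => ?_, ?_, Finsupp.single () (k₀ : ℕ), ?_⟩
  · rw [abs_of_nonneg (hu0 i).1]; exact (hu0 i).2.le
  · have h1 : a t ∈ degM (ι := Unit) E := by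
      rw [ha]
      refine sum_mem fun k _ => ?_
      refine (MvPolynomial.totalDegree_monomial_le _ _).trans ?_
      rw [Finsupp.sum_single_index rfl]
      have := k.2
      show (k : ℕ) ≤ E
      omega
    exact h1
  · rw [ha]
    refine (lenM_sum _ _).trans ?_
    refine (Finset.sum_le_sum (g := fun _ => B₁) fun k _ => (lenM_mon _ _).trans (hccB t k)).trans ?_
    rw [Finset.sum_const, Finset.card_univ, Fintype.card_fin, nsmul_eq_mul, ← hB₁h]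
    push_cast
    exact le_mul_of_one_le_right (by positivity) hxE
  · rw [hav]
    refine (Finset.abs_sum_le_sum_abs _ _).trans ?_
    refine (Finset.sum_le_sum (g := fun _ => B₁ * (1 + |x|) ^ E) fun k _ => ?_).trans ?_
    · rw [abs_mul, abs_pow]
      refine mul_le_mul (hccB t k) ?_ (by positivity) hB₁0
      have h2 : |x| ^ (k : ℕ) ≤ (1 + |x|) ^ (k : ℕ) := pow_le_pow_left₀ hax (by linarith) _
      exact h2.trans (pow_le_pow_right₀ (by linarith) (by have := k.2; omega))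
    · rw [Finset.sum_const, Finset.card_univ, Fintype.card_fin, nsmul_eq_mul, ← hB₁h]
      push_cast
      exact le_of_eq (by ring)
  · have h1 : ∀ t, MvPolynomial.aeval (fun _ : Unit => x) (a t) * ∏ i, u i ^ (t i : ℕ) =
        ∑ k : Fin (E + 1), x ^ (k : ℕ) * ((cc t k : ℝ) * ∏ i, u i ^ (t i : ℕ)) := by
      intro t
      rw [hav, Finset.sum_mul]
      exact Finset.sum_congr rfl fun k _ => by ring
    simp only [h1]
    rw [Finset.sum_comm]
    have h2 : ∑ k : Fin (E + 1), ∑ t, x ^ (k : ℕ) * ((cc t k : ℝ) * ∏ i, u i ^ (t i : ℕ)) =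
        ∑ k : Fin (E + 1), ∑ s, x ^ (k : ℕ) * ((c s k : ℝ) * ∏ i, y i ^ (s i : ℕ)) := by
      refine Finset.sum_congr rfl fun k _ => ?_
      rw [← Finset.mul_sum, ← Finset.mul_sum, hsum k]
    rw [h2, Finset.sum_comm, ← hrel]
    refine Finset.sum_congr rfl fun s _ => ?_
    rw [Finset.sum_mul]
    exact Finset.sum_congr rfl fun k _ => by ring
  · have h1 : ∀ t, (a t).coeff (Finsupp.single () (k₀ : ℕ)) = cc t k₀ := by
      intro t
      rw [ha]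
      show MvPolynomial.coeff _ (∑ k : Fin (E + 1), _) = _
      rw [MvPolynomial.coeff_sum, Finset.sum_eq_single k₀]
      · rw [MvPolynomial.coeff_monomial, if_pos rfl]
      · intro k _ hk
        rw [MvPolynomial.coeff_monomial, if_neg]
        intro h2
        exact hk (Fin.ext (Finsupp.single_injective () h2))
      · intro h2; exact absurd (Finset.mem_univ _) h2
    simp only [h1]
    rw [hsum k₀]
    exact hk₀.trans (mul_le_mul_of_nonneg_right hHh (abs_nonneg _))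

/-- **Möbius images of numbers which satisfy a relation.** -/
theorem simple_rel (x : ℝ) (hx : MeasT (x : ℂ)) (m E r : ℕ) : ∃ A : ℝ, 1 ≤ A ∧
    ∀ (c : (Fin m → Fin (E + 1)) → Fin (E + 1) → ℤ) (w : Fin m → ℝ) (H : ℝ), 1 ≤ H →
      (∀ s k, |(c s k : ℝ)| ≤ H) → (∀ i, |w i| ≤ H) →
      ∑ s, (∑ k, (c s k : ℝ) * x ^ (k : ℕ)) * ∏ i, w i ^ (s i : ℕ) = 0 →
      (∃ k, 1 ≤ H * |∑ s, (c s k : ℝ) * ∏ i, w i ^ (s i : ℕ)|) →
      ∀ y : Fin m → ℝ, (∀ i, Image H (w i) (y i)) →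
      ∀ (K : Fin m → ℕ) (N : Fin m → ℝ) (X : ℝ), (∀ i, 0 ≤ N i) → (∀ i, Simple r (K i) (N i) X (y i)) →
      X ≤ A ^ (∑ i, K i + 1) * (∑ i, N i + Real.log H + 1) := by
  classical
  have hR1 : ∀ u h, Rel (fun _ : Unit => x) m E u h → ∀ i, |u i| ≤ 1 := fun u h hS => hS.1
  obtain ⟨A, hA, h⟩ := simple_joint (MobH (Rel (fun _ : Unit => x) m E))
    (jointH_mobH _ (jointH_rel (fun _ : Unit => x) (measM_unit x hx) m E) hR1) (fun u h hS => hS.1) r
  obtain ⟨B, hB, hrel⟩ := rel_mk x m E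
  obtain ⟨G, hG⟩ : ∃ G : ℝ, G = 1 + Real.log (16 * B) + (3 + m * E) := ⟨_, rfl⟩
  have hlB : 0 ≤ Real.log (16 * B) := Real.log_nonneg (by linarith)
  have hmE : (0 : ℝ) ≤ m * E := by positivity
  have hG1 : 1 ≤ G := by rw [hG]; linarith
  refine ⟨G * A, one_le_mul_of_one_le_of_one_le hG1 hA, ?_⟩
  intro c w H hH hc hw hcw hnd y hy K N X hN hs
  have hH0 : 0 < H := by linarith
  have h1 := hrel c w H hH hc hw hcw hnd
  obtain ⟨h', hh'⟩ : ∃ h' : ℝ, h' = 16 * B * H ^ (3 + m * E) := ⟨_, rfl⟩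
  have hle : B * H ^ (1 + m * E) ≤ h' := by
    rw [hh']
    have h2 : H ^ (1 + m * E) ≤ H ^ (3 + m * E) := pow_le_pow_right₀ hH (by omega)
    have h3 : 0 < H ^ (3 + m * E) := by positivity
    nlinarith
  have hRel : Rel (fun _ : Unit => x) m E (fun i => Int.fract (w i)) h' := by
    obtain ⟨g1, a, g2, g3, g4, g5, d, g6⟩ := h1
    exact ⟨g1, a, g2, fun s => (g3 s).trans hle, fun s => (g4 s).trans hle, g5, d,
      g6.trans (mul_le_mul_of_nonneg_right hle (abs_nonneg _))⟩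
  have hh1 : 1 ≤ h' := by
    rw [hh']
    have h2 : 1 ≤ H ^ (3 + m * E) := one_le_pow₀ hH
    nlinarith
  have hfl : ∀ v : ℝ, |v| ≤ H → |((⌊v⌋ : ℤ) : ℝ)| ≤ 2 * H := by
    intro v hv
    have h2 := abs_le.1 hv
    have h3 := Int.floor_le v
    have h4 := Int.lt_floor_add_one v
    rw [abs_le]
    constructor <;> linarith
  have hH3 : 16 * H ^ 3 ≤ h' := by
    rw [hh']
    have h2 : H ^ 3 ≤ H ^ (3 + m * E) := pow_le_pow_right₀ hH (by omega)
    have h3 : 0 < H ^ (3 + m * E) := by positivity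
    nlinarith
  have hM : MobH (Rel (fun _ : Unit => x) m E) (fun i => Int.fract (y i)) h' := by
    refine ⟨fun i => ?_, fun i => Int.fract (w i), hRel, fun i => ?_⟩
    · rw [abs_of_nonneg (Int.fract_nonneg _)]
      exact (Int.fract_lt_one _).le
    · obtain ⟨hyH, a, b, c, d, hdet, ha, hb, hc, hd, hv⟩ := hy i
      have hp := hfl _ (hw i)
      have hq := hfl _ hyH
      have hH2 : H ≤ H ^ 2 := by nlinarith
      have hH23 : H ^ 2 ≤ H ^ 3 := pow_le_pow_right₀ hH (by omega)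
      have hle1 : ∀ e : ℝ, |e| ≤ H → ∀ f : ℝ, |f| ≤ H → |e + f * ((⌊w i⌋ : ℤ) : ℝ)| ≤ 3 * H ^ 2 := by
        intro e he f hf
        calc |e + f * ((⌊w i⌋ : ℤ) : ℝ)| ≤ |e| + |f * ((⌊w i⌋ : ℤ) : ℝ)| := abs_add_le _ _
          _ ≤ H + H * (2 * H) := by
            rw [abs_mul]
            exact add_le_add he (mul_le_mul hf hp (abs_nonneg _) hH0.le)
          _ ≤ 3 * H ^ 2 := by nlinarith
      have hle2 : ∀ e f : ℝ, |e| ≤ 3 * H ^ 2 → |f| ≤ 3 * H ^ 2 → |e - f * ((⌊y i⌋ : ℤ) : ℝ)| ≤ h' := by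
        intro e f he hf
        refine le_trans ?_ hH3
        calc |e - f * ((⌊y i⌋ : ℤ) : ℝ)| ≤ |e| + |f * ((⌊y i⌋ : ℤ) : ℝ)| := abs_sub _ _
          _ ≤ 3 * H ^ 2 + 3 * H ^ 2 * (2 * H) := by
            rw [abs_mul]
            exact add_le_add he (mul_le_mul hf hq (abs_nonneg _) (by positivity))
          _ = 3 * H ^ 2 + 6 * H ^ 3 := by ring
          _ ≤ 16 * H ^ 3 := by nlinarith [pow_pos hH0 3]
      have h3H : ∀ e : ℝ, |e| ≤ H → |e| ≤ 3 * H ^ 2 := fun e he => he.trans (by nlinarith)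
      refine ⟨a - c * ⌊y i⌋, (b + a * ⌊w i⌋) - (d + c * ⌊w i⌋) * ⌊y i⌋, c, d + c * ⌊w i⌋, ?_, ?_, ?_, ?_, ?_, ?_⟩
      · have e1 : (a - c * ⌊y i⌋) * (d + c * ⌊w i⌋) - ((b + a * ⌊w i⌋) - (d + c * ⌊w i⌋) * ⌊y i⌋) * c =
            a * d - b * c := by ring
        rw [e1]; exact hdet
      · push_cast; exact hle2 _ _ (h3H _ ha) (h3H _ hc)
      · push_cast; exact hle2 _ _ (hle1 _ hb _ ha) (hle1 _ hd _ hc)
      · refine hc.trans (le_trans ?_ hH3)
        nlinarith [pow_pos hH0 3]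
      · push_cast
        refine (hle1 _ hd _ hc).trans (le_trans ?_ hH3)
        nlinarith [pow_pos hH0 3]
      · have h5 : Int.fract (y i) = y i - ⌊y i⌋ := rfl
        have h6 : Int.fract (w i) = w i - ⌊w i⌋ := rfl
        show Int.fract (y i) * (_ * Int.fract (w i) + _) = _ * Int.fract (w i) + _
        rw [h5, h6]
        push_cast
        linear_combination hv
  have h2 := h _ h' hM hh1 y (fun i => rfl) K N X hN hs
  refine h2.trans ?_
  have hlH : 0 ≤ Real.log H := Real.log_nonneg hH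
  have hN0 : 0 ≤ ∑ i, N i := Finset.sum_nonneg fun i _ => hN i
  have hlog : Real.log h' = Real.log (16 * B) + (3 + m * E) * Real.log H := by
    rw [hh', Real.log_mul (by positivity) (by positivity), Real.log_pow]
    push_cast
    ring
  have h5 : ∑ i, N i + Real.log h' + 1 ≤ G * (∑ i, N i + Real.log H + 1) := by
    rw [hlog, hG]
    have e1 : 0 ≤ Real.log (16 * B) * (∑ i, N i + Real.log H) := by positivity
    have e2 : 0 ≤ (3 + (m : ℝ) * E) * (∑ i, N i + 1) := by positivity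
    calc ∑ i, N i + (Real.log (16 * B) + (3 + m * E) * Real.log H) + 1
        ≤ ∑ i, N i + (Real.log (16 * B) + (3 + m * E) * Real.log H) + 1 + Real.log H +
          Real.log (16 * B) * (∑ i, N i + Real.log H) + (3 + (m : ℝ) * E) * (∑ i, N i + 1) := by linarith
      _ = (1 + Real.log (16 * B) + (3 + m * E)) * (∑ i, N i + Real.log H + 1) := by ring
  have h6 : G * A ^ (∑ i, K i + 1) ≤ (G * A) ^ (∑ i, K i + 1) := by
    rw [mul_pow]
    exact mul_le_mul_of_nonneg_right (le_self_pow₀ hG1 (by omega)) (by positivity)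
  calc A ^ (∑ i, K i + 1) * (∑ i, N i + Real.log h' + 1)
      ≤ A ^ (∑ i, K i + 1) * (G * (∑ i, N i + Real.log H + 1)) :=
        mul_le_mul_of_nonneg_left h5 (by positivity)
    _ = G * A ^ (∑ i, K i + 1) * (∑ i, N i + Real.log H + 1) := by ring
    _ ≤ _ := mul_le_mul_of_nonneg_right h6 (by linarith)

end Pool.Agent.Run7.h360.CF
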