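import Pool.Agent.Run7.h360.CF.Cramer
import Pool.Agent.Run7.h360.CF.Rel

/-!
# Simple linear forms in powers of `x` and in arbitrary real numbers
-/

set_option autoImplicit false

namespace Pool.Agent.Run7.h360.CF

open Finset Polynomial Pool.Agent.R356 Pool.Agent.N743.SS Pool.Agent.R473.JC Pool.Agent.TH456.TM
  Pool.Agent.Run7.h168.Lin Pool.Agent.Run7.h168.Mult Pool.Agent.Run7.h168.Uni

lemma abs_sum_le_card {ι : Type} [Fintype ι] (f : ι → ℝ) (B : ℝ) (h : ∀ i, |f i| ≤ B) :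
    |∑ i, f i| ≤ Fintype.card ι * B := by
  refine (Finset.abs_sum_le_sum_abs _ _).trans ((Finset.sum_le_sum fun i _ => h i).trans ?_)
  rw [Finset.sum_const, Finset.card_univ, nsmul_eq_mul]

/-- the relation `∑ α_k x^(k+1) + γ = ∑ μ_i w_i` -/
lemma lin_rel (x : ℝ) (d m : ℕ) (α : Fin d → ℤ) (γ : ℤ) (μ : Fin m → ℤ) (w : Fin m → ℝ) (H : ℝ) (hH : 1 ≤ H)
    (hα : ∀ k, |(α k : ℝ)| ≤ H) (hγ : |(γ : ℝ)| ≤ H) (hμ : ∀ i, |(μ i : ℝ)| ≤ H) (k₀ : Fin d) (hk₀ : α k₀ ≠ 0)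
    (h : ∑ k, (α k : ℝ) * x ^ ((k : ℕ) + 1) + γ = ∑ i, (μ i : ℝ) * w i) :
    ∃ c : (Fin m → Fin (d + 1 + 1)) → Fin (d + 1 + 1) → ℤ, (∀ s k, |(c s k : ℝ)| ≤ (2 + m) * H) ∧
      ∑ s, (∑ k, (c s k : ℝ) * x ^ (k : ℕ)) * ∏ i, w i ^ (s i : ℕ) = 0 ∧
      ∃ k, 1 ≤ ((2 + m) * H) * |∑ s, (c s k : ℝ) * ∏ i, w i ^ (s i : ℕ)| := by
  classical
  -- the coefficients of `x^k` in `∑ α_k x^(k+1) + γ`
  obtain ⟨p, hp⟩ : ∃ p : Fin (d + 1 + 1) → ℤ,
    p = fun k : Fin (d + 1 + 1) => if hk : (k : ℕ) = 0 then γ else if hk' : (k : ℕ) - 1 < d then α ⟨(k : ℕ) - 1, hk'⟩ else 0 := ⟨_, rfl⟩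
  obtain ⟨δ, hδ⟩ : ∃ δ : Fin m → (Fin m → Fin (d + 1 + 1)), δ = fun i => Pi.single i 1 := ⟨_, rfl⟩
  have hm0 : (0 : ℝ) ≤ m := Nat.cast_nonneg m
  have hpH : ∀ k, |(p k : ℝ)| ≤ H := by
    intro k
    rw [hp]
    dsimp only
    split_ifs with h1 h2
    · exact hγ
    · exact hα _
    · push_cast; rw [abs_zero]; linarith
  have hpsum : ∑ k : Fin (d + 1 + 1), (p k : ℝ) * x ^ (k : ℕ) = ∑ k, (α k : ℝ) * x ^ ((k : ℕ) + 1) + γ := by
    rw [Fin.sum_univ_succ, Fin.sum_univ_castSucc]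
    have e0 : p 0 = γ := by rw [hp]; simp
    have e1 : p (Fin.last d).succ = 0 := by
      rw [hp]
      simp
    have e2 : ∀ k : Fin d, p (k.castSucc.succ) = α k := by
      intro k
      rw [hp]
      simp
    rw [e0, e1]
    simp only [e2]
    simp
    ring
  have hδ0 : ∀ i, δ i ≠ 0 := by
    intro i h1
    have h2 := congrFun h1 i
    rw [hδ] at h2
    simp at h2
  have hδinj : Function.Injective δ := by
    intro i j hij
    by_contra hne
    have h2 := congrFun hij i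
    rw [hδ] at h2
    simp [Pi.single_eq_of_ne hne] at h2
  have hδp : ∀ i, ∏ j, w j ^ ((δ i) j : ℕ) = w i := by
    intro i
    rw [Finset.prod_eq_single i]
    · rw [hδ]
      simp
    · intro j _ hj
      rw [hδ]
      simp [Pi.single_eq_of_ne hj]
    · intro h1; exact absurd (Finset.mem_univ _) h1
  have h0p : ∏ j, w j ^ (((0 : Fin m → Fin (d + 1 + 1)) j) : ℕ) = 1 := by simp
  refine ⟨fun s k => (if s = 0 then p k else 0) - ∑ i, (if s = δ i ∧ k = 0 then μ i else 0), fun s k => ?_, ?_,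
    ⟨(k₀ : ℕ) + 1, by have := k₀.2; omega⟩, ?_⟩
  · rw [Int.cast_sub, Int.cast_sum]
    have h1 : |(((if s = 0 then p k else 0 : ℤ)) : ℝ)| ≤ H := by
      split_ifs
      · exact hpH k
      · push_cast; rw [abs_zero]; linarith
    have h2 : |∑ i, (((if s = δ i ∧ k = 0 then μ i else 0 : ℤ)) : ℝ)| ≤ m * H := by
      have := abs_sum_le_card (fun i => (((if s = δ i ∧ k = 0 then μ i else 0 : ℤ)) : ℝ)) H (fun i => by
        split_ifs
        · exact hμ i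
        · push_cast; rw [abs_zero]; linarith)
      rwa [Fintype.card_fin] at this
    refine (abs_sub _ _).trans ?_
    linarith
  · obtain ⟨V, hV⟩ : ∃ V : ℝ, V = ∑ k : Fin (d + 1 + 1), (p k : ℝ) * x ^ (k : ℕ) := ⟨_, rfl⟩
    have h1 : ∀ s : Fin m → Fin (d + 1 + 1), ∑ k : Fin (d + 1 + 1),
        ((((if s = 0 then p k else 0) - ∑ i, (if s = δ i ∧ k = 0 then μ i else 0) : ℤ)) : ℝ) * x ^ (k : ℕ) =
        (if s = 0 then V else 0) - ∑ i, (if s = δ i then (μ i : ℝ) else 0) := by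
      intro s
      rw [hV]
      push_cast
      simp only [sub_mul, Finset.sum_sub_distrib]
      congr 1
      · by_cases h2 : s = 0
        · simp [h2]
        · simp [h2]
      · simp only [Finset.sum_mul]
        rw [Finset.sum_comm]
        refine Finset.sum_congr rfl fun i _ => ?_
        by_cases h2 : s = δ i
        · simp [h2]
        · simp [h2]
    simp only [h1, sub_mul, Finset.sum_sub_distrib, ite_mul, zero_mul, Finset.sum_mul]
    rw [Finset.sum_ite_eq' Finset.univ (0 : Fin m → Fin (d + 1 + 1)), if_pos (Finset.mem_univ _), h0p, mul_one]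
    rw [Finset.sum_comm]
    have h3 : ∀ i, ∑ s : Fin m → Fin (d + 1 + 1), (if s = δ i then (μ i : ℝ) * ∏ j, w j ^ (s j : ℕ) else 0) =
        μ i * w i := by
      intro i
      rw [Finset.sum_ite_eq' Finset.univ (δ i), if_pos (Finset.mem_univ _), hδp]
    simp only [h3]
    rw [hV, hpsum, h, sub_self]
  · have hk0 : (⟨(k₀ : ℕ) + 1, by have := k₀.2; omega⟩ : Fin (d + 1 + 1)) ≠ 0 := by
      intro h1
      have h2 := congrArg Fin.val h1
      simp at h2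
    have hpk : p ⟨(k₀ : ℕ) + 1, by have := k₀.2; omega⟩ = α k₀ := by
      rw [hp]
      simp
    have h1 : ∑ s : Fin m → Fin (d + 1 + 1), ((((if s = 0 then p ⟨(k₀ : ℕ) + 1, by have := k₀.2; omega⟩ else 0) -
        ∑ i, (if s = δ i ∧ (⟨(k₀ : ℕ) + 1, by have := k₀.2; omega⟩ : Fin (d + 1 + 1)) = 0 then μ i else 0) : ℤ)) : ℝ) *
        ∏ j, w j ^ (s j : ℕ) = α k₀ := by
      simp only [hk0, and_false, if_false, Finset.sum_const_zero, sub_zero, hpk]
      push_cast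
      simp only [ite_mul, zero_mul]
      rw [Finset.sum_ite_eq' Finset.univ (0 : Fin m → Fin (d + 1 + 1)), if_pos (Finset.mem_univ _), h0p, mul_one]
    rw [h1]
    have h2 : (1 : ℝ) ≤ |(α k₀ : ℝ)| := by
      have := Int.one_le_abs hk₀
      exact_mod_cast this
    have h3 : 1 ≤ (2 + m) * H := by nlinarith
    exact one_le_mul_of_one_le_of_one_le h3 h2

/-- **Simple linear forms.** -/
theorem simple_span (x : ℝ) (hx : MeasT (x : ℂ)) (d n r : ℕ) : ∃ A : ℝ, 1 ≤ A ∧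
    ∀ (t : Fin n → ℝ) (H : ℝ) (K : ℕ) (N X : ℝ), 1 ≤ H → 0 ≤ N → A ^ (K + 1) * (N + Real.log H + 1) < X →
      ∀ u ∈ Submodule.span ℚ (qv '' {a : Fin d ⊕ Fin n → ℤ | (∀ i, |(a i : ℝ)| ≤ H) ∧ ∃ c m : ℤ, 1 ≤ m ∧
        (m : ℝ) ≤ H ∧ Simple r K N X ((∑ k : Fin d, (a (Sum.inl k) : ℝ) * x ^ ((k : ℕ) + 1) +
          ∑ j : Fin n, (a (Sum.inr j) : ℝ) * t j + c) / m)}),
        (∀ j : Fin n, u (Sum.inr j) = 0) → u = 0 := by
  classical
  obtain ⟨A, hA, hmain⟩ := simple_joint (Rel (fun _ : Unit => x) (n + 1) (d + 1))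
    (jointH_rel (fun _ : Unit => x) (measM_unit x hx) (n + 1) (d + 1)) (fun u h hS => hS.1) r
  obtain ⟨B, hB, hrel⟩ := rel_mk x (n + 1) (d + 1)
  obtain ⟨G₀, hG₀⟩ : ∃ G₀ : ℝ, G₀ = 1 + n + ∑ k : Fin d, |x| ^ ((k : ℕ) + 1) := ⟨_, rfl⟩
  have hxs : 0 ≤ ∑ k : Fin d, |x| ^ ((k : ℕ) + 1) := Finset.sum_nonneg fun k _ => by positivity
  have hn0 : (0 : ℝ) ≤ n := Nat.cast_nonneg n
  have hG₀1 : 1 ≤ G₀ := by rw [hG₀]; linarith
  obtain ⟨Q, hQ⟩ : ∃ Q : ℝ, Q = (n + 3) * ((n + 1) * ((n + 1) * n.factorial * G₀)) := ⟨_, rfl⟩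
  have hfac : (1 : ℝ) ≤ n.factorial := by exact_mod_cast Nat.one_le_iff_ne_zero.2 (Nat.factorial_ne_zero n)
  have hQ1 : 1 ≤ Q := by
    rw [hQ]
    refine one_le_mul_of_one_le_of_one_le (by linarith) (one_le_mul_of_one_le_of_one_le (by linarith)
      (one_le_mul_of_one_le_of_one_le (one_le_mul_of_one_le_of_one_le (by linarith) hfac) hG₀1))
  obtain ⟨e, he⟩ : ∃ e : ℕ, e = 1 + (n + 1) * (d + 1) := ⟨_, rfl⟩
  obtain ⟨G, hG⟩ : ∃ G : ℝ, G = (n + 2) + Real.log B + e * (Real.log Q + (n + 2)) := ⟨_, rfl⟩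
  have hlB : 0 ≤ Real.log B := Real.log_nonneg hB
  have hlQ : 0 ≤ Real.log Q := Real.log_nonneg hQ1
  have he0 : (0 : ℝ) ≤ e := Nat.cast_nonneg e
  have hG1 : 1 ≤ G := by
    rw [hG]
    have : 0 ≤ (e : ℝ) * (Real.log Q + (n + 2)) := by positivity
    linarith
  refine ⟨A ^ (n + 1) * G, one_le_mul_of_one_le_of_one_le (one_le_pow₀ hA) hG1, ?_⟩
  intro t H K N X hH hN hX u hu hut
  by_contra hu0
  have hH0 : 0 < H := by linarith
  obtain ⟨M, l, hM, hl1, ⟨k₀, hk₀⟩, hl2⟩ := elim _ H hH (fun a ha i => ha.1 i) u hu hu0 hut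
  have hMH : ∀ i j, |(M i j : ℝ)| ≤ H := fun i j => (hM i).1 j
  have hM2 := fun i => (hM i).2
  choose c m hm1 hmH hs using hM2
  obtain ⟨y, hy⟩ : ∃ y : Fin (n + 1) → ℝ, y = fun i => (∑ k : Fin d, (M i (Sum.inl k) : ℝ) * x ^ ((k : ℕ) + 1) +
          ∑ j : Fin n, (M i (Sum.inr j) : ℝ) * t j + c i) / m i := ⟨_, rfl⟩
  have hs' : ∀ i, Simple r K N X (y i) := fun i => by rw [hy]; exact hs i
  have hm0 : ∀ i, (m i : ℝ) ≠ 0 := fun i => by
    have h1 : (1 : ℝ) ≤ m i := by exact_mod_cast hm1 i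
    linarith
  have hmi : ∀ i, |(m i : ℝ)| ≤ H := fun i => by
    have h1 : (1 : ℝ) ≤ m i := by exact_mod_cast hm1 i
    rw [abs_of_pos (by linarith)]
    exact hmH i
  -- the integers
  obtain ⟨c', hc'⟩ : ∃ c' : Fin (n + 1) → ℤ, c' = fun i => c i - m i * ⌊y i⌋ +
    ∑ j : Fin n, M i (Sum.inr j) * ⌊t j⌋ := ⟨_, rfl⟩
  have hmy : ∀ i, (m i : ℝ) * Int.fract (y i) = ∑ k : Fin d, (M i (Sum.inl k) : ℝ) * x ^ ((k : ℕ) + 1) +
      ∑ j : Fin n, (M i (Sum.inr j) : ℝ) * Int.fract (t j) + c' i := by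
    intro i
    have h1 : (m i : ℝ) * y i = ∑ k : Fin d, (M i (Sum.inl k) : ℝ) * x ^ ((k : ℕ) + 1) +
          ∑ j : Fin n, (M i (Sum.inr j) : ℝ) * t j + c i := by
      rw [hy]
      field_simp [hm0 i]
    have h2 : ∑ j : Fin n, (M i (Sum.inr j) : ℝ) * t j =
        ∑ j : Fin n, (M i (Sum.inr j) : ℝ) * Int.fract (t j) + ∑ j : Fin n, (M i (Sum.inr j) : ℝ) * ⌊t j⌋ := by
      rw [← Finset.sum_add_distrib]
      refine Finset.sum_congr rfl fun j _ => ?_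
      rw [← mul_add, Int.fract_add_floor]
    have h3 : Int.fract (y i) = y i - ⌊y i⌋ := rfl
    rw [h3, hc', mul_sub, h1, h2]
    push_cast
    ring
  have hfr : ∀ z : ℝ, |Int.fract z| ≤ 1 := fun z => by
    rw [abs_of_nonneg (Int.fract_nonneg z)]
    exact (Int.fract_lt_one z).le
  have hc'H : ∀ i, |(c' i : ℝ)| ≤ H * G₀ := by
    intro i
    have h1 : (c' i : ℝ) = (m i : ℝ) * Int.fract (y i) - ∑ k : Fin d, (M i (Sum.inl k) : ℝ) * x ^ ((k : ℕ) + 1) -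
      ∑ j : Fin n, (M i (Sum.inr j) : ℝ) * Int.fract (t j) := by rw [hmy i]; ring
    rw [h1]
    have h2 : |(m i : ℝ) * Int.fract (y i)| ≤ H := by
      rw [abs_mul]
      calc _ ≤ H * 1 := mul_le_mul (hmi i) (hfr _) (abs_nonneg _) hH0.le
        _ = H := mul_one H
    have h3 : |∑ k : Fin d, (M i (Sum.inl k) : ℝ) * x ^ ((k : ℕ) + 1)| ≤ H * ∑ k : Fin d, |x| ^ ((k : ℕ) + 1) := by
      rw [Finset.mul_sum]
      refine (Finset.abs_sum_le_sum_abs _ _).trans (Finset.sum_le_sum fun k _ => ?_)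
      rw [abs_mul, abs_pow]
      exact mul_le_mul_of_nonneg_right (hMH _ _) (by positivity)
    have h4 : |∑ j : Fin n, (M i (Sum.inr j) : ℝ) * Int.fract (t j)| ≤ n * H := by
      have := abs_sum_le_card (fun j : Fin n => (M i (Sum.inr j) : ℝ) * Int.fract (t j)) H (fun j => by
        rw [abs_mul]
        calc _ ≤ H * 1 := mul_le_mul (hMH _ _) (hfr _) (abs_nonneg _) hH0.le
          _ = H := mul_one H)
      rwa [Fintype.card_fin] at this
    calc _ ≤ |(m i : ℝ) * Int.fract (y i)| + |∑ k : Fin d, (M i (Sum.inl k) : ℝ) * x ^ ((k : ℕ) + 1)| +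
          |∑ j : Fin n, (M i (Sum.inr j) : ℝ) * Int.fract (t j)| :=
          (abs_sub _ _).trans (add_le_add (abs_sub _ _) le_rfl)
      _ ≤ H + H * ∑ k : Fin d, |x| ^ ((k : ℕ) + 1) + n * H := add_le_add (add_le_add h2 h3) h4
      _ = H * G₀ := by rw [hG₀]; ring
  -- the relation
  obtain ⟨α, hα⟩ : ∃ α : Fin d → ℤ, α = fun k => ∑ i, l i * M i (Sum.inl k) := ⟨_, rfl⟩
  obtain ⟨γ, hγ⟩ : ∃ γ : ℤ, γ = ∑ i, l i * c' i := ⟨_, rfl⟩
  have hrelation : ∑ k, (α k : ℝ) * x ^ ((k : ℕ) + 1) + γ = ∑ i, ((l i * m i : ℤ) : ℝ) * Int.fract (y i) := by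
    have h1 : ∀ i, ((l i * m i : ℤ) : ℝ) * Int.fract (y i) = (l i : ℝ) *
        (∑ k : Fin d, (M i (Sum.inl k) : ℝ) * x ^ ((k : ℕ) + 1)) +
        (l i : ℝ) * (∑ j : Fin n, (M i (Sum.inr j) : ℝ) * Int.fract (t j)) + (l i : ℝ) * c' i := by
      intro i
      push_cast
      rw [mul_assoc, hmy i]
      ring
    rw [Finset.sum_congr rfl fun i _ => h1 i, Finset.sum_add_distrib, Finset.sum_add_distrib]
    have h2 : ∑ i, (l i : ℝ) * (∑ k : Fin d, (M i (Sum.inl k) : ℝ) * x ^ ((k : ℕ) + 1)) =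
        ∑ k, (α k : ℝ) * x ^ ((k : ℕ) + 1) := by
      simp only [Finset.mul_sum]
      rw [Finset.sum_comm]
      refine Finset.sum_congr rfl fun k _ => ?_
      rw [hα]
      push_cast
      rw [Finset.sum_mul]
      exact Finset.sum_congr rfl fun i _ => by ring
    have h3 : ∑ i, (l i : ℝ) * (∑ j : Fin n, (M i (Sum.inr j) : ℝ) * Int.fract (t j)) = 0 := by
      simp only [Finset.mul_sum]
      rw [Finset.sum_comm]
      refine Finset.sum_eq_zero fun j _ => ?_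
      have h4 : ∑ i, (l i : ℝ) * (M i (Sum.inr j) : ℝ) = 0 := by exact_mod_cast hl1 j
      calc ∑ i, (l i : ℝ) * ((M i (Sum.inr j) : ℝ) * Int.fract (t j)) =
            (∑ i, (l i : ℝ) * (M i (Sum.inr j) : ℝ)) * Int.fract (t j) := by
            rw [Finset.sum_mul]; exact Finset.sum_congr rfl fun i _ => by ring
        _ = 0 := by rw [h4, zero_mul]
    rw [h2, h3, add_zero, hγ]
    push_cast
    rfl
  -- the sizes
  obtain ⟨L, hL⟩ : ∃ L : ℝ, L = (n + 1) * (n.factorial * H ^ (n + 1)) := ⟨_, rfl⟩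
  rw [← hL] at hl2
  have hHp : 1 ≤ H ^ (n + 1) := one_le_pow₀ hH
  have hL1 : 1 ≤ L := by
    rw [hL]
    exact one_le_mul_of_one_le_of_one_le (by linarith) (one_le_mul_of_one_le_of_one_le hfac hHp)
  obtain ⟨H₁, hH₁⟩ : ∃ H₁ : ℝ, H₁ = (n + 1) * (L * (H * G₀)) := ⟨_, rfl⟩
  have hHG : 1 ≤ H * G₀ := one_le_mul_of_one_le_of_one_le hH hG₀1
  have hHHG : H ≤ H * G₀ := le_mul_of_one_le_right hH0.le hG₀1
  have hLHG : L * (H * G₀) ≤ H₁ := by
    rw [hH₁]
    exact le_mul_of_one_le_left (by positivity) (by linarith)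
  have hH₁1 : 1 ≤ H₁ := (one_le_mul_of_one_le_of_one_le hL1 hHG).trans hLHG
  have hsumb : ∀ f : Fin (n + 1) → ℤ, (∀ i, |(f i : ℝ)| ≤ H * G₀) → |((∑ i, l i * f i : ℤ) : ℝ)| ≤ H₁ := by
    intro f hf
    push_cast
    have := abs_sum_le_card (fun i => (l i : ℝ) * f i) (L * (H * G₀)) (fun i => by
      rw [abs_mul]
      exact mul_le_mul (hl2 i) (hf i) (abs_nonneg _) (by linarith))
    rw [Fintype.card_fin] at this
    rw [hH₁]
    push_cast at this
    exact this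
  obtain ⟨cc, hcc1, hcc2, hcc3⟩ := lin_rel x d (n + 1) α γ (fun i => l i * m i) (fun i => Int.fract (y i)) H₁ hH₁1
    (fun k => by rw [hα]; exact hsumb _ fun i => (hMH _ _).trans hHHG) (by rw [hγ]; exact hsumb _ hc'H)
    (fun i => by
      push_cast
      rw [abs_mul]
      refine (mul_le_mul (hl2 i) ((hmi i).trans hHHG) (abs_nonneg _) (by linarith)).trans hLHG) k₀
    (by rw [hα]; exact hk₀) hrelation
  obtain ⟨H₂, hH₂⟩ : ∃ H₂ : ℝ, H₂ = (2 + ((n + 1 : ℕ) : ℝ)) * H₁ := ⟨_, rfl⟩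
  rw [← hH₂] at hcc1 hcc3
  have hH₂1 : 1 ≤ H₂ := by
    rw [hH₂]
    exact one_le_mul_of_one_le_of_one_le (by push_cast; linarith) hH₁1
  have hR := hrel cc (fun i => Int.fract (y i)) H₂ hH₂1 hcc1 (fun i => (hfr _).trans hH₂1) hcc2 hcc3
  simp only [Int.fract_fract] at hR
  have hh1 : 1 ≤ B * H₂ ^ (1 + (n + 1) * (d + 1)) := one_le_mul_of_one_le_of_one_le hB (one_le_pow₀ hH₂1)
  have hfin := hmain _ _ hR hh1 y (fun i => rfl) (fun _ => K) (fun _ => N) X (fun _ => hN) hs'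
  -- the conclusion
  have hlH : 0 ≤ Real.log H := Real.log_nonneg hH
  have hH₂Q : H₂ = Q * H ^ (n + 2) := by
    rw [hH₂, hH₁, hL, hQ]
    push_cast
    ring
  have hlog : Real.log (B * H₂ ^ (1 + (n + 1) * (d + 1))) = Real.log B + e * (Real.log Q + (n + 2) * Real.log H) := by
    rw [Real.log_mul (by positivity) (by positivity), Real.log_pow, hH₂Q,
      Real.log_mul (by positivity) (by positivity), Real.log_pow, he]
    push_cast
    ring
  rw [Finset.sum_const, Finset.sum_const, Finset.card_univ, Fintype.card_fin, smul_eq_mul, nsmul_eq_mul, hlog] at hfin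
  apply absurd hX
  rw [not_lt]
  refine hfin.trans ?_
  rw [mul_pow, ← pow_mul, mul_assoc]
  have h1 : A ^ ((n + 1) * K + 1) ≤ A ^ ((n + 1) * (K + 1)) := pow_le_pow_right₀ hA (by nlinarith)
  have h2 : G ≤ G ^ (K + 1) := le_self_pow₀ hG1 (by omega)
  refine mul_le_mul h1 ?_ (by positivity) (by positivity)
  have h3 : ((n + 1 : ℕ) : ℝ) * N + (Real.log B + e * (Real.log Q + (n + 2) * Real.log H)) + 1 ≤
      G * (N + Real.log H + 1) := by
    rw [hG]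
    push_cast
    have e1 : 0 ≤ N * (1 + Real.log B + e * (Real.log Q + (n + 2))) := by positivity
    have e2 : 0 ≤ Real.log H * ((n + 2) + Real.log B + e * Real.log Q) := by positivity
    have e3 : 0 ≤ (n : ℝ) + 1 + e * (n + 2) := by positivity
    calc ((n : ℝ) + 1) * N + (Real.log B + e * (Real.log Q + (n + 2) * Real.log H)) + 1
        ≤ (((n : ℝ) + 1) * N + (Real.log B + e * (Real.log Q + (n + 2) * Real.log H)) + 1) +
          N * (1 + Real.log B + e * (Real.log Q + (n + 2))) +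
          Real.log H * ((n + 2) + Real.log B + e * Real.log Q) + ((n : ℝ) + 1 + e * (n + 2)) := by linarith
      _ = ((n + 2) + Real.log B + e * (Real.log Q + (n + 2))) * (N + Real.log H + 1) := by ring
  exact h3.trans (mul_le_mul_of_nonneg_right h2 (by linarith))

end Pool.Agent.Run7.h360.CF
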